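import Pool.Agent.Lib.MP_023d06_ag.Defs

/-!
# MP_023d06_ag : the definitions used in the final statement

`G = SL_3` (split over `F_p`), `μ(t) = diag(t, 1, t⁻¹)`.  Then `P = P_-` is the group of lower
triangular matrices, `Q = P_+^{(p)}` the group of upper triangular matrices, `L = M = T` is the
diagonal torus and `φ` is the `p`-th power map; the zip group is `ZipGroup p` (file `Zip`).
-/

open CategoryTheory AlgebraicGeometry

namespace Pool.Agent.Lib.MP_023d06_ag.St

section Points

variable (k : Type) [Field k]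

/-- `Spec R` as a `k`-scheme, for a `k`-algebra `R`. -/
noncomputable def Sp (R : Type) [CommRing R] [Algebra k R] : Over (Spec (CommRingCat.of k)) :=
  Over.mk (Spec.map (CommRingCat.ofHom (algebraMap k R)))

lemma Sp.map_w {R R' : Type} [CommRing R] [Algebra k R] [CommRing R'] [Algebra k R']
    (f : R →ₐ[k] R') : Spec.map (CommRingCat.ofHom f.toRingHom) ≫ (Sp k R).hom =
      (Sp k R').hom :=
  MP_023d06_ag.Sp.map_w k f

/-- The morphism of `k`-schemes `Spec R' ⟶ Spec R` given by a `k`-algebra homomorphism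
`R → R'`. -/
noncomputable def Sp.map {R R' : Type} [CommRing R] [Algebra k R] [CommRing R'] [Algebra k R']
    (f : R →ₐ[k] R') : Sp k R' ⟶ Sp k R :=
  Over.homMk (Spec.map (CommRingCat.ofHom f.toRingHom)) (Sp.map_w k f)

variable {k}

/-- The ring `Γ(T, O_T)` of global functions on the `k`-scheme `T`. -/
def Fn (T : Over (Spec (CommRingCat.of k))) : Type := Γ(T.left, ⊤)

noncomputable instance Fn.commRing (T : Over (Spec (CommRingCat.of k))) : CommRing (Fn T) :=
  CommRingCat.commRing Γ(T.left, ⊤)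

/-- The value `f(τ) ∈ R` of a function `f ∈ Γ(T, O_T)` at an `R`-point `τ : Spec R ⟶ T`. -/
noncomputable def val {T : Over (Spec (CommRingCat.of k))} {R : Type} [CommRing R] [Algebra k R]
    (τ : Sp k R ⟶ T) : Fn T →+* R :=
  (τ.left.appTop ≫ (Scheme.ΓSpecIso (CommRingCat.of R)).hom).hom

end Points

section SL3

variable (k : Type) [Field k]

/-- The generic `3 × 3` matrix. -/
noncomputable def genMat : Matrix (Fin 3) (Fin 3) (MvPolynomial (Fin 3 × Fin 3) k) :=
  Matrix.of fun i j => MvPolynomial.X (i, j)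

/-- The ideal `(det X - 1)`. -/
noncomputable def idSL : Ideal (MvPolynomial (Fin 3 × Fin 3) k) := Ideal.span {(genMat k).det - 1}

/-- The coordinate ring `k[SL_3] = k[X_ij] / (det X - 1)`. -/
def CoordSL : Type := MvPolynomial (Fin 3 × Fin 3) k ⧸ idSL k

noncomputable instance CoordSL.commRing : CommRing (CoordSL k) := Ideal.Quotient.commRing (idSL k)

noncomputable instance CoordSL.algebra : Algebra k (CoordSL k) :=
  Ideal.instAlgebraQuotient k (idSL k)

/-- The `k`-scheme `SL_3`. -/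
noncomputable def SL3 : Over (Spec (CommRingCat.of k)) := Sp k (CoordSL k)

lemma homOfMat_aux {R : Type} [CommRing R] [Algebra k R] (g : SL R)
    (a : MvPolynomial (Fin 3 × Fin 3) k) (ha : a ∈ idSL k) :
    MvPolynomial.aeval (fun ij : Fin 3 × Fin 3 => g ij.1 ij.2) a = 0 :=
  MP_023d06_ag.homOfMat_aux k g a ha

/-- The homomorphism `k[SL_3] → R` which corresponds to `g ∈ SL_3(R)`. -/
noncomputable def homOfMat {R : Type} [CommRing R] [Algebra k R] (g : SL R) : CoordSL k →ₐ[k] R :=
  Ideal.Quotient.liftₐ (idSL k) (MvPolynomial.aeval fun ij => g ij.1 ij.2) (homOfMat_aux k g)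

/-- The `R`-point of the scheme `SL_3` which corresponds to `g ∈ SL_3(R)`. -/
noncomputable def pt {R : Type} [CommRing R] [Algebra k R] (g : SL R) : Sp k R ⟶ SL3 k :=
  Sp.map k (homOfMat k g)

/-- The coordinate `X_ij ∈ k[SL_3]`. -/
noncomputable def crd (i j : Fin 3) : CoordSL k :=
  Ideal.Quotient.mk (idSL k) (MvPolynomial.X (i, j))

variable {k}

/-- The homomorphism `k[SL_3] → R` of an `R`-point of `SL_3`. -/
noncomputable def comor {R : Type} [CommRing R] [Algebra k R] (h : Sp k R ⟶ SL3 k) :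
    CoordSL k →+* R :=
  (Spec.preimage h.left).hom

lemma comor_eq {R : Type} [CommRing R] [Algebra k R] (h : Sp k R ⟶ SL3 k) (i j : Fin 3) :
    comor h (crd k i j) =
      MP_023d06_ag.mat (show MP_023d06_ag.Sp k R ⟶ MP_023d06_ag.Sp k (MP_023d06_ag.CoordSL k)
        from h) i j := by
  rw [MP_023d06_ag.mat_eq]
  rfl

lemma det_comor {R : Type} [CommRing R] [Algebra k R] (h : Sp k R ⟶ SL3 k) :
    (Matrix.of fun i j => comor h (crd k i j)).det = 1 := by
  have h1 : (Matrix.of fun i j => comor h (crd k i j)) =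
      (MP_023d06_ag.mat (show MP_023d06_ag.Sp k R ⟶ MP_023d06_ag.Sp k (MP_023d06_ag.CoordSL k)
        from h)).1 := by
    ext i j
    exact comor_eq h i j
  rw [h1]
  exact (MP_023d06_ag.mat _).2

/-- The matrix in `SL_3(R)` of an `R`-point of the `k`-scheme `SL_3 = Spec k[SL_3]`. -/
noncomputable def mat {R : Type} [CommRing R] [Algebra k R] (h : Sp k R ⟶ SL3 k) : SL R :=
  ⟨Matrix.of fun i j => comor h (crd k i j), det_comor h⟩

lemma mat_eq_mat {R : Type} [CommRing R] [Algebra k R] (h : Sp k R ⟶ SL3 k) :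
    mat h = MP_023d06_ag.mat
      (show MP_023d06_ag.Sp k R ⟶ MP_023d06_ag.Sp k (MP_023d06_ag.CoordSL k) from h) := by
  ext i j
  exact comor_eq h i j

end SL3

section Main

variable (k : Type) [Field k] (p : ℕ)

/-- A `k`-scheme with an action of the zip group `E`: for all `k`-algebras `R` the group `E(R)`
acts on the set of `R`-points, functorially in `R`. -/
structure EScheme where
  /-- the scheme -/
  T : Over (Spec (CommRingCat.of k))
  /-- the action -/
  act : ∀ (R : Type) [CommRing R] [Algebra k R], ZipGroup p R → (Sp k R ⟶ T) → (Sp k R ⟶ T)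
  act_one : ∀ (R : Type) [CommRing R] [Algebra k R] (τ : Sp k R ⟶ T), act R 1 τ = τ
  act_mul : ∀ (R : Type) [CommRing R] [Algebra k R] (e e' : ZipGroup p R) (τ : Sp k R ⟶ T),
    act R (e * e') τ = act R e (act R e' τ)
  act_map : ∀ (R R' : Type) [CommRing R] [Algebra k R] [CommRing R'] [Algebra k R']
    (f : R →ₐ[k] R') (e : ZipGroup p R) (τ : Sp k R ⟶ T),
    Sp.map k f ≫ act R e τ = act R' (ZipGroup.map f.toRingHom e) (Sp.map k f ≫ τ)

/-- The action `(x, y) · g = x g y⁻¹` on the `R`-points of `SL_3`. -/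
noncomputable def actSL (R : Type) [CommRing R] [Algebra k R] (e : ZipGroup p R)
    (h : Sp k R ⟶ SL3 k) : Sp k R ⟶ SL3 k :=
  pt k (e.1.1 * mat h * e.1.2⁻¹)

lemma actSL_eq (R : Type) [CommRing R] [Algebra k R] (e : ZipGroup p R)
    (h : Sp k R ⟶ SL3 k) : actSL k p R e h = MP_023d06_ag.actSL k p R e h := by
  rw [actSL, mat_eq_mat]
  rfl

lemma actSL_one (R : Type) [CommRing R] [Algebra k R] (h : Sp k R ⟶ SL3 k) :
    actSL k p R 1 h = h := by
  rw [actSL_eq]
  exact MP_023d06_ag.actSL_one k p R h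

lemma actSL_mul (R : Type) [CommRing R] [Algebra k R] (e e' : ZipGroup p R)
    (h : Sp k R ⟶ SL3 k) :
    actSL k p R (e * e') h = actSL k p R e (actSL k p R e' h) := by
  rw [actSL_eq, actSL_eq, actSL_eq]
  exact MP_023d06_ag.actSL_mul k p R e e' h

lemma actSL_map (R R' : Type) [CommRing R] [Algebra k R] [CommRing R'] [Algebra k R']
    (f : R →ₐ[k] R') (e : ZipGroup p R) (h : Sp k R ⟶ SL3 k) :
    Sp.map k f ≫ actSL k p R e h =
      actSL k p R' (ZipGroup.map f.toRingHom e) (Sp.map k f ≫ h) := by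
  rw [actSL_eq, actSL_eq]
  exact MP_023d06_ag.actSL_map k p R R' f e h

/-- `SL_3` with the action `(x, y) · g = x g y⁻¹` of `E`. -/
noncomputable def SLE : EScheme k p where
  T := SL3 k
  act R _ _ e h := actSL k p R e h
  act_one R _ _ h := actSL_one k p R h
  act_mul R _ _ e e' h := actSL_mul k p R e e' h
  act_map R R' _ _ _ _ f e h := actSL_map k p R R' f e h

/-- A morphism of `k`-schemes `ζ : X ⟶ G-Zip^μ = [E \ G]`, given as an `E`-torsor `π : T ⟶ X`
(`π` is smooth and surjective and `E × T ≅ T ×_X T`) with an `E`-equivariant morphism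
`γ : T ⟶ G`. -/
structure ZipMap (X : Over (Spec (CommRingCat.of k))) extends EScheme k p where
  /-- the projection of the torsor -/
  π : T ⟶ X
  smooth_π : Smooth π.left
  surjective_π : Surjective π.left
  torsor : ∀ (R : Type) [CommRing R] [Algebra k R] (τ τ' : Sp k R ⟶ T),
    τ ≫ π = τ' ≫ π ↔ ∃! e : ZipGroup p R, act R e τ = τ'
  /-- the equivariant map to `G` -/
  γ : T ⟶ SL3 k
  equivariant : ∀ (R : Type) [CommRing R] [Algebra k R] (e : ZipGroup p R) (τ : Sp k R ⟶ T),
    mat (act R e τ ≫ γ) = e.1.1 * mat (τ ≫ γ) * e.1.2⁻¹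

variable {k p}

/-- `f` is a section of the line bundle `V_I(λ)` on `[E \ T]`, `λ(x) = ∏ x_ii ^ λ_i`: for all
`k`-algebras `R`, all `e = (x, y) ∈ E(R)` and `τ ∈ T(R)` one has `f(e τ) = λ(x) f(τ)`. -/
def EScheme.IsSection (Y : EScheme k p) (w : Fin 3 → ℤ) (f : Fn Y.T) : Prop :=
  ∀ (R : Type) [CommRing R] [Algebra k R] (e : ZipGroup p R) (τ : Sp k R ⟶ Y.T)
    (a : Fin 3 → Rˣ), (∀ i, (a i : R) = e.1.1 i i) →
    val (Y.act R e τ) f = ((∏ i, a i ^ w i : Rˣ) : R) * val τ f

/-- The saturated cone of the weights `λ ∈ ℤ³` (modulo `ℤ(1,1,1)` this is `X^*(T)`) such that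
`H⁰([E \ T], V_I(λ)) ≠ 0`. -/
def EScheme.cone (Y : EScheme k p) : Set (Fin 3 → ℤ) :=
  {w | ∃ d : ℕ, 0 < d ∧ ∃ f : Fn Y.T, f ≠ 0 ∧ Y.IsSection (fun i => d * w i) f}

/-- Condition (i): `X` is proper over `k`. -/
def CondI (X : Over (Spec (CommRingCat.of k))) : Prop := IsProper X.hom

/-- Condition (ii): `ζ` is smooth, and surjective on each connected component of `X`. -/
def ZipMap.CondII {X : Over (Spec (CommRingCat.of k))} (Z : ZipMap k p X) : Prop :=
  Smooth Z.γ.left ∧ ∀ x : X.left, Z.γ.left '' (Z.π.left ⁻¹' connectedComponent x) = Set.univ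

end Main

end Pool.Agent.Lib.MP_023d06_ag.St
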