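import Pool.Agent.Lib.MP_023d06_ag.Final
import Pool.Agent.Lib.MP_023d06_ag.Stmt

/-!
# The counterexample, in terms of the definitions of the final statement
-/

open CategoryTheory AlgebraicGeometry

namespace Pool.Agent.Lib.MP_023d06_ag

variable (k : Type) [Field k]

/-- an `E`-scheme in the sense of the final statement. -/
noncomputable def toSt (p : ℕ) (Y : EScheme k p) : St.EScheme k p where
  T := Y.T
  act R _ _ e τ := Y.act R e τ
  act_one R _ _ τ := Y.act_one R τ
  act_mul R _ _ e e' τ := Y.act_mul R e e' τ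
  act_map R R' _ _ _ _ f e τ := Y.act_map R R' f e τ

/-- a morphism to `G-Zip^μ` in the sense of the final statement. -/
noncomputable def toStZ (p : ℕ) {X : Over (Spec (CommRingCat.of k))} (Z : ZipMap k p X) :
    St.ZipMap k p X where
  toEScheme := toSt k p Z.toEScheme
  π := Z.π
  smooth_π := Z.smooth_π
  surjective_π := Z.surjective_π
  torsor R _ _ τ τ' := Z.torsor R τ τ'
  γ := Z.γ
  equivariant R _ _ e τ := by
    rw [St.mat_eq_mat, St.mat_eq_mat]
    have h := congrArg MP_023d06_ag.mat (Z.equivariant R e τ)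
    refine Eq.trans h ?_
    exact mat_map_homOfMat _

lemma isSection_iff (p : ℕ) (Y : EScheme k p) (w : Fin 3 → ℤ) (f : Γ(Y.T.left, ⊤)) :
    (toSt k p Y).IsSection w f ↔ Y.IsSection w f := Iff.rfl

lemma cone_eq (p : ℕ) (Y : EScheme k p) : (toSt k p Y).cone = Y.cone := rfl

lemma SLE_isSection_iff (p : ℕ) (w : Fin 3 → ℤ) (f : Γ((Sp k (CoordSL k)).left, ⊤)) :
    (St.SLE k p).IsSection w f ↔ (SLE k p).IsSection w f := by
  have h : ∀ (R : Type) [CommRing R] [Algebra k R] (e : ZipGroup p R) (τ : St.Sp k R ⟶ St.SL3 k),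
      (St.SLE k p).act R e τ = (SLE k p).act R e τ := fun R _ _ e τ => St.actSL_eq k p R e τ
  constructor
  · intro hf R _ _ e τ a ha
    have h1 := hf R e τ a ha
    rw [h R e τ] at h1
    exact h1
  · intro hf R _ _ e τ a ha
    rw [h R e τ]
    exact hf R e τ a ha

lemma SLE_cone_eq (p : ℕ) : (St.SLE k p).cone = (SLE k p).cone := by
  ext w
  constructor
  · rintro ⟨d, hd, f, hf, hs⟩
    exact ⟨d, hd, f, hf, (SLE_isSection_iff k p _ f).1 hs⟩
  · rintro ⟨d, hd, f, hf, hs⟩
    exact ⟨d, hd, f, hf, (SLE_isSection_iff k p _ f).2 hs⟩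

/-- The counterexample, over every field `k` of characteristic 2. -/
theorem main' (h2 : (2 : k) = 0) :
    ∃ (X : Over (Spec (CommRingCat.of k))) (Z : St.ZipMap k 2 X), St.CondI X ∧ Z.CondII ∧
      (![-2, 1, 0] : Fin 3 → ℤ) ∈ Z.cone ∧ (![-2, 1, 0] : Fin 3 → ℤ) ∉ (St.SLE k 2).cone := by
  refine ⟨XX k, toStZ k 2 (ZZ k), condI k, condII k h2, ?_, ?_⟩
  · exact wt0_mem k
  · rw [SLE_cone_eq]
    exact wt0_not_mem k

end Pool.Agent.Lib.MP_023d06_ag
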