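import Pool.Agent.Lib.MP_023d06_ag.Grad

/-!
# The graded algebra `A`, its values at points and the nine charts
-/

open HomogeneousLocalization

namespace Pool.Agent.Lib.MP_023d06_ag

section Theta

variable {A R : Type} [CommRing A] [CommRing R] {σ : Type} [SetLike σ A] [AddSubgroupClass σ A]
  (𝒜 : ℕ → σ) [GradedRing 𝒜]

/-- the homomorphism `A_(f) → R` induced by `φ : A → R` with `φ f` a unit. -/
noncomputable def theta (φ : A →+* R) {f : A} (hu : IsUnit (φ f)) : Away 𝒜 f →+* R :=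
  (Localization.awayLift φ f hu).comp (algebraMap _ _)

lemma theta_mk (φ : A →+* R) {f : A} (hu : IsUnit (φ f)) {d : ℕ} (hf : f ∈ 𝒜 d) (n : ℕ) (a : A)
    (ha : a ∈ 𝒜 (n • d)) : theta 𝒜 φ hu (Away.mk 𝒜 hf n a ha) * φ f ^ n = φ a := by
  have h1 : algebraMap (Away 𝒜 f) (Localization.Away f) (Away.mk 𝒜 hf n a ha) *
      algebraMap A (Localization.Away f) f ^ n = algebraMap A (Localization.Away f) a := by
    rw [← map_pow, HomogeneousLocalization.algebraMap_apply, Away.val_mk, Localization.mk_eq_mk']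
    exact IsLocalization.mk'_spec (M := Submonoid.powers f) (Localization.Away f) a
      (⟨f ^ n, n, rfl⟩ : Submonoid.powers f)
  have h2 := congrArg (Localization.awayLift φ f hu) h1
  rw [map_mul, map_pow] at h2
  simpa [theta, Localization.awayLift] using h2

end Theta

variable (k : Type) [Field k]

/-- the span of the monomials of weight `(n, n)`. -/
noncomputable def V (n : ℕ) : Submodule k (B k) :=
  Submodule.span k {b | ∃ e, IsDiag e n ∧ b = mon (co (univTup k)) e}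

lemma mon_mem_V {e : Fin 8 → ℕ} {n : ℕ} (h : IsDiag e n) :
    mon (co (univTup k)) e ∈ V k n := Submodule.subset_span ⟨e, h, rfl⟩

instance V.gradedMonoid : SetLike.GradedMonoid (V k) where
  one_mem := Submodule.subset_span ⟨0, IsDiag.zero, (mon_zero _).symm⟩
  mul_mem := by
    intro i j a b ha hb
    have h : V k i * V k j ≤ V k (i + j) := by
      rw [V, V, Submodule.span_mul_span, Submodule.span_le]
      rintro _ ⟨x, ⟨e, he, rfl⟩, y, ⟨e', he', rfl⟩, rfl⟩
      exact Submodule.subset_span ⟨e + e', he.add he', (mon_add _ _ _).symm⟩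
    exact h (Submodule.mul_mem_mul ha hb)

/-- the graded algebra `⨁ V n`. -/
noncomputable abbrev A : Type := ReesAlg (V k)

/-- its grading -/
noncomputable abbrev Gr (n : ℕ) : Submodule k (A k) := ReesGr (V k) n

variable {R : Type} [CommRing R] [Algebra k R]

/-- the value of an element of `A` at a point. -/
noncomputable def ev (T : Tup R) : A k →ₐ[k] R := (homOfTup k T).comp (reval (V k))

lemma homOfTup_mon (T : Tup R) (e : Fin 8 → ℕ) :
    homOfTup k T (mon (co (univTup k)) e) = mon (co T) e := by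
  have h := mon_map (homOfTup k T).toRingHom (co (univTup k)) e
  have h2 : (fun z => (homOfTup k T).toRingHom (co (univTup k) z)) = co T := by
    funext z
    rw [← co_map, map_homOfTup]
  rw [h2] at h
  exact h

lemma V_scale {n : ℕ} {x : B k} (hx : x ∈ V k n) {T T' : Tup R} {a b : Rˣ}
    (h : ∀ z, co T' z = sc a b z * co T z) :
    homOfTup k T' x = ((a * b : Rˣ) : R) ^ n * homOfTup k T x := by
  refine Submodule.span_induction ?_ ?_ ?_ ?_ hx
  · rintro _ ⟨e, he, rfl⟩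
    rw [homOfTup_mon, homOfTup_mon, mon_scale h he]
  · simp
  · intro x y _ _ hx hy
    rw [map_add, map_add, hx, hy, mul_add]
  · intro c x _ hx
    rw [map_smul, map_smul, hx, mul_smul_comm]

lemma ev_scale {n : ℕ} {P : A k} (hP : P ∈ Gr k n) {T T' : Tup R} {a b : Rˣ}
    (h : ∀ z, co T' z = sc a b z * co T z) :
    ev k T' P = ((a * b : Rˣ) : R) ^ n * ev k T P :=
  V_scale k (reval_mem (V k) n hP) h

lemma ev_map {R' : Type} [CommRing R'] [Algebra k R'] (f : R →ₐ[k] R') (T : Tup R) :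
    ev k (T.map f.toRingHom) = f.comp (ev k T) := by
  rw [ev, ← homOfTup_comp]; rfl

/-- the element of `A` given by a monomial of weight `(n, n)`. -/
noncomputable def amon (e : Fin 8 → ℕ) (n : ℕ) (h : IsDiag e n) : A k :=
  rmk n (mon (co (univTup k)) e) (mon_mem_V k h)

lemma amon_mem (e : Fin 8 → ℕ) (n : ℕ) (h : IsDiag e n) : amon k e n h ∈ Gr k n := rmk_mem _ _ _

lemma ev_amon (T : Tup R) (e : Fin 8 → ℕ) (n : ℕ) (h : IsDiag e n) :
    ev k T (amon k e n h) = mon (co T) e := by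
  rw [ev, AlgHom.comp_apply, amon, reval_rmk, homOfTup_mon]

/-! ### The nine charts -/

/-- the exponents of the chart monomials -/
def chm : Fin 9 → Fin 8 → ℕ :=
  ![![1, 0, 0, 0, 0, 1, 0, 0],
    ![0, 0, 4, 0, 1, 0, 1, 0],
    ![0, 1, 0, 4, 0, 0, 0, 1],
    ![0, 1, 0, 1, 0, 3, 0, 0],
    ![0, 0, 1, 1, 0, 0, 1, 0],
    ![3, 0, 1, 0, 1, 0, 0, 0],
    ![4, 0, 0, 0, 1, 0, 1, 0],
    ![0, 0, 4, 0, 1, 0, 0, 1],
    ![0, 1, 0, 0, 0, 4, 1, 0]]

/-- their weights -/
def chn : Fin 9 → ℕ := ![1, 8, 8, 4, 4, 4, 4, 8, 4]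

lemma chn_pos (c : Fin 9) : 0 < chn c := by fin_cases c <;> decide

lemma ch_diag (c : Fin 9) : IsDiag (chm c) (chn c) := by fin_cases c <;> decide

/-- a Laurent monomial of weight `(1, 0)` in the coordinates which divide `chm c` -/
def chA : Fin 9 → Fin 8 → ℤ :=
  ![![1, 0, 0, 0, 0, 0, 0, 0],
    ![0, 0, 1, 0, 0, 0, -1, 0],
    ![0, 0, 0, -1, 0, 0, 0, 2],
    ![0, 0, 0, 1, 0, -2, 0, 0],
    ![0, 0, 1, 0, 0, 0, -1, 0],
    ![1, 0, 0, 0, 0, 0, 0, 0],
    ![1, 0, 0, 0, 0, 0, 0, 0],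
    ![0, 0, 1, 0, 0, 0, 0, -1],
    ![0, 0, 0, 0, 0, -1, 1, 0]]

/-- a Laurent monomial of weight `(0, 1)` in the coordinates which divide `chm c` -/
def chB : Fin 9 → Fin 8 → ℤ :=
  ![![0, 0, 0, 0, 0, 1, 0, 0],
    ![0, 0, -1, 0, 0, 0, 2, 0],
    ![0, 0, 0, 1, 0, 0, 0, -1],
    ![0, 0, 0, 0, 0, 1, 0, 0],
    ![0, 0, -1, 0, 0, 0, 2, 0],
    ![-2, 0, 1, 0, 0, 0, 0, 0],
    ![-1, 0, 0, 0, 0, 0, 1, 0],
    ![0, 0, -1, 0, 0, 0, 0, 2],
    ![0, 0, 0, 0, 0, 1, 0, 0]]

lemma chA_supp (c : Fin 9) (z : Fin 8) (h : chm c z = 0) : chA c z = 0 := by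
  revert c z; decide

lemma chB_supp (c : Fin 9) (z : Fin 8) (h : chm c z = 0) : chB c z = 0 := by
  revert c z; decide

lemma chA_wt (c : Fin 9) : ∑ z, chA c z * wta z = 1 ∧ ∑ z, chA c z * wtb z = 0 := by
  revert c; decide

lemma chB_wt (c : Fin 9) : ∑ z, chB c z * wta z = 0 ∧ ∑ z, chB c z * wtb z = 1 := by
  revert c; decide

/-- exponents of `z · (chart monomial) ^ 8 / (a ^ wta z b ^ wtb z)`, as integers -/
def numZ (c : Fin 9) (z w : Fin 8) : ℤ :=
  (if w = z then 1 else 0) + 8 * chm c w - wta z * chA c w - wtb z * chB c w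

/-- exponents of `z⁻¹ · (chart monomial) ^ 8 · (a ^ wta z b ^ wtb z)`, as integers -/
def invZ (c : Fin 9) (z w : Fin 8) : ℤ :=
  -(if w = z then 1 else 0) + 8 * chm c w + wta z * chA c w + wtb z * chB c w

set_option maxRecDepth 10000 in
lemma numZ_nonneg (c : Fin 9) (z w : Fin 8) : 0 ≤ numZ c z w := by
  revert c z w; decide

set_option maxRecDepth 10000 in
lemma invZ_nonneg (c : Fin 9) (z w : Fin 8) (h : chm c z ≠ 0) : 0 ≤ invZ c z w := by
  revert c z w; decide

/-- the exponents `numZ` as natural numbers -/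
def num (c : Fin 9) (z w : Fin 8) : ℕ := (numZ c z w).toNat

/-- the exponents `invZ` as natural numbers -/
def inum (c : Fin 9) (z w : Fin 8) : ℕ := (invZ c z w).toNat

set_option maxRecDepth 10000 in
lemma num_diag (c : Fin 9) (z : Fin 8) : IsDiag (num c z) (8 * chn c) := by
  revert c z; decide

set_option maxRecDepth 10000 in
lemma inum_diag (c : Fin 9) (z : Fin 8) (h : chm c z ≠ 0) : IsDiag (inum c z) (8 * chn c) := by
  revert c z; decide

end Pool.Agent.Lib.MP_023d06_ag
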