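import Pool.Agent.Lib.MP_023d06_ag.Cover

/-!
# Points over a chart: normalised coordinates, the section over a chart
-/

open HomogeneousLocalization

namespace Pool.Agent.Lib.MP_023d06_ag

section Units

variable {R : Type} [CommRing R]

/-- if the chart monomial is a unit at `T`, so are the coordinates which divide it. -/
lemma isUnit_co {T : Tup R} {c : Fin 9} (hu : IsUnit (mon (co T) (chm c))) {z : Fin 8}
    (hz : chm c z ≠ 0) : IsUnit (co T z) := by
  have h1 : co T z ^ chm c z ∣ mon (co T) (chm c) := Finset.dvd_prod_of_mem _ (Finset.mem_univ z)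
  exact (isUnit_pow_iff hz).1 (isUnit_of_dvd_unit h1 hu)

/-- the units `co T z` (for `z` in the support of the chart, else `1`). -/
noncomputable def cu (T : Tup R) (c : Fin 9) (hu : IsUnit (mon (co T) (chm c))) (z : Fin 8) : Rˣ :=
  if hz : chm c z = 0 then 1 else (isUnit_co hu hz).unit

lemma cu_val (T : Tup R) (c : Fin 9) (hu : IsUnit (mon (co T) (chm c))) (z : Fin 8)
    (hz : chm c z ≠ 0) : (cu T c hu z : R) = co T z := by
  rw [cu, dif_neg hz, IsUnit.unit_spec]

/-- the unit of weight `(1, 0)` of a point over the chart `c` -/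
noncomputable def ca (T : Tup R) (c : Fin 9) (hu : IsUnit (mon (co T) (chm c))) : Rˣ :=
  ∏ z, cu T c hu z ^ chA c z

/-- the unit of weight `(0, 1)` of a point over the chart `c` -/
noncomputable def cb (T : Tup R) (c : Fin 9) (hu : IsUnit (mon (co T) (chm c))) : Rˣ :=
  ∏ z, cu T c hu z ^ chB c z

lemma cp1_factor (T : Tup R) (c : Fin 9) (hu : IsUnit (mon (co T) (chm c))) (z w : Fin 8) :
    co T w ^ num c z w = (if w = z then co T w else 1) *
      ((cu T c hu w ^ (8 * (chm c w : ℤ) - wta z * chA c w - wtb z * chB c w) : Rˣ) : R) := by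
  by_cases hw : chm c w = 0
  · have h1 : num c z w = if w = z then 1 else 0 := by
      rw [num, numZ, hw, chA_supp c w hw, chB_supp c w hw]
      split_ifs <;> simp
    rw [h1, hw, chA_supp c w hw, chB_supp c w hw]
    split_ifs <;> simp
  · rw [← cu_val T c hu w hw]
    have h1 : ((cu T c hu w : R)) ^ num c z w = ((cu T c hu w ^ (numZ c z w) : Rˣ) : R) := by
      have h2 : ((num c z w : ℕ) : ℤ) = numZ c z w := Int.toNat_of_nonneg (numZ_nonneg c z w)
      rw [← h2, zpow_natCast, Units.val_pow_eq_pow_val]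
    rw [h1, numZ]
    split_ifs with h3
    · rw [← Units.val_mul]
      congr 1
      rw [← zpow_one_add]
      congr 1
      ring
    · rw [one_mul]
      congr 2
      ring

lemma cp1_mon (T : Tup R) (c : Fin 9) (hu : IsUnit (mon (co T) (chm c))) :
    mon (co T) (chm c) = ((∏ w, cu T c hu w ^ (chm c w : ℤ) : Rˣ) : R) := by
  rw [mon, Units.coe_prod]
  refine Finset.prod_congr rfl fun w _ => ?_
  by_cases hw : chm c w = 0
  · simp [hw]
  · rw [← cu_val T c hu w hw, zpow_natCast, Units.val_pow_eq_pow_val]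

/-- the value of the monomial `num c z`. -/
lemma mon_num (T : Tup R) (c : Fin 9) (hu : IsUnit (mon (co T) (chm c))) (z : Fin 8) :
    mon (co T) (num c z) = ((sc (ca T c hu) (cb T c hu) z)⁻¹ : Rˣ) * co T z *
      mon (co T) (chm c) ^ 8 := by
  have h1 : mon (co T) (num c z) = co T z *
      ((∏ w, cu T c hu w ^ (8 * (chm c w : ℤ) - wta z * chA c w - wtb z * chB c w) : Rˣ) : R) := by
    rw [mon, Finset.prod_congr rfl (fun w _ => cp1_factor T c hu z w), Finset.prod_mul_distrib,
      Units.coe_prod]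
    congr 1
    rw [Finset.prod_ite_eq' Finset.univ z (fun w => co T w)]
    simp
  have h2 : (∏ w, cu T c hu w ^ (8 * (chm c w : ℤ) - wta z * chA c w - wtb z * chB c w) : Rˣ) =
      (sc (ca T c hu) (cb T c hu) z)⁻¹ * (∏ w, cu T c hu w ^ (chm c w : ℤ)) ^ 8 := by
    have h3 : ∀ w, cu T c hu w ^ (8 * (chm c w : ℤ) - wta z * chA c w - wtb z * chB c w) =
        (cu T c hu w ^ (chm c w : ℤ)) ^ 8 * ((cu T c hu w ^ chA c w) ^ (-wta z) *
          (cu T c hu w ^ chB c w) ^ (-wtb z)) := by
      intro w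
      rw [← zpow_natCast (cu T c hu w ^ (chm c w : ℤ)) 8, ← zpow_mul, ← zpow_mul, ← zpow_mul,
        ← zpow_add, ← zpow_add]
      congr 1
      push_cast
      ring
    rw [Finset.prod_congr rfl (fun w _ => h3 w), Finset.prod_mul_distrib, Finset.prod_mul_distrib,
      Finset.prod_pow, Finset.prod_zpow, Finset.prod_zpow, sc, ca, cb, mul_inv, zpow_neg, zpow_neg,
      mul_comm]
  rw [h1, h2, cp1_mon T c hu, Units.val_mul, Units.val_pow_eq_pow_val]
  ring

lemma cp1_A (a b : Rˣ) (c : Fin 9) : ∏ z, sc a b z ^ chA c z = a := by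
  have h1 : ∀ z, sc a b z ^ chA c z = a ^ (chA c z * wta z) * b ^ (chA c z * wtb z) := by
    intro z
    rw [sc, mul_zpow, ← zpow_mul, ← zpow_mul, mul_comm (wta z), mul_comm (wtb z)]
  rw [Finset.prod_congr rfl (fun z _ => h1 z), Finset.prod_mul_distrib, prod_zpow_sum,
    prod_zpow_sum, (chA_wt c).1, (chA_wt c).2, zpow_one, zpow_zero, mul_one]

lemma cp1_B (a b : Rˣ) (c : Fin 9) : ∏ z, sc a b z ^ chB c z = b := by
  have h1 : ∀ z, sc a b z ^ chB c z = a ^ (chB c z * wta z) * b ^ (chB c z * wtb z) := by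
    intro z
    rw [sc, mul_zpow, ← zpow_mul, ← zpow_mul, mul_comm (wta z), mul_comm (wtb z)]
  rw [Finset.prod_congr rfl (fun z _ => h1 z), Finset.prod_mul_distrib, prod_zpow_sum,
    prod_zpow_sum, (chB_wt c).1, (chB_wt c).2, zpow_one, zpow_zero, one_mul]

/-- over a chart the pair of units is unique -/
lemma units_unique_chart {T : Tup R} {c : Fin 9} (hu : IsUnit (mon (co T) (chm c)))
    {a b a' b' : Rˣ} (h : ∀ z, (sc a b z : R) * co T z = sc a' b' z * co T z) :
    a = a' ∧ b = b' := by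
  have h1 : ∀ z, chm c z ≠ 0 → sc a b z = sc a' b' z := by
    intro z hz
    ext
    exact (isUnit_co hu hz).mul_right_cancel (h z)
  constructor
  · rw [← cp1_A a b c, ← cp1_A a' b' c]
    refine Finset.prod_congr rfl fun z _ => ?_
    by_cases hz : chm c z = 0
    · rw [chA_supp c z hz, zpow_zero, zpow_zero]
    · rw [h1 z hz]
  · rw [← cp1_B a b c, ← cp1_B a' b' c]
    refine Finset.prod_congr rfl fun z _ => ?_
    by_cases hz : chm c z = 0
    · rw [chB_supp c z hz, zpow_zero, zpow_zero]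
    · rw [h1 z hz]

lemma units_unique {T : Tup R} {a b a' b' : Rˣ}
    (h : ∀ z, (sc a b z : R) * co T z = sc a' b' z * co T z) : a = a' ∧ b = b' := by
  -- the statement in the localisations
  have key : ∀ c : Fin 9,
      (∃ n : ℕ, mon (co T) (chm c) ^ n * ((a : R) - a') = 0) ∧
      (∃ n : ℕ, mon (co T) (chm c) ^ n * ((b : R) - b') = 0) := by
    intro c
    let L := Localization.Away (mon (co T) (chm c))
    let φ : R →+* L := algebraMap R L
    have hco : ∀ z, co (T.map φ) z = φ (co T z) := co_map φ T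
    have hu : IsUnit (mon (co (T.map φ)) (chm c)) := by
      have h1 : mon (co (T.map φ)) (chm c) = φ (mon (co T) (chm c)) := by
        rw [mon_map]
        congr 1
        funext z
        exact hco z
      rw [h1]
      exact IsLocalization.Away.algebraMap_isUnit _
    have hsc : ∀ (x y : Rˣ) (z : Fin 8),
        (sc (Units.map (φ : R →* L) x) (Units.map (φ : R →* L) y) z : L) = φ (sc x y z) := by
      intro x y z
      rw [sc, ← map_zpow, ← map_zpow, ← map_mul]
      rfl
    have h2 := units_unique_chart (T := T.map φ) (c := c) hu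
      (a := Units.map (φ : R →* L) a) (b := Units.map (φ : R →* L) b)
      (a' := Units.map (φ : R →* L) a') (b' := Units.map (φ : R →* L) b') (by
        intro z
        rw [hsc, hsc, hco, ← map_mul, ← map_mul, h z])
    have h3 : ∀ x y : Rˣ, Units.map (φ : R →* L) x = Units.map (φ : R →* L) y →
        ∃ n : ℕ, mon (co T) (chm c) ^ n * ((x : R) - y) = 0 := by
      intro x y hxy
      have h4 : φ ((x : R) - y) = 0 := by
        rw [map_sub, sub_eq_zero]
        exact congrArg (fun u : Lˣ => (u : L)) hxy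
      obtain ⟨⟨m, n, hn⟩, hm⟩ := (IsLocalization.map_eq_zero_iff
        (Submonoid.powers (mon (co T) (chm c))) L _).1 h4
      refine ⟨n, ?_⟩
      change mon (co T) (chm c) ^ n = m at hn
      rw [hn]
      exact hm
    exact ⟨h3 _ _ h2.1, h3 _ _ h2.2⟩
  have glue : ∀ x : R, (∀ c : Fin 9, ∃ n : ℕ, mon (co T) (chm c) ^ n * x = 0) → x = 0 := by
    intro x hx
    let I : Ideal R := Submodule.annihilator (Ideal.span {x})
    have hI : ∀ r : R, r ∈ I ↔ r * x = 0 := by
      intro r
      rw [Submodule.mem_annihilator_span_singleton, smul_eq_mul]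
    have h1 : Ideal.span (Set.range fun c => mon (co T) (chm c)) ≤ I.radical := by
      rw [Ideal.span_le]
      rintro _ ⟨c, rfl⟩
      obtain ⟨n, hn⟩ := hx c
      exact ⟨n, (hI _).2 hn⟩
    rw [cover_ring, top_le_iff, Ideal.radical_eq_top] at h1
    have h2 : (1 : R) ∈ I := by rw [h1]; trivial
    simpa using (hI 1).1 h2
  constructor
  · ext
    rw [← sub_eq_zero]
    exact glue _ fun c => (key c).1
  · ext
    rw [← sub_eq_zero]
    exact glue _ fun c => (key c).2

end Units

section Cp3a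

variable {R : Type} [CommRing R]

/-- a torus element with given `ua`, `ub` -/
def cp3E (a b : Rˣ) : ZipGroup 2 R :=
  ⟨(⟨!![((a⁻¹ : Rˣ) : R), 0, 0; 0, ((a * b⁻¹ : Rˣ) : R), 0; 0, 0, (b : R)], by
      rw [Matrix.det_fin_three]
      have h : ((a⁻¹ : Rˣ) : R) * ((a * b⁻¹ : Rˣ) : R) * (b : R) = 1 := by
        rw [← Units.val_mul, ← Units.val_mul]; simp
      simpa using h⟩,
    ⟨!![((a⁻¹ : Rˣ) : R) ^ 2, 0, 0; 0, ((a * b⁻¹ : Rˣ) : R) ^ 2, 0; 0, 0, (b : R) ^ 2], by
      rw [Matrix.det_fin_three]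
      have h : (((a⁻¹ : Rˣ) : R) * ((a * b⁻¹ : Rˣ) : R) * (b : R)) ^ 2 = 1 := by
        rw [← Units.val_mul, ← Units.val_mul]; simp
      rw [mul_pow, mul_pow] at h
      simpa using h⟩), by
    refine ⟨fun i j h => ?_, fun i j h => ?_, fun i => ?_⟩
    · fin_cases i <;> fin_cases j <;> simp_all
    · fin_cases i <;> fin_cases j <;> simp_all
    · fin_cases i <;> simp⟩

lemma cp3E_ua (a b : Rˣ) : ZipGroup.ua (cp3E a b) = a := by
  apply Units.ext
  change ((a * b⁻¹ : Rˣ) : R) * (b : R) = a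
  rw [← Units.val_mul]; simp

lemma cp3E_ub (a b : Rˣ) : ZipGroup.ub (cp3E a b) = b := by
  apply Units.ext
  rfl

lemma cp3_exists_scale (T : Tup R) (a b : Rˣ) :
    ∃ T' : Tup R, ∀ z, co T' z = sc a b z * co T z :=
  ⟨T.act (cp3E a b), fun z => by rw [co_act, cp3E_ua, cp3E_ub]⟩

lemma cp3_unit {x y : R} (h : x * y = 1) : IsUnit y :=
  isUnit_iff_exists_inv.2 ⟨x, by rw [mul_comm]; exact h⟩

lemma cp3_sum0 {x : R} (a0 a1 a2 : R) (h : x * a0 = 1) :
    ∃ w : Fin 3 → R, w 0 * a0 + w 1 * a1 + w 2 * a2 = 1 :=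
  ⟨![x, 0, 0], by simpa using h⟩

lemma cp3_sum1 {x : R} (a0 a1 a2 : R) (h : x * a1 = 1) :
    ∃ w : Fin 3 → R, w 0 * a0 + w 1 * a1 + w 2 * a2 = 1 :=
  ⟨![0, x, 0], by simpa using h⟩

lemma cp3_sum2 {x : R} (a0 a1 a2 : R) (h : x * a2 = 1) :
    ∃ w : Fin 3 → R, w 0 * a0 + w 1 * a1 + w 2 * a2 = 1 :=
  ⟨![0, 0, x], by simpa using h⟩

lemma cp3_map_mul_pow {R' : Type} [CommRing R'] (f : R →+* R') {x y z : R} {n : ℕ}
    (h : x * y ^ n = z) : f x * f y ^ n = f z := by
  rw [← h, map_mul, map_pow]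

/-- a matrix with given first column and given third row of the inverse -/
lemma cp3_exists_mat (s t c w : Fin 3 → R) (hc : c 0 * s 0 + c 1 * s 1 + c 2 * s 2 = 1)
    (hw : w 0 * t 0 + w 1 * t 1 + w 2 * t 2 = 1) (hst : s 0 * t 0 + s 1 * t 1 + s 2 * t 2 = 0) :
    ∃ g : SL R, sv g = s ∧ tv g = t := by
  have hdet : (!![s 0, t 1 * c 2 - t 2 * c 1, w 0; s 1, t 2 * c 0 - t 0 * c 2, w 1;
      s 2, t 0 * c 1 - t 1 * c 0, w 2] : Matrix (Fin 3) (Fin 3) R).det = 1 := by
    rw [Matrix.det_fin_three]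
    simp only [Matrix.of_apply, Matrix.cons_val', Matrix.cons_val_zero, Matrix.cons_val_one,
      Matrix.cons_val]
    linear_combination hc * (w 0 * t 0 + w 1 * t 1 + w 2 * t 2) + hw
      - (c 0 * w 0 + c 1 * w 1 + c 2 * w 2) * hst
  refine ⟨⟨_, hdet⟩, ?_, ?_⟩
  · funext i
    fin_cases i <;> simp [sv]
  · funext i
    fin_cases i
    · change tv _ 0 = t 0
      rw [tv_zero]
      simp
      linear_combination t 0 * hc - c 0 * hst
    · change tv _ 1 = t 1
      rw [tv_one]
      simp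
      linear_combination t 1 * hc - c 1 * hst
    · change tv _ 2 = t 2
      rw [tv_two]
      simp
      linear_combination t 2 * hc - c 2 * hst

end Cp3a

section Away

variable (k : Type) [Field k]

/-- the chart element of `A`. -/
noncomputable def chf (c : Fin 9) : A k := amon k (chm c) (chn c) (ch_diag c)

lemma chf_mem (c : Fin 9) : chf k c ∈ Gr k (chn c) := amon_mem k _ _ _

/-- `k → A_(f)`. -/
noncomputable def kAway (f : A k) : k →+* Away (Gr k) f :=
  (algebraMap (Gr k 0) (Away (Gr k) f)).comp (algebraMap k (Gr k 0))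

/-- `A_(f)` is a `k`-algebra. -/
@[reducible] noncomputable def awayAlgebra (f : A k) : Algebra k (Away (Gr k) f) :=
  (kAway k f).toAlgebra

attribute [local instance] awayAlgebra

/-- the normalised coordinates, as elements of `A_(f)`. -/
noncomputable def zh (c : Fin 9) (z : Fin 8) : Away (Gr k) (chf k c) :=
  Away.mk (Gr k) (chf_mem k c) 8 (amon k (num c z) (8 * chn c) (num_diag c z))
    (amon_mem k _ _ _)

/-- the inverses of some of them -/
noncomputable def izh (c : Fin 9) (z : Fin 8) (h : chm c z ≠ 0) : Away (Gr k) (chf k c) :=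
  Away.mk (Gr k) (chf_mem k c) 8 (amon k (inum c z) (8 * chn c) (inum_diag c z h))
    (amon_mem k _ _ _)

variable {k} {R : Type} [CommRing R] [Algebra k R]

/-- the homomorphism `A_(f) → R` of a point `T` with `f(T)` a unit. -/
noncomputable abbrev th (T : Tup R) {f : A k} (hu : IsUnit (ev k T f)) : Away (Gr k) f →+* R :=
  theta (Gr k) (ev k T).toRingHom hu

lemma chf_ev (T : Tup R) (c : Fin 9) : ev k T (chf k c) = mon (co T) (chm c) := ev_amon k _ _ _ _

lemma th_kAway (T : Tup R) {f : A k} (hu : IsUnit (ev k T f)) :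
    (th T hu).comp (kAway k f) = algebraMap k R := by
  have hval : ∀ c : k, (kAway k f c).val =
      algebraMap (A k) (Localization (Submonoid.powers f)) (algebraMap k (A k) c) := by
    intro c
    change (HomogeneousLocalization.fromZeroRingHom (Gr k) (Submonoid.powers f)
      (algebraMap k (Gr k 0) c)).val = _
    rw [HomogeneousLocalization.fromZeroRingHom]
    change (HomogeneousLocalization.mk _).val = _
    rw [HomogeneousLocalization.val_mk, Localization.mk_eq_mk']
    exact IsLocalization.mk'_one (M := Submonoid.powers f) (Localization (Submonoid.powers f)) _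
  refine RingHom.ext fun c => ?_
  have h2 := congrArg (Localization.awayLift (ev k T).toRingHom f hu) (hval c)
  have h3 : Localization.awayLift (ev k T).toRingHom f hu
      (algebraMap (A k) (Localization.Away f) (algebraMap k (A k) c)) = ev k T (algebraMap k (A k) c) := by
    simp [Localization.awayLift]
  rw [h3, AlgHom.commutes] at h2
  exact h2

lemma cp2_sc_div (a b a' b' : Rˣ) (z : Fin 8) :
    sc (a' * a⁻¹) (b' * b⁻¹) z = sc a' b' z * (sc a b z)⁻¹ := by
  rw [sc, sc, sc, mul_zpow, mul_zpow, mul_inv, inv_zpow, inv_zpow]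
  exact mul_mul_mul_comm _ _ _ _

lemma th_zh (T : Tup R) (c : Fin 9) (hu : IsUnit (ev k T (chf k c)))
    (hu' : IsUnit (mon (co T) (chm c))) (z : Fin 8) :
    th T hu (zh k c z) = ((sc (ca T c hu') (cb T c hu') z)⁻¹ : Rˣ) * co T z := by
  have h := theta_mk (Gr k) (ev k T).toRingHom hu (chf_mem k c) 8
    (amon k (num c z) (8 * chn c) (num_diag c z)) (amon_mem k _ _ _)
  have h1 : (ev k T).toRingHom (chf k c) = mon (co T) (chm c) := chf_ev T c
  have h2 : (ev k T).toRingHom (amon k (num c z) (8 * chn c) (num_diag c z)) =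
      mon (co T) (num c z) := ev_amon k T _ _ _
  rw [h1, h2, mon_num T c hu' z] at h
  exact (hu'.pow 8).mul_right_cancel h

/-- **Lemma Q**. Two points with the same image in the chart differ by a torus element. -/
lemma exists_units (c : Fin 9) (T T' : Tup R) (hu : IsUnit (ev k T (chf k c)))
    (hu' : IsUnit (ev k T' (chf k c))) (h : th T hu = th T' hu') :
    ∃ a b : Rˣ, ∀ z, co T' z = sc a b z * co T z := by
  have h1 : IsUnit (mon (co T) (chm c)) := by rw [← chf_ev (k := k) T c]; exact hu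
  have h1' : IsUnit (mon (co T') (chm c)) := by rw [← chf_ev (k := k) T' c]; exact hu'
  refine ⟨ca T' c h1' * (ca T c h1)⁻¹, cb T' c h1' * (cb T c h1)⁻¹, fun z => ?_⟩
  have h2 : th T hu (zh k c z) = th T' hu' (zh k c z) := by rw [h]
  rw [th_zh T c hu h1 z, th_zh T' c hu' h1' z] at h2
  rw [cp2_sc_div, Units.val_mul, mul_assoc, h2, ← mul_assoc, ← Units.val_mul, mul_inv_cancel,
    Units.val_one, one_mul]

/-- the converse, for any homogeneous `f` -/
lemma th_eq_of_scale {f : A k} {n : ℕ} (hf : f ∈ Gr k n) (T T' : Tup R)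
    (hu : IsUnit (ev k T f)) (hu' : IsUnit (ev k T' f)) {a b : Rˣ}
    (h : ∀ z, co T' z = sc a b z * co T z) : th T hu = th T' hu' := by
  refine RingHom.ext fun x => ?_
  obtain ⟨m, p, hp, rfl⟩ := HomogeneousLocalization.Away.mk_surjective (Gr k) hf x
  have h1 := theta_mk (Gr k) (ev k T).toRingHom hu hf m p hp
  have h2 := theta_mk (Gr k) (ev k T').toRingHom hu' hf m p hp
  have e1 : (ev k T').toRingHom f = ((a * b : Rˣ) : R) ^ n * (ev k T).toRingHom f :=
    ev_scale k hf h
  have e2 : (ev k T').toRingHom p = ((a * b : Rˣ) : R) ^ (m • n) * (ev k T).toRingHom p :=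
    ev_scale k hp h
  rw [e1, e2, ← h1, mul_pow, ← pow_mul, smul_eq_mul, mul_comm n m] at h2
  have hU : IsUnit (((a * b : Rˣ) : R) ^ (m * n) * (ev k T).toRingHom f ^ m) :=
    ((a * b).isUnit.pow _).mul (hu.pow m)
  refine (hU.mul_right_cancel ?_).symm
  rw [h2]
  ring

variable (k)

/-- `A_(f) → B_f` is injective. -/
lemma th_univ_injective {f : A k} {n : ℕ} (hf : f ∈ Gr k n) :
    Function.Injective (theta (Gr k) (((algebraMap (B k) (Localization.Away (reval (V k) f)))).comp
      (reval (V k)).toRingHom) (f := f)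
      (IsLocalization.Away.algebraMap_isUnit (reval (V k) f))) := by
  rw [injective_iff_map_eq_zero]
  intro x hx
  obtain ⟨m, p, hp, rfl⟩ := HomogeneousLocalization.Away.mk_surjective (Gr k) hf x
  have h1 := theta_mk (Gr k) (((algebraMap (B k) (Localization.Away (reval (V k) f)))).comp
      (reval (V k)).toRingHom)
      (IsLocalization.Away.algebraMap_isUnit (reval (V k) f)) hf m p hp
  rw [hx, zero_mul] at h1
  have h2 : algebraMap (B k) (Localization.Away (reval (V k) f)) (reval (V k) p) = 0 := h1.symm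
  obtain ⟨⟨_, N, rfl⟩, hN⟩ := (IsLocalization.map_eq_zero_iff
    (Submonoid.powers (reval (V k) f)) (Localization.Away (reval (V k) f)) _).1 h2
  have h3 : reval (V k) (f ^ N * p) = 0 := by
    rw [map_mul, map_pow]; exact hN
  have h4 : f ^ N * p = 0 := by
    refine reval_injOn (V k) (N • n + m • n) ?_ h3
    exact SetLike.mul_mem_graded (SetLike.pow_mem_graded N hf) hp
  apply HomogeneousLocalization.val_injective
  rw [HomogeneousLocalization.Away.val_mk, HomogeneousLocalization.val_zero,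
    Localization.mk_eq_mk', IsLocalization.mk'_eq_zero_iff]
  exact ⟨⟨f ^ N, N, rfl⟩, h4⟩

/-- the localisation -/
abbrev Cp3L (c : Fin 9) : Type := Localization.Away (reval (V k) (chf k c))

/-- the universal point over the chart -/
noncomputable def cp3U (c : Fin 9) : Tup (Cp3L k c) :=
  (univTup k).map (algebraMap (B k) (Cp3L k c))

lemma cp3_homOfTup (c : Fin 9) :
    homOfTup k (cp3U k c) = Algebra.algHom k (B k) (Cp3L k c) := by
  rw [← homOfTup_map k (Algebra.algHom k (B k) (Cp3L k c))]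
  rfl

lemma cp3_ev (c : Fin 9) : (ev k (cp3U k c)).toRingHom =
    ((algebraMap (B k) (Cp3L k c))).comp (reval (V k)).toRingHom := by
  rw [ev, cp3_homOfTup]
  rfl

lemma cp3_isUnit (c : Fin 9) : IsUnit (ev k (cp3U k c) (chf k c)) := by
  have h : ev k (cp3U k c) (chf k c) = algebraMap (B k) (Cp3L k c) (reval (V k) (chf k c)) :=
    congrArg (fun f => f (chf k c)) (cp3_ev k c)
  rw [h]
  exact IsLocalization.Away.algebraMap_isUnit (reval (V k) (chf k c))

/-- the embedding of `A_(f)` into `B_f` -/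
noncomputable def cp3I (c : Fin 9) : Away (Gr k) (chf k c) →+* Cp3L k c :=
  th (cp3U k c) (cp3_isUnit k c)

lemma cp3I_injective (c : Fin 9) : Function.Injective (cp3I k c) := by
  have h := th_univ_injective k (chf_mem k c)
  have h2 : cp3I k c = theta (Gr k) (((algebraMap (B k) (Cp3L k c))).comp
      (reval (V k)).toRingHom) (f := chf k c)
      (IsLocalization.Away.algebraMap_isUnit (reval (V k) (chf k c))) := by
    unfold cp3I th
    congr 1
    exact cp3_ev k c
  rw [h2]
  exact h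

/-- `cp3I` as a `k`-algebra homomorphism -/
noncomputable def cp3J (c : Fin 9) : Away (Gr k) (chf k c) →ₐ[k] Cp3L k c where
  toRingHom := cp3I k c
  commutes' r := by
    have h := th_kAway (cp3U k c) (cp3_isUnit k c)
    exact congrArg (fun f => f r) h

lemma cp3_isUnit' (c : Fin 9) : IsUnit (mon (co (cp3U k c)) (chm c)) := by
  have h := cp3_isUnit k c
  rwa [chf_ev] at h

lemma cp3I_zh (c : Fin 9) (z : Fin 8) : cp3I k c (zh k c z) =
    sc (ca (cp3U k c) c (cp3_isUnit' k c))⁻¹ (cb (cp3U k c) c (cp3_isUnit' k c))⁻¹ z *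
      co (cp3U k c) z := by
  rw [cp3I, th_zh (cp3U k c) c (cp3_isUnit k c) (cp3_isUnit' k c) z]
  congr 2
  simp [sc, mul_comm]

lemma cp3_exists_T (c : Fin 9) : ∃ T : Tup (Cp3L k c), ∀ z, co T z = cp3I k c (zh k c z) := by
  obtain ⟨T, hT⟩ := cp3_exists_scale (cp3U k c) (ca (cp3U k c) c (cp3_isUnit' k c))⁻¹
    (cb (cp3U k c) c (cp3_isUnit' k c))⁻¹
  exact ⟨T, fun z => by rw [hT, cp3I_zh]⟩

lemma cp3_izh (c : Fin 9) (z : Fin 8) (h : chm c z ≠ 0) : izh k c z h * zh k c z = 1 := by
  apply cp3I_injective k c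
  have hu := cp3_isUnit k c
  have h1 := theta_mk (Gr k) (ev k (cp3U k c)).toRingHom hu (chf_mem k c) 8
    (amon k (num c z) (8 * chn c) (num_diag c z)) (amon_mem k _ _ _)
  have h2 := theta_mk (Gr k) (ev k (cp3U k c)).toRingHom hu (chf_mem k c) 8
    (amon k (inum c z) (8 * chn c) (inum_diag c z h)) (amon_mem k _ _ _)
  change cp3I k c (zh k c z) * ev k (cp3U k c) (chf k c) ^ 8 = ev k (cp3U k c) _ at h1
  change cp3I k c (izh k c z h) * ev k (cp3U k c) (chf k c) ^ 8 = ev k (cp3U k c) _ at h2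
  rw [ev_amon, chf_ev] at h1 h2
  have hn : inum c z + num c z = 16 • chm c := by
    funext w
    have e1 : ((inum c z w : ℕ) : ℤ) = invZ c z w := Int.toNat_of_nonneg (invZ_nonneg c z w h)
    have e2 : ((num c z w : ℕ) : ℤ) = numZ c z w := Int.toNat_of_nonneg (numZ_nonneg c z w)
    have e3 : ((inum c z w : ℕ) : ℤ) + ((num c z w : ℕ) : ℤ) = 16 * (chm c w : ℤ) := by
      rw [e1, e2, invZ, numZ]; ring
    change inum c z w + num c z w = 16 * chm c w
    exact_mod_cast e3
  have h3 : mon (co (cp3U k c)) (inum c z) * mon (co (cp3U k c)) (num c z) =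
      mon (co (cp3U k c)) (chm c) ^ 16 := by
    rw [← mon_add, hn, mon_smul]
  have hU := (cp3_isUnit' k c).pow 16
  rw [map_mul, map_one]
  apply hU.mul_right_cancel
  rw [one_mul]
  nth_rewrite 2 [← h3]
  rw [← h1, ← h2]
  ring

lemma cp3_isUnit_zh (c : Fin 9) (z : Fin 8) (h : chm c z ≠ 0) : IsUnit (zh k c z) :=
  cp3_unit (cp3_izh k c z h)

lemma cp3_exists_inv_s (c : Fin 9) : ∃ w : Fin 3 → Away (Gr k) (chf k c),
    w 0 * zh k c 0 + w 1 * zh k c 1 + w 2 * zh k c 2 = 1 := by
  have hc : chm c 0 ≠ 0 ∨ chm c 1 ≠ 0 ∨ chm c 2 ≠ 0 := by revert c; decide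
  rcases hc with h | h | h
  · exact cp3_sum0 (R := Away (Gr k) (chf k c)) _ _ _ (cp3_izh k c 0 h)
  · exact cp3_sum1 (R := Away (Gr k) (chf k c)) _ _ _ (cp3_izh k c 1 h)
  · exact cp3_sum2 (R := Away (Gr k) (chf k c)) _ _ _ (cp3_izh k c 2 h)

lemma cp3_exists_inv_t (c : Fin 9) : ∃ w : Fin 3 → Away (Gr k) (chf k c),
    w 0 * zh k c 3 + w 1 * zh k c 4 + w 2 * zh k c 5 = 1 := by
  have hc : chm c 3 ≠ 0 ∨ chm c 4 ≠ 0 ∨ chm c 5 ≠ 0 := by revert c; decide
  rcases hc with h | h | h
  · exact cp3_sum0 (R := Away (Gr k) (chf k c)) _ _ _ (cp3_izh k c 3 h)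
  · exact cp3_sum1 (R := Away (Gr k) (chf k c)) _ _ _ (cp3_izh k c 4 h)
  · exact cp3_sum2 (R := Away (Gr k) (chf k c)) _ _ _ (cp3_izh k c 5 h)

lemma cp3_map_f3 {R R' : Type} [CommRing R] [CommRing R'] (f : R →+* R') (s t : Fin 3 → R) :
    f (f3 s t) = f3 (fun i => f (s i)) (fun i => f (t i)) := by
  simp [f3]

lemma cp3_map_F7 {R R' : Type} [CommRing R] [CommRing R'] (f : R →+* R') (s t : Fin 3 → R)
    (u : R) : f (F7 s t u) = F7 (fun i => f (s i)) (fun i => f (t i)) (f u) := by
  simp [F7]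

/-- the section of `T ⟶ X` over a chart. -/
lemma exists_sigma (c : Fin 9) : ∃ T : Tup (Away (Gr k) (chf k c)), ∀ z, co T z = zh k c z := by
  obtain ⟨T, hT⟩ := cp3_exists_T k c
  obtain ⟨cc, hcc⟩ := cp3_exists_inv_s k c
  obtain ⟨w, hw⟩ := cp3_exists_inv_t k c
  have hs : (fun i => cp3I k c ((![zh k c 0, zh k c 1, zh k c 2] : Fin 3 → _) i)) = sv T.g := by
    funext i
    fin_cases i
    · exact (hT 0).symm
    · exact (hT 1).symm
    · exact (hT 2).symm
  have ht : (fun i => cp3I k c ((![zh k c 3, zh k c 4, zh k c 5] : Fin 3 → _) i)) = tv T.g := by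
    funext i
    fin_cases i
    · exact (hT 3).symm
    · exact (hT 4).symm
    · exact (hT 5).symm
  have hu : cp3I k c (zh k c 6) = T.u := (hT 6).symm
  have hv : cp3I k c (zh k c 7) = T.v := (hT 7).symm
  have hst : zh k c 0 * zh k c 3 + zh k c 1 * zh k c 4 + zh k c 2 * zh k c 5 = 0 := by
    apply cp3I_injective k c
    simp only [map_add, map_mul, map_zero, ← hT]
    exact sv_dot_tv T.g
  obtain ⟨g, hg1, hg2⟩ := cp3_exists_mat ![zh k c 0, zh k c 1, zh k c 2]
    ![zh k c 3, zh k c 4, zh k c 5] cc w (by simpa using hcc) (by simpa using hw)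
    (by simpa using hst)
  refine ⟨⟨g, 0, zh k c 6, zh k c 7, ?_, ?_⟩, ?_⟩
  · rw [hg1, hg2]
    apply cp3I_injective k c
    rw [cp3_map_f3, hs, ht, map_pow, hu]
    exact T.eq1
  · rw [hg1, hg2]
    apply cp3I_injective k c
    rw [cp3_map_F7, hs, ht, map_pow, hv, hu]
    exact T.eq2
  · intro z
    have h1 : ∀ i, sv g i = (![zh k c 0, zh k c 1, zh k c 2] : Fin 3 → _) i := fun i => by rw [hg1]
    have h2 : ∀ i, tv g i = (![zh k c 3, zh k c 4, zh k c 5] : Fin 3 → _) i := fun i => by rw [hg2]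
    fin_cases z
    · exact h1 0
    · exact h1 1
    · exact h1 2
    · exact h2 0
    · exact h2 1
    · exact h2 2
    · rfl
    · rfl

/-- the section of `T ⟶ X` over a chart. -/
noncomputable def sigma (c : Fin 9) : Tup (Away (Gr k) (chf k c)) := (exists_sigma k c).choose

lemma co_sigma (c : Fin 9) (z : Fin 8) : co (sigma k c) z = zh k c z :=
  (exists_sigma k c).choose_spec z

lemma isUnit_sigma (c : Fin 9) : IsUnit (ev k (sigma k c) (chf k c)) := by
  rw [chf_ev, mon]
  refine IsUnit.prod_univ_iff.2 fun z => ?_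
  by_cases h : chm c z = 0
  · rw [h, pow_zero]; exact isUnit_one
  · rw [co_sigma]; exact (cp3_isUnit_zh k c z h).pow _

/-- `sigma` is a section -/
lemma th_sigma (c : Fin 9) : th (sigma k c) (isUnit_sigma k c) = RingHom.id _ := by
  apply RingHom.ext
  intro x
  rw [RingHom.id_apply]
  apply cp3I_injective k c
  obtain ⟨n, a, ha, rfl⟩ := Away.mk_surjective (Gr k) (chf_mem k c) x
  set σ := sigma k c with hσ
  have h1 : th σ (isUnit_sigma k c) (Away.mk (Gr k) (chf_mem k c) n a ha) *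
      ev k σ (chf k c) ^ n = ev k σ a :=
    theta_mk (Gr k) (ev k σ).toRingHom (isUnit_sigma k c) (chf_mem k c) n a ha
  have h2 : cp3I k c (Away.mk (Gr k) (chf_mem k c) n a ha) *
      ev k (cp3U k c) (chf k c) ^ n = ev k (cp3U k c) a :=
    theta_mk (Gr k) (ev k (cp3U k c)).toRingHom (cp3_isUnit k c) (chf_mem k c) n a ha
  set p := (ca (cp3U k c) c (cp3_isUnit' k c))⁻¹ with hp
  set q := (cb (cp3U k c) c (cp3_isUnit' k c))⁻¹ with hq
  have hsc : ∀ z, co (σ.map (cp3J k c).toRingHom) z = sc p q z * co (cp3U k c) z := by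
    intro z
    rw [co_map, hσ, co_sigma]
    exact cp3I_zh k c z
  have e1 : cp3I k c (ev k σ (chf k c)) =
      ((p * q : (Cp3L k c)ˣ) : Cp3L k c) ^ chn c * ev k (cp3U k c) (chf k c) := by
    rw [← ev_scale k (chf_mem k c) hsc, ev_map]
    rfl
  have e2 : cp3I k c (ev k σ a) =
      ((p * q : (Cp3L k c)ˣ) : Cp3L k c) ^ (n • chn c) * ev k (cp3U k c) a := by
    rw [← ev_scale k ha hsc, ev_map]
    rfl
  have h3 := cp3_map_mul_pow (cp3I k c) h1
  rw [e1, e2, mul_pow, ← pow_mul, ← h2] at h3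
  have hU : IsUnit (((p * q : (Cp3L k c)ˣ) : Cp3L k c) ^ (chn c * n) *
      ev k (cp3U k c) (chf k c) ^ n) :=
    ((p * q).isUnit.pow _).mul ((cp3_isUnit k c).pow n)
  apply hU.mul_right_cancel
  rw [h3, smul_eq_mul, mul_comm n]
  ring

end Away

end Pool.Agent.Lib.MP_023d06_ag
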