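import Pool.Agent.Lib.MP_023d06_ag.Defs

/-!
# Row DO: `k[SL_3]` is a domain
-/

namespace Pool.Agent.Lib.MP_023d06_ag

/-- elementary matrices: `1 + c E_ij`. -/
def elt {R : Type} [CommRing R] (i j : Fin 3) (hij : i ≠ j) (c : R) : SL R :=
  ⟨1 + Matrix.single i j c, by
    rw [← Matrix.transvection, Matrix.det_transvection_of_ne _ _ hij]⟩

/-- the matrix `M` can be reduced to `1` by row operations with the pattern `l` -/
def DoPat {R : Type} [CommRing R] : List {ij : Fin 3 × Fin 3 // ij.1 ≠ ij.2} →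
    Matrix (Fin 3) (Fin 3) R → Prop
  | [], M => M = 1
  | a :: l, M => ∃ c : R, DoPat l ((1 + Matrix.single a.1.1 a.1.2 c) * M)

lemma DoPat_elt_mul {R : Type} [CommRing R] (i j : Fin 3) (hij : i ≠ j) (c : R) :
    elt i j hij (-c) * elt i j hij c = 1 := by
  apply Subtype.ext
  change (1 + Matrix.single i j (-c)) * (1 + Matrix.single i j c) =
    (1 : Matrix (Fin 3) (Fin 3) R)
  have h0 : Matrix.single i j (-c) * Matrix.single i j c = 0 := by
    rw [Matrix.single_mul_single_of_ne]
    exact fun h => hij h.symm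
  have h1 : Matrix.single i j (-c) = - Matrix.single i j c := by
    ext a b
    simp only [Matrix.single_apply, Matrix.neg_apply]
    split_ifs <;> simp
  rw [add_mul, one_mul, mul_add, mul_one, h0, h1]
  abel

lemma DoPat_prod {R : Type} [CommRing R] (l : List {ij : Fin 3 × Fin 3 // ij.1 ≠ ij.2}) :
    ∀ g : SL R, DoPat l (g : Matrix (Fin 3) (Fin 3) R) → ∃ c : Fin l.length → R,
      g = (List.ofFn fun n => elt (l.get n).1.1 (l.get n).1.2 (l.get n).2 (c n)).prod := by
  induction l with
  | nil =>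
    intro g hg
    refine ⟨fun _ => 0, ?_⟩
    apply Subtype.ext
    have hg' : (g : Matrix (Fin 3) (Fin 3) R) = 1 := hg
    simpa using hg'
  | cons a l ih =>
    intro g hg
    obtain ⟨c, hc⟩ := hg
    obtain ⟨c', hc'⟩ := ih (elt a.1.1 a.1.2 a.2 c * g) hc
    refine ⟨Fin.cons (-c) c', ?_⟩
    rw [List.ofFn_succ, List.prod_cons]
    change g = elt a.1.1 a.1.2 a.2 (-c) *
      (List.ofFn fun n => elt (l.get n).1.1 (l.get n).1.2 (l.get n).2 (c' n)).prod
    rw [← hc', ← mul_assoc, DoPat_elt_mul, one_mul]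

section Rows

variable {R : Type} [CommRing R] (t a x y b p q c r s : R)

lemma DoPat_row10 : (1 + Matrix.single 1 0 t) * !![a, x, y; b, p, q; c, r, s] =
    !![a, x, y; b + t * a, p + t * x, q + t * y; c, r, s] := by
  ext i j
  fin_cases i <;> fin_cases j <;> simp [Matrix.mul_apply, Fin.sum_univ_three, Matrix.single_apply,
    add_mul, add_comm]

lemma DoPat_row12 : (1 + Matrix.single 1 2 t) * !![a, x, y; b, p, q; c, r, s] =
    !![a, x, y; b + t * c, p + t * r, q + t * s; c, r, s] := by
  ext i j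
  fin_cases i <;> fin_cases j <;> simp [Matrix.mul_apply, Fin.sum_univ_three, Matrix.single_apply,
    add_mul, add_comm]

lemma DoPat_row01 : (1 + Matrix.single 0 1 t) * !![a, x, y; b, p, q; c, r, s] =
    !![a + t * b, x + t * p, y + t * q; b, p, q; c, r, s] := by
  ext i j
  fin_cases i <;> fin_cases j <;> simp [Matrix.mul_apply, Fin.sum_univ_three, Matrix.single_apply,
    add_mul, add_comm]

lemma DoPat_row02 : (1 + Matrix.single 0 2 t) * !![a, x, y; b, p, q; c, r, s] =
    !![a + t * c, x + t * r, y + t * s; b, p, q; c, r, s] := by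
  ext i j
  fin_cases i <;> fin_cases j <;> simp [Matrix.mul_apply, Fin.sum_univ_three, Matrix.single_apply,
    add_mul, add_comm]

lemma DoPat_row20 : (1 + Matrix.single 2 0 t) * !![a, x, y; b, p, q; c, r, s] =
    !![a, x, y; b, p, q; c + t * a, r + t * x, s + t * y] := by
  ext i j
  fin_cases i <;> fin_cases j <;> simp [Matrix.mul_apply, Fin.sum_univ_three, Matrix.single_apply,
    add_mul, add_comm]

lemma DoPat_row21 : (1 + Matrix.single 2 1 t) * !![a, x, y; b, p, q; c, r, s] =
    !![a, x, y; b, p, q; c + t * b, r + t * p, s + t * q] := by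
  ext i j
  fin_cases i <;> fin_cases j <;> simp [Matrix.mul_apply, Fin.sum_univ_three, Matrix.single_apply,
    add_mul, add_comm]

end Rows

/-- in a local ring a sum with one term a unit and the other not is a unit -/
lemma DoPat_unit_add {R : Type} [CommRing R] [IsLocalRing R] {u v : R} (hu : IsUnit u)
    (hv : ¬ IsUnit v) : IsUnit (v + u) := by
  by_contra h
  have h1 : v ∈ IsLocalRing.maximalIdeal R := hv
  have h2 : v + u ∈ IsLocalRing.maximalIdeal R := h
  have h3 : u ∈ IsLocalRing.maximalIdeal R := by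
    have := Ideal.sub_mem _ h2 h1
    simpa using this
  exact h3 hu

lemma DoPat_A {R : Type} [CommRing R] (x y q : R) :
    DoPat [⟨(1, 2), by decide⟩, ⟨(0, 2), by decide⟩, ⟨(0, 1), by decide⟩]
      !![1, x, y; 0, 1, q; 0, 0, 1] := by
  refine ⟨-q, -y, -x, ?_⟩
  rw [DoPat_row12, DoPat_row02, DoPat_row01]
  change _ = (1 : Matrix (Fin 3) (Fin 3) R)
  ext i j
  fin_cases i <;> fin_cases j <;> simp

lemma DoPat_B {R : Type} [CommRing R] [IsLocalRing R] (x y p q r s : R)
    (h : p * s - q * r = 1) :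
    DoPat [⟨(2, 1), by decide⟩, ⟨(1, 2), by decide⟩, ⟨(2, 1), by decide⟩,
      ⟨(1, 2), by decide⟩, ⟨(0, 2), by decide⟩, ⟨(0, 1), by decide⟩]
      !![1, x, y; 0, p, q; 0, r, s] := by
  obtain ⟨δ, hu⟩ : ∃ δ : R, IsUnit (r + δ * p) := by
    by_cases hr : IsUnit r
    · exact ⟨0, by simpa using hr⟩
    by_cases hp : IsUnit p
    · exact ⟨1, by simpa using DoPat_unit_add hp hr⟩
    exfalso
    have hr' : r ∈ IsLocalRing.maximalIdeal R := hr
    have hp' : p ∈ IsLocalRing.maximalIdeal R := hp
    have h1 : (1 : R) ∈ IsLocalRing.maximalIdeal R := by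
      rw [← h]
      exact Ideal.sub_mem _ (Ideal.mul_mem_right _ _ hp') (Ideal.mul_mem_left _ _ hr')
    exact h1 isUnit_one
  obtain ⟨w, hw⟩ := hu.exists_right_inv
  refine ⟨δ, (1 - p) * w, -(r + δ * p), ?_⟩
  rw [DoPat_row21, DoPat_row12, DoPat_row21]
  have e1 : p + (1 - p) * w * (r + δ * p) = 1 := by
    linear_combination (1 - p) * hw
  have e2 : (0 : R) + (1 - p) * w * (0 + δ * 0) = 0 := by ring
  have e3 : (0 : R) + δ * 0 + -(r + δ * p) * (0 + (1 - p) * w * (0 + δ * 0)) = 0 := by ring
  have e4 : s + δ * q + -(r + δ * p) * (q + (1 - p) * w * (s + δ * q)) = 1 := by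
    linear_combination h - (s + δ * q) * (1 - p) * hw
  rw [e4, e3, e2, e1]
  have e5 : r + δ * p + -(r + δ * p) * 1 = 0 := by ring
  rw [e5]
  exact DoPat_A _ _ _

lemma DoPat_C {R : Type} [CommRing R] [IsLocalRing R] (x y b p q c r s : R)
    (h : p * s - q * r - x * b * s + x * q * c + y * b * r - y * p * c = 1) :
    DoPat [⟨(1, 0), by decide⟩, ⟨(2, 0), by decide⟩, ⟨(2, 1), by decide⟩,
      ⟨(1, 2), by decide⟩, ⟨(2, 1), by decide⟩,
      ⟨(1, 2), by decide⟩, ⟨(0, 2), by decide⟩, ⟨(0, 1), by decide⟩]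
      !![1, x, y; b, p, q; c, r, s] := by
  refine ⟨-b, -c, ?_⟩
  rw [DoPat_row10, DoPat_row20]
  have e1 : b + -b * 1 = 0 := by ring
  have e2 : c + -c * 1 = 0 := by ring
  rw [e1, e2]
  apply DoPat_B
  linear_combination h

lemma DoPat_D {R : Type} [CommRing R] [IsLocalRing R] (a x y b p q c r s : R) (hb : IsUnit b)
    (h : a * p * s - a * q * r - x * b * s + x * q * c + y * b * r - y * p * c = 1) :
    DoPat [⟨(0, 1), by decide⟩, ⟨(1, 0), by decide⟩, ⟨(2, 0), by decide⟩, ⟨(2, 1), by decide⟩,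
      ⟨(1, 2), by decide⟩, ⟨(2, 1), by decide⟩,
      ⟨(1, 2), by decide⟩, ⟨(0, 2), by decide⟩, ⟨(0, 1), by decide⟩]
      !![a, x, y; b, p, q; c, r, s] := by
  obtain ⟨w, hw⟩ := hb.exists_right_inv
  refine ⟨(1 - a) * w, ?_⟩
  rw [DoPat_row01]
  have e1 : a + (1 - a) * w * b = 1 := by linear_combination (1 - a) * hw
  rw [e1]
  apply DoPat_C
  linear_combination h - (1 - a) * (p * s - q * r) * hw

/-- There is a fixed finite pattern `l` of elementary root subgroups such that over every local
ring `R` every element of `SL_3(R)` is a product of elementary matrices with this pattern. -/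
lemma elt_pattern : ∃ l : List {ij : Fin 3 × Fin 3 // ij.1 ≠ ij.2},
    ∀ (R : Type) [CommRing R] [IsLocalRing R] (g : SL R), ∃ c : Fin l.length → R,
      g = (List.ofFn fun n => elt (l.get n).1.1 (l.get n).1.2 (l.get n).2 (c n)).prod := by
  refine ⟨[⟨(1, 0), by decide⟩, ⟨(1, 2), by decide⟩, ⟨(0, 1), by decide⟩, ⟨(1, 0), by decide⟩,
    ⟨(2, 0), by decide⟩, ⟨(2, 1), by decide⟩, ⟨(1, 2), by decide⟩, ⟨(2, 1), by decide⟩,
    ⟨(1, 2), by decide⟩, ⟨(0, 2), by decide⟩, ⟨(0, 1), by decide⟩], ?_⟩
  intro R _ _ g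
  apply DoPat_prod
  obtain ⟨M, hM⟩ := g
  change DoPat _ M
  obtain ⟨a, x, y, b, p, q, c, r, s, rfl⟩ : ∃ a x y b p q c r s : R,
      M = !![a, x, y; b, p, q; c, r, s] := by
    refine ⟨M 0 0, M 0 1, M 0 2, M 1 0, M 1 1, M 1 2, M 2 0, M 2 1, M 2 2, ?_⟩
    exact (Matrix.eta_fin_three M)
  rw [Matrix.det_fin_three] at hM
  simp only [Matrix.of_apply, Matrix.cons_val', Matrix.cons_val_zero, Matrix.cons_val_one,
    Matrix.cons_val] at hM
  -- step 1
  obtain ⟨α, β, hu⟩ : ∃ α β : R, IsUnit (b + α * a + β * c) := by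
    by_cases hb : IsUnit b
    · exact ⟨0, 0, by simpa using hb⟩
    by_cases ha : IsUnit a
    · exact ⟨1, 0, by simpa using DoPat_unit_add ha hb⟩
    by_cases hc : IsUnit c
    · exact ⟨0, 1, by simpa using DoPat_unit_add hc hb⟩
    exfalso
    have ha' : a ∈ IsLocalRing.maximalIdeal R := ha
    have hb' : b ∈ IsLocalRing.maximalIdeal R := hb
    have hc' : c ∈ IsLocalRing.maximalIdeal R := hc
    have h1 : (1 : R) ∈ IsLocalRing.maximalIdeal R := by
      rw [← hM]
      have e : a * p * s - a * q * r - x * b * s + x * q * c + y * b * r - y * p * c =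
        (p * s - q * r) * a + (y * r - x * s) * b + (x * q - y * p) * c := by ring
      rw [e]
      exact Ideal.add_mem _ (Ideal.add_mem _ (Ideal.mul_mem_left _ _ ha')
        (Ideal.mul_mem_left _ _ hb')) (Ideal.mul_mem_left _ _ hc')
    exact h1 isUnit_one
  refine ⟨α, β, ?_⟩
  rw [DoPat_row10, DoPat_row12]
  apply DoPat_D _ _ _ _ _ _ _ _ _ hu
  linear_combination hM

/-- the product of elementary matrices is compatible with ring homomorphisms -/
lemma DoPat_map {R S : Type} [CommRing R] [CommRing S] (f : R →+* S)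
    (l : List {ij : Fin 3 × Fin 3 // ij.1 ≠ ij.2}) (c : Fin l.length → R) :
    Matrix.SpecialLinearGroup.map f
      (List.ofFn fun n => elt (l.get n).1.1 (l.get n).1.2 (l.get n).2 (c n)).prod =
      (List.ofFn fun n => elt (l.get n).1.1 (l.get n).1.2 (l.get n).2 (f (c n))).prod := by
  rw [map_list_prod, List.map_ofFn]
  congr 2
  funext n
  apply Subtype.ext
  ext i j
  simp only [Function.comp_apply, elt, Matrix.SpecialLinearGroup.map_apply_coe,
    RingHom.mapMatrix_apply, Matrix.map_apply, Matrix.add_apply, Matrix.single_apply,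
    Matrix.one_apply, map_add]
  split_ifs <;> simp

variable (k : Type) [Field k]

/-- the product of the universal elementary matrices of the pattern `l` -/
noncomputable def DoUniv (l : List {ij : Fin 3 × Fin 3 // ij.1 ≠ ij.2}) :
    SL (MvPolynomial (Fin l.length) k) :=
  (List.ofFn fun n => elt (l.get n).1.1 (l.get n).1.2 (l.get n).2
      (MvPolynomial.X (R := k) n)).prod

lemma DoPat_ker (l : List {ij : Fin 3 × Fin 3 // ij.1 ≠ ij.2}) {R : Type} [CommRing R]
    [Algebra k R] (c : Fin l.length → R) (F : CoordSL k) (hF : homOfMat k (DoUniv k l) F = 0) :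
    homOfMat k (List.ofFn fun n =>
      elt (l.get n).1.1 (l.get n).1.2 (l.get n).2 (c n)).prod F = 0 := by
  have h1 : Matrix.SpecialLinearGroup.map (MvPolynomial.aeval (R := k) c).toRingHom (DoUniv k l) =
      (List.ofFn fun n => elt (l.get n).1.1 (l.get n).1.2 (l.get n).2 (c n)).prod := by
    rw [DoUniv, DoPat_map]
    congr 2
    funext n
    congr 1
    exact MvPolynomial.aeval_X c n
  rw [← h1, ← homOfMat_comp, AlgHom.comp_apply, hF, map_zero]

lemma DoPat_loc (l : List {ij : Fin 3 × Fin 3 // ij.1 ≠ ij.2}) {R : Type} [CommRing R]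
    [Algebra k R] (hl : ∀ g : SL R, ∃ c : Fin l.length → R,
      g = (List.ofFn fun n => elt (l.get n).1.1 (l.get n).1.2 (l.get n).2 (c n)).prod)
    (f : CoordSL k →ₐ[k] R) (F : CoordSL k) (hF : homOfMat k (DoUniv k l) F = 0) :
    f F = 0 := by
  rw [← homOfMat_of_map f]
  obtain ⟨c, hc⟩ := hl (Matrix.SpecialLinearGroup.map f.toRingHom (univMat k))
  rw [hc]
  exact DoPat_ker k l c F hF

/-- `k[SL_3]` is a domain: for the pattern `l` of length `N` the homomorphism
`k[SL_3] → k[c_1, ..., c_N]` given by the product of the universal elementary matrices is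
injective: if `F` is in the kernel, then `F(g) = 0` for every product `g` of elementary matrices
with pattern `l` over every `k`-algebra, in particular for the image of the universal matrix in
`SL_3` of the local ring at any prime of `k[SL_3]`; so `F` is `0` in all local rings. -/
instance CoordSL.isDomain : IsDomain (CoordSL k) := by
  obtain ⟨l, hl⟩ := elt_pattern
  have hinj : Function.Injective (homOfMat k (DoUniv k l)) := by
    rw [injective_iff_map_eq_zero]
    intro F hF
    apply eq_zero_of_localization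
    intro J hJ
    exact DoPat_loc k l (hl (Localization.AtPrime J))
      (IsScalarTower.toAlgHom k (CoordSL k) (Localization.AtPrime J)) F hF
  exact Function.Injective.isDomain (homOfMat k (DoUniv k l)) hinj

end Pool.Agent.Lib.MP_023d06_ag
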