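import Pool.Agent.Lib.MP_023d06_ag.RingB
import Pool.Agent.Lib.MP_023d06_ag.Domain

/-!
# Row CO: `W → SL_3` maps every non-empty clopen subset onto `SL_3`
-/

namespace Pool.Agent.Lib.MP_023d06_ag

open Polynomial

section CO

variable {R : Type} [CommRing R]

lemma CO_maps (f : R[X]) (hf : f.Monic) :
    IsOpenMap (PrimeSpectrum.comap (AdjoinRoot.of f)) ∧
      IsClosedMap (PrimeSpectrum.comap (AdjoinRoot.of f)) := by
  have h1 : Module.Free R (AdjoinRoot f) := hf.free_adjoinRoot
  have h2 : Module.Finite R (AdjoinRoot f) := hf.finite_adjoinRoot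
  have h3 : Module.FinitePresentation R (AdjoinRoot f) :=
    Module.finitePresentation_of_projective R (AdjoinRoot f)
  have e : algebraMap R (AdjoinRoot f) = AdjoinRoot.of f := AdjoinRoot.algebraMap_eq f
  constructor
  · have := PrimeSpectrum.isOpenMap_comap_of_hasGoingDown_of_finitePresentation
      (R := R) (S := AdjoinRoot f)
    rwa [e] at this
  · apply PrimeSpectrum.isClosedMap_comap_of_isIntegral
    rw [← e]
    exact algebraMap_isIntegral_iff.mpr inferInstance

lemma CO_inj (f : R[X]) (hf : f.Monic) (hd : 0 < f.natDegree) :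
    Function.Injective (AdjoinRoot.of f) := by
  rw [injective_iff_map_eq_zero]
  intro a ha
  by_contra hne
  have h1 : AdjoinRoot.mk f (C a) = 0 := by
    rw [AdjoinRoot.mk_C]
    exact ha
  rw [AdjoinRoot.mk_eq_zero] at h1
  refine hf.not_dvd_of_natDegree_lt (C_ne_zero.mpr hne) ?_ h1
  rw [natDegree_C]
  exact hd

end CO

variable (k : Type) [Field k]

/-- the structure homomorphism `k[SL_3] → W`. -/
noncomputable def toW : CoordSL k →+* W k := (AdjoinRoot.of _).comp (AdjoinRoot.of _)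

/-- `W` is a finite free `k[SL_3]`-module (rank 21), so `Spec W → Spec k[SL_3]` is open
(flat of finite presentation) and closed (integral), and `Spec k[SL_3]` is irreducible. -/
lemma clopen_surj (Z : Set (PrimeSpectrum (W k))) (hZ : IsClopen Z) (hne : Z.Nonempty) :
    PrimeSpectrum.comap (toW k) '' Z = Set.univ := by
  obtain ⟨o1, c1⟩ := CO_maps (X ^ 7 - C (F7 (sv (matW1 k)) (tv (matW1 k)) (uW1 k)) : (W1 k)[X])
    (monic_X_pow_sub_C _ (by norm_num))
  obtain ⟨o2, c2⟩ := CO_maps (X ^ 3 - C (f3 (sv (univMat k)) (tv (univMat k))) : (CoordSL k)[X])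
    (monic_X_pow_sub_C _ (by norm_num))
  have e : (PrimeSpectrum.comap (toW k) '' Z) =
      PrimeSpectrum.comap (AdjoinRoot.of (X ^ 3 - C (f3 (sv (univMat k)) (tv (univMat k))) :
        (CoordSL k)[X])) '' (PrimeSpectrum.comap (AdjoinRoot.of (X ^ 7 -
          C (F7 (sv (matW1 k)) (tv (matW1 k)) (uW1 k)) : (W1 k)[X])) '' Z) := by
    rw [← Set.image_comp]
    rfl
  rw [e]
  refine IsClopen.eq_univ ⟨c2 _ (c1 _ hZ.1), o2 _ (o1 _ hZ.2)⟩ ?_
  exact (hne.image _).image _

/-- `k[SL_3] → W` is injective. -/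
lemma toW_injective : Function.Injective (toW k) := by
  have n1 : Nontrivial (W1 k) := by
    have h := CO_inj (X ^ 3 - C (f3 (sv (univMat k)) (tv (univMat k))) : (CoordSL k)[X])
      (monic_X_pow_sub_C _ (by norm_num)) (by rw [natDegree_X_pow_sub_C]; norm_num)
    exact h.nontrivial
  have h1 := CO_inj (X ^ 3 - C (f3 (sv (univMat k)) (tv (univMat k))) : (CoordSL k)[X])
    (monic_X_pow_sub_C _ (by norm_num)) (by rw [natDegree_X_pow_sub_C]; norm_num)
  have h2 := CO_inj (X ^ 7 - C (F7 (sv (matW1 k)) (tv (matW1 k)) (uW1 k)) : (W1 k)[X])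
    (monic_X_pow_sub_C _ (by norm_num)) (by rw [natDegree_X_pow_sub_C]; norm_num)
  exact h2.comp h1

end Pool.Agent.Lib.MP_023d06_ag
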