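import Pool.Agent.Lib.MP_023d06_ag.Domain

/-!
# Row CS: the weight `ε₂ - 2 ε₁` is not in the zip cone
-/

open CategoryTheory AlgebraicGeometry

namespace Pool.Agent.Lib.MP_023d06_ag

variable (k : Type) [Field k]

section CS

variable {k}

lemma cs_homOfMat_one {R : Type} [CommRing R] [Algebra k R] (F : CoordSL k) :
    homOfMat k (1 : SL R) F = algebraMap k R (homOfMat k (1 : SL k) F) := by
  have h := homOfMat_comp (Algebra.ofId k R) (1 : SL k)
  rw [map_one] at h
  rw [← h]
  rfl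

/-- the first matrix of the pair of part (1), over a field -/
noncomputable def csX {K : Type} [Field K] (a b c m : K) (ha : a ≠ 0) (hm : m ≠ 0) (l : K) : SL K :=
  ⟨!![1 / a, 0, 0; b / a ^ 2, a / m, 0; c / a ^ 2, l, m], by
    rw [Matrix.det_fin_three]
    simp
    field_simp⟩

/-- LU decomposition: if the leading minors of `g` do not vanish then `g = x y⁻¹`. -/
lemma cs_LU {K : Type} [Field K] [Algebra k K] (g : SL K) (ha : g 0 0 ≠ 0)
    (hm : g 0 0 * g 1 1 - g 0 1 * g 1 0 ≠ 0) :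
    ∃ e : ZipGroup 2 K, e.1.1 * 1 * e.1.2⁻¹ = g ∧
      e.1.1 1 1 = g 0 0 / (g 0 0 * g 1 1 - g 0 1 * g 1 0) ∧
      e.1.1 2 2 = g 0 0 * g 1 1 - g 0 1 * g 1 0 := by
  have hdet := g.2
  rw [Matrix.det_fin_three] at hdet
  set x : SL K := csX (g 0 0) (g 1 0) (g 2 0) (g 0 0 * g 1 1 - g 0 1 * g 1 0) ha hm
    (g 0 0 * (g 0 0 * g 2 1 - g 2 0 * g 0 1) / (g 0 0 * g 1 1 - g 0 1 * g 1 0) ^ 2) with hx
  have x00 : x 0 0 = 1 / g 0 0 := rfl
  have x01 : x 0 1 = 0 := rfl
  have x02 : x 0 2 = 0 := rfl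
  have x10 : x 1 0 = g 1 0 / g 0 0 ^ 2 := rfl
  have x11 : x 1 1 = g 0 0 / (g 0 0 * g 1 1 - g 0 1 * g 1 0) := rfl
  have x12 : x 1 2 = 0 := rfl
  have x20 : x 2 0 = g 2 0 / g 0 0 ^ 2 := rfl
  have x21 : x 2 1 = g 0 0 * (g 0 0 * g 2 1 - g 2 0 * g 0 1) / (g 0 0 * g 1 1 - g 0 1 * g 1 0) ^ 2 := rfl
  have x22 : x 2 2 = g 0 0 * g 1 1 - g 0 1 * g 1 0 := rfl
  refine ⟨⟨(x, g⁻¹ * x), ?_, ?_, ?_⟩, ?_, x11, x22⟩
  · intro i j h
    fin_cases i <;> fin_cases j <;> simp_all
  · intro i j h
    fin_cases i <;> fin_cases j <;> simp at h <;>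
      simp [Matrix.SpecialLinearGroup.coe_inv, Matrix.adjugate_fin_three, Matrix.mul_apply,
        Fin.sum_univ_three, x00, x01, x02, x10, x11, x12, x20, x21, x22] <;>
      field_simp <;> ring
  · intro i
    fin_cases i <;>
      simp [Matrix.SpecialLinearGroup.coe_inv, Matrix.adjugate_fin_three, Matrix.mul_apply,
        Fin.sum_univ_three, x00, x01, x02, x10, x11, x12, x20, x21, x22] <;>
      field_simp
    · linear_combination hdet
    · linear_combination (g 0 0) * hdet
  · simp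

end CS

/-- A regular function `F` on `SL_3` with `F(x g y⁻¹) = (x₂₂ x₁₁⁻²) ^ d F(g)`, `d > 0`,
vanishes.  (`x₁₁⁻¹ = x₂₂ x₃₃`.)
Proof. (1) Over `k[ε, ε⁻¹]` the matrix `g_ε = 1 ⊕ [[ε, 1], [-1, 0]]` is `x y⁻¹` with
`x = 1 ⊕ [[ε⁻¹, 0], [*, ε]]`, so `ε ^ d F(g_ε) = F(1)` in `k[ε, ε⁻¹]`, both sides are in `k[ε]`,
hence `F(1) = 0`.  (2) Over the fraction field of `k[SL_3]` the universal matrix is `x y⁻¹` with
`(x, y) ∈ E` (LU decomposition; `p = 2` so that `t = s s^(-2) = s⁻¹` is solvable), so `F = 0`. -/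
lemma no_section (F : CoordSL k) (d : ℕ) (hd : 0 < d)
    (hF : ∀ (R : Type) [CommRing R] [Algebra k R] (e : ZipGroup 2 R) (g : SL R),
      homOfMat k (e.1.1 * g * e.1.2⁻¹) F =
        (e.1.1 1 1 * (e.1.1 1 1 * e.1.1 2 2) ^ 2) ^ d * homOfMat k g F) : F = 0 := by
  -- part (1)
  have h1 : homOfMat k (1 : SL k) F = 0 := by
    let gp : SL (Polynomial k) := ⟨!![1, 0, 0; 0, Polynomial.X, 1; 0, -1, 0], by
      rw [Matrix.det_fin_three]; simp⟩
    let φ : Polynomial k →ₐ[k] FractionRing (Polynomial k) :=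
      IsScalarTower.toAlgHom k (Polynomial k) (FractionRing (Polynomial k))
    have hφ : Function.Injective φ := IsFractionRing.injective (Polynomial k) (FractionRing (Polynomial k))
    let g := Matrix.SpecialLinearGroup.map φ.toRingHom gp
    have g00 : g 0 0 = 1 := by simp [g, gp]
    have g01 : g 0 1 = 0 := by simp [g, gp]
    have g10 : g 1 0 = 0 := by simp [g, gp]
    have g11 : g 1 1 = φ Polynomial.X := by simp [g, gp]
    have hX : φ Polynomial.X ≠ 0 := by
      rw [Ne, map_eq_zero_iff φ hφ]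
      exact Polynomial.X_ne_zero
    obtain ⟨e, he, he1, he2⟩ := cs_LU (k := k) g (by rw [g00]; exact one_ne_zero)
      (by rw [g00, g01, g10, g11]; simpa using hX)
    have h2 := hF _ e 1
    rw [he, he1, he2, cs_homOfMat_one, g00, g01, g10, g11] at h2
    have h3 : homOfMat k g F = φ (homOfMat k gp F) := by
      have := homOfMat_comp φ gp
      rw [← AlgHom.comp_apply, this]
    rw [h3] at h2
    have h4 : φ (Polynomial.X ^ d * homOfMat k gp F) =
        φ (Polynomial.C (homOfMat k (1 : SL k) F)) := by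
      rw [map_mul, map_pow, h2]
      have h5 : φ (Polynomial.C (homOfMat k (1 : SL k) F)) =
          algebraMap k (FractionRing (Polynomial k)) (homOfMat k (1 : SL k) F) :=
        φ.commutes _
      rw [h5]
      simp only [one_mul, mul_zero, sub_zero]
      rw [one_div, inv_mul_cancel₀ hX, one_pow, mul_one, ← mul_assoc, ← mul_pow, mul_inv_cancel₀ hX,
        one_pow, one_mul]
    have h6 := congrArg (Polynomial.eval 0) (hφ h4)
    simpa [hd.ne'] using h6.symm
  -- part (2)
  let ψ : CoordSL k →ₐ[k] FractionRing (CoordSL k) :=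
    IsScalarTower.toAlgHom k (CoordSL k) (FractionRing (CoordSL k))
  have hψ : Function.Injective ψ := IsFractionRing.injective (CoordSL k) (FractionRing (CoordSL k))
  let g := Matrix.SpecialLinearGroup.map ψ.toRingHom (univMat k)
  have hev : ∀ i j, homOfMat k (1 : SL k) (univMat k i j) = (1 : SL k) i j := fun i j =>
    homOfMat_mk (1 : SL k) i j
  have ha : g 0 0 ≠ 0 := by
    change ψ (univMat k 0 0) ≠ 0
    rw [Ne, map_eq_zero_iff ψ hψ]
    intro h
    have := hev 0 0
    rw [h, map_zero] at this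
    simp at this
  have hm : g 0 0 * g 1 1 - g 0 1 * g 1 0 ≠ 0 := by
    change ψ (univMat k 0 0) * ψ (univMat k 1 1) - ψ (univMat k 0 1) * ψ (univMat k 1 0) ≠ 0
    rw [← map_mul, ← map_mul, ← map_sub, Ne, map_eq_zero_iff ψ hψ]
    intro h
    have := congrArg (homOfMat k (1 : SL k)) h
    rw [map_sub, map_mul, map_mul, hev, hev, hev, hev, map_zero] at this
    simp at this
  obtain ⟨e, he, -, -⟩ := cs_LU (k := k) g ha hm
  have h2 := hF _ e 1
  rw [he, cs_homOfMat_one, h1, map_zero, mul_zero] at h2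
  have h3 : homOfMat k g F = ψ F := by
    have := homOfMat_of_map ψ
    exact congrArg (fun f => f F) this
  rw [h3] at h2
  exact (map_eq_zero_iff ψ hψ).1 h2

/-- the weight `λ = ε₂ - 2 ε₁` -/
def wt0 : Fin 3 → ℤ := ![-2, 1, 0]

lemma wt0_not_mem : wt0 ∉ (SLE k 2).cone := by
  rintro ⟨d, hd, f, hf, hsec⟩
  apply hf
  set F : CoordSL k := (Scheme.ΓSpecIso (CommRingCat.of (CoordSL k))).hom.hom f with hFdef
  have hF0 : F = 0 := by
    refine no_section k F d hd fun R _ _ e g => ?_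
    have hx := e.1.1.2
    obtain ⟨h1, -, -⟩ := e.2
    rw [Matrix.det_fin_three] at hx
    have e01 := h1 0 1 (by decide)
    have e02 := h1 0 2 (by decide)
    have e12 := h1 1 2 (by decide)
    rw [e01, e02, e12] at hx
    have hprod : e.1.1 0 0 * e.1.1 1 1 * e.1.1 2 2 = 1 := by linear_combination hx
    let a : Fin 3 → Rˣ := ![⟨e.1.1 0 0, e.1.1 1 1 * e.1.1 2 2, by linear_combination hprod,
        by linear_combination hprod⟩,
      ⟨e.1.1 1 1, e.1.1 0 0 * e.1.1 2 2, by linear_combination hprod,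
        by linear_combination hprod⟩,
      ⟨e.1.1 2 2, e.1.1 0 0 * e.1.1 1 1, by linear_combination hprod,
        by linear_combination hprod⟩]
    have ha : ∀ i, (a i : R) = e.1.1 i i := by
      intro i
      fin_cases i <;> rfl
    have h := hsec R e (Sp.map k (homOfMat k g)) a ha
    have h2 : val ((SLE k 2).act R e (Sp.map k (homOfMat k g))) f =
        homOfMat k (e.1.1 * g * e.1.2⁻¹) F := by
      change val (Sp.map k (homOfMat k (e.1.1 * mat (Sp.map k (homOfMat k g)) * e.1.2⁻¹))) f = _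
      rw [mat_map_homOfMat, val_eq, toAlg_map]
    have h3 : val (T := (SLE k 2).T) (Sp.map k (homOfMat k g)) f = homOfMat k g F := by
      change val (Sp.map k (homOfMat k g)) f = _
      rw [val_eq, toAlg_map]
    rw [h2, h3] at h
    rw [h]
    congr 1
    have hinv : (a 0)⁻¹ = a 1 * a 2 := by
      rw [inv_eq_iff_mul_eq_one]
      ext
      simp only [Units.val_mul, Units.val_one, ha]
      linear_combination hprod
    have hu : (∏ i, a i ^ ((d : ℤ) * wt0 i)) = (a 1 * (a 1 * a 2) ^ 2) ^ d := by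
      rw [Fin.prod_univ_three, ← hinv]
      simp only [wt0, Matrix.cons_val_zero, Matrix.cons_val_one, Matrix.cons_val_two,
        Matrix.head_cons, Matrix.tail_cons, mul_zero, zpow_zero, mul_one]
      rw [show (d : ℤ) * -2 = -(2 * d : ℕ) by push_cast; ring, zpow_neg, zpow_natCast, zpow_natCast,
        mul_pow, ← pow_mul, inv_pow, mul_comm]
    rw [hu]
    simp only [Units.val_pow_eq_pow_val, Units.val_mul, ha]
  have hinj : Function.Injective (Scheme.ΓSpecIso (CommRingCat.of (CoordSL k))).hom.hom := by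
    intro u v huv
    have h1 := (Scheme.ΓSpecIso (CommRingCat.of (CoordSL k))).hom_inv_id
    have h2 := congrArg (fun G => G.hom u) h1
    have h3 := congrArg (fun G => G.hom v) h1
    simp only [CommRingCat.hom_comp, RingHom.comp_apply, CommRingCat.hom_id, RingHom.id_apply] at h2 h3
    rw [← h2, ← h3, huv]
  exact hinj (a₁ := f) (a₂ := 0) ((hFdef.symm.trans hF0).trans
    (map_zero (Scheme.ΓSpecIso (CommRingCat.of (CoordSL k))).hom.hom).symm)

end Pool.Agent.Lib.MP_023d06_ag
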