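import Pool.Agent.Lib.MP_023d06_ag.Chart

/-!
# The nine charts cover
-/

open CategoryTheory AlgebraicGeometry

namespace Pool.Agent.Lib.MP_023d06_ag

/-- the boolean form of: not exactly one of three -/
def ne3 (a b c : Bool) : Bool :=
  !((a && !b && !c) || (!a && b && !c) || (!a && !b && c))

/-- not exactly one of four -/
def ne4 (a b c d : Bool) : Bool :=
  !((a && !b && !c && !d) || (!a && b && !c && !d) || (!a && !b && c && !d) ||
    (!a && !b && !c && d))

/-- not exactly one of seven -/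
def ne7 (a b c d e f g : Bool) : Bool :=
  !((a && !b && !c && !d && !e && !f && !g) || (!a && b && !c && !d && !e && !f && !g) ||
    (!a && !b && c && !d && !e && !f && !g) || (!a && !b && !c && d && !e && !f && !g) ||
    (!a && !b && !c && !d && e && !f && !g) || (!a && !b && !c && !d && !e && f && !g) ||
    (!a && !b && !c && !d && !e && !f && g))

/-- the combinatorial heart: the possible sets of non-vanishing coordinates contain a chart. -/
lemma cover_bool : ∀ s1 s2 s3 t1 t2 t3 u v : Bool,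
    ne3 (s1 && t1) (s2 && t2) (s3 && t3) = true →
    ne4 u (s3 && t1) (s2 && t3) (s1 && t2) = true →
    ne7 v (s2 && t1) (s3 && t2) (u && s3 && t1) (s2 && t1 && t3) (s3 && s1 && t2)
      (u && s1 && t3) = true →
    (s1 || s2 || s3) = true → (t1 || t2 || t3) = true →
    ((s1 && t3) || (s3 && t2 && u) || (s2 && t1 && v) || (s2 && t1 && t3) || (s3 && t1 && u) ||
      (s1 && s3 && t2) || (s1 && t2 && u) || (s3 && t2 && v) || (s2 && t3 && u)) = true := by
  decide

lemma chm_supp : (∀ z, chm 0 z ≠ 0 → z = 0 ∨ z = 5) ∧ (∀ z, chm 1 z ≠ 0 → z = 2 ∨ z = 4 ∨ z = 6) ∧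
    (∀ z, chm 2 z ≠ 0 → z = 1 ∨ z = 3 ∨ z = 7) ∧ (∀ z, chm 3 z ≠ 0 → z = 1 ∨ z = 3 ∨ z = 5) ∧
    (∀ z, chm 4 z ≠ 0 → z = 2 ∨ z = 3 ∨ z = 6) ∧ (∀ z, chm 5 z ≠ 0 → z = 0 ∨ z = 2 ∨ z = 4) ∧
    (∀ z, chm 6 z ≠ 0 → z = 0 ∨ z = 4 ∨ z = 6) ∧ (∀ z, chm 7 z ≠ 0 → z = 2 ∨ z = 4 ∨ z = 7) ∧
    (∀ z, chm 8 z ≠ 0 → z = 1 ∨ z = 5 ∨ z = 6) := by
  refine ⟨?_, ?_, ?_, ?_, ?_, ?_, ?_, ?_, ?_⟩ <;> decide

/-- a family of nine conditions on eight Booleans -/
lemma chm_pick (Q : Fin 8 → Prop)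
    (h : (Q 0 ∧ Q 5) ∨ (Q 2 ∧ Q 4 ∧ Q 6) ∨ (Q 1 ∧ Q 3 ∧ Q 7) ∨ (Q 1 ∧ Q 3 ∧ Q 5) ∨
      (Q 2 ∧ Q 3 ∧ Q 6) ∨ (Q 0 ∧ Q 2 ∧ Q 4) ∨ (Q 0 ∧ Q 4 ∧ Q 6) ∨ (Q 2 ∧ Q 4 ∧ Q 7) ∨
      (Q 1 ∧ Q 5 ∧ Q 6)) : ∃ c, ∀ z, chm c z ≠ 0 → Q z := by
  obtain ⟨s0, s1, s2, s3, s4, s5, s6, s7, s8⟩ := chm_supp
  have three : ∀ (c : Fin 9) (i j l : Fin 8), (∀ z, chm c z ≠ 0 → z = i ∨ z = j ∨ z = l) →
      Q i ∧ Q j ∧ Q l → ∃ c, ∀ z, chm c z ≠ 0 → Q z := by
    rintro c i j l hs ⟨hi, hj, hl⟩
    refine ⟨c, fun z hz => ?_⟩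
    rcases hs z hz with h | h | h <;> rw [h] <;> assumption
  rcases h with h | h | h | h | h | h | h | h | h
  · refine ⟨0, fun z hz => ?_⟩
    rcases s0 z hz with h' | h'
    · rw [h']; exact h.1
    · rw [h']; exact h.2
  · exact three 1 _ _ _ s1 h
  · exact three 2 _ _ _ s2 h
  · exact three 3 _ _ _ s3 h
  · exact three 4 _ _ _ s4 h
  · exact three 5 _ _ _ s5 h
  · exact three 6 _ _ _ s6 h
  · exact three 7 _ _ _ s7 h
  · exact three 8 _ _ _ s8 h

/-- Boolean form of the conclusion of `cover_bool` -/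
lemma chm_pick_bool (b : Fin 8 → Bool)
    (h : ((b 0 && b 5) || (b 2 && b 4 && b 6) || (b 1 && b 3 && b 7) || (b 1 && b 3 && b 5) ||
      (b 2 && b 3 && b 6) || (b 0 && b 2 && b 4) || (b 0 && b 4 && b 6) || (b 2 && b 4 && b 7) ||
      (b 1 && b 5 && b 6)) = true) : ∃ c, ∀ z, chm c z ≠ 0 → b z = true := by
  apply chm_pick
  simp only [Bool.or_eq_true, Bool.and_eq_true] at h
  simp only [or_assoc, and_assoc] at h
  exact h

section Dom

variable {K : Type} [CommRing K] [IsDomain K]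

open Classical in
/-- the boolean `x ≠ 0` -/
noncomputable def nz (x : K) : Bool := decide (x ≠ 0)

lemma nz_mul (x y : K) : nz (x * y) = (nz x && nz y) := by
  by_cases hx : x = 0 <;> by_cases hy : y = 0 <;> simp [nz, hx, hy]

lemma nz_pow (x : K) (n : ℕ) (hn : n ≠ 0) : nz (x ^ n) = nz x := by
  simp [nz, hn]

lemma nz_iff (x : K) : nz x = true ↔ x ≠ 0 := by simp [nz]

lemma nz_eq_false (x : K) : nz x = false ↔ x = 0 := by simp [nz]

lemma ne3_false : ∀ a b c : Bool, ¬ ne3 a b c = true →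
    (a = true ∧ b = false ∧ c = false) ∨
    (a = false ∧ b = true ∧ c = false) ∨
    (a = false ∧ b = false ∧ c = true) := by
  decide

lemma ne3_of {x y z : K} (h : x + y + z = 0) : ne3 (nz x) (nz y) (nz z) = true := by
  by_contra hcon
  rcases ne3_false _ _ _ hcon with ⟨h1, h2, h3⟩ | ⟨h1, h2, h3⟩ | ⟨h1, h2, h3⟩
  · rw [nz_eq_false] at h2 h3
    refine (nz_iff _).1 h1 ?_
    simpa only [h2, h3, add_zero, zero_add, eq_comm] using h
  · rw [nz_eq_false] at h1 h3
    refine (nz_iff _).1 h2 ?_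
    simpa only [h1, h3, add_zero, zero_add, eq_comm] using h
  · rw [nz_eq_false] at h1 h2
    refine (nz_iff _).1 h3 ?_
    simpa only [h1, h2, add_zero, zero_add, eq_comm] using h

lemma ne4_false : ∀ a b c d : Bool, ¬ ne4 a b c d = true →
    (a = true ∧ b = false ∧ c = false ∧ d = false) ∨
    (a = false ∧ b = true ∧ c = false ∧ d = false) ∨
    (a = false ∧ b = false ∧ c = true ∧ d = false) ∨
    (a = false ∧ b = false ∧ c = false ∧ d = true) := by
  decide

lemma ne4_of {u x y z : K} (h : u = x + y + z) : ne4 (nz u) (nz x) (nz y) (nz z) = true := by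
  by_contra hcon
  rcases ne4_false _ _ _ _ hcon with ⟨h1, h2, h3, h4⟩ | ⟨h1, h2, h3, h4⟩ | ⟨h1, h2, h3, h4⟩ | ⟨h1, h2, h3, h4⟩
  · rw [nz_eq_false] at h2 h3 h4
    refine (nz_iff _).1 h1 ?_
    simpa only [h2, h3, h4, add_zero, zero_add, eq_comm] using h
  · rw [nz_eq_false] at h1 h3 h4
    refine (nz_iff _).1 h2 ?_
    simpa only [h1, h3, h4, add_zero, zero_add, eq_comm] using h
  · rw [nz_eq_false] at h1 h2 h4
    refine (nz_iff _).1 h3 ?_
    simpa only [h1, h2, h4, add_zero, zero_add, eq_comm] using h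
  · rw [nz_eq_false] at h1 h2 h3
    refine (nz_iff _).1 h4 ?_
    simpa only [h1, h2, h3, add_zero, zero_add, eq_comm] using h

lemma ne7_false : ∀ a b c d e f g : Bool, ¬ ne7 a b c d e f g = true →
    (a = true ∧ b = false ∧ c = false ∧ d = false ∧ e = false ∧ f = false ∧ g = false) ∨
    (a = false ∧ b = true ∧ c = false ∧ d = false ∧ e = false ∧ f = false ∧ g = false) ∨
    (a = false ∧ b = false ∧ c = true ∧ d = false ∧ e = false ∧ f = false ∧ g = false) ∨
    (a = false ∧ b = false ∧ c = false ∧ d = true ∧ e = false ∧ f = false ∧ g = false) ∨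
    (a = false ∧ b = false ∧ c = false ∧ d = false ∧ e = true ∧ f = false ∧ g = false) ∨
    (a = false ∧ b = false ∧ c = false ∧ d = false ∧ e = false ∧ f = true ∧ g = false) ∨
    (a = false ∧ b = false ∧ c = false ∧ d = false ∧ e = false ∧ f = false ∧ g = true) := by
  intro a b c d e f g h
  rw [ne7, Bool.not_eq_true, Bool.not_eq_false'] at h
  simp only [Bool.or_eq_true, Bool.and_eq_true, Bool.not_eq_true', or_assoc, and_assoc] at h
  exact h

lemma ne7_of {v a b c d e f : K} (h : v = a + b + c + d + e + f) :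
    ne7 (nz v) (nz a) (nz b) (nz c) (nz d) (nz e) (nz f) = true := by
  by_contra hcon
  rcases ne7_false _ _ _ _ _ _ _ hcon with ⟨h1, h2, h3, h4, h5, h6, h7⟩ | ⟨h1, h2, h3, h4, h5, h6, h7⟩ | ⟨h1, h2, h3, h4, h5, h6, h7⟩ | ⟨h1, h2, h3, h4, h5, h6, h7⟩ | ⟨h1, h2, h3, h4, h5, h6, h7⟩ | ⟨h1, h2, h3, h4, h5, h6, h7⟩ | ⟨h1, h2, h3, h4, h5, h6, h7⟩
  · rw [nz_eq_false] at h2 h3 h4 h5 h6 h7
    refine (nz_iff _).1 h1 ?_
    simpa only [h2, h3, h4, h5, h6, h7, add_zero, zero_add, eq_comm] using h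
  · rw [nz_eq_false] at h1 h3 h4 h5 h6 h7
    refine (nz_iff _).1 h2 ?_
    simpa only [h1, h3, h4, h5, h6, h7, add_zero, zero_add, eq_comm] using h
  · rw [nz_eq_false] at h1 h2 h4 h5 h6 h7
    refine (nz_iff _).1 h3 ?_
    simpa only [h1, h2, h4, h5, h6, h7, add_zero, zero_add, eq_comm] using h
  · rw [nz_eq_false] at h1 h2 h3 h5 h6 h7
    refine (nz_iff _).1 h4 ?_
    simpa only [h1, h2, h3, h5, h6, h7, add_zero, zero_add, eq_comm] using h
  · rw [nz_eq_false] at h1 h2 h3 h4 h6 h7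
    refine (nz_iff _).1 h5 ?_
    simpa only [h1, h2, h3, h4, h6, h7, add_zero, zero_add, eq_comm] using h
  · rw [nz_eq_false] at h1 h2 h3 h4 h5 h7
    refine (nz_iff _).1 h6 ?_
    simpa only [h1, h2, h3, h4, h5, h7, add_zero, zero_add, eq_comm] using h
  · rw [nz_eq_false] at h1 h2 h3 h4 h5 h6
    refine (nz_iff _).1 h7 ?_
    simpa only [h1, h2, h3, h4, h5, h6, add_zero, zero_add, eq_comm] using h

end Dom

section Field

variable {K : Type} [Field K]

lemma sv_tv_ne_zero (g : SL K) : (∃ i, sv g i ≠ 0) ∧ (∃ i, tv g i ≠ 0) := by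
  constructor
  · by_contra hcon
    push Not at hcon
    have h : (g⁻¹ * g) 0 0 = 1 := by rw [inv_mul_cancel]; rfl
    rw [SL_mul_apply, Fin.sum_univ_three] at h
    have h0 : g 0 0 = 0 := hcon 0
    have h1 : g 1 0 = 0 := hcon 1
    have h2 : g 2 0 = 0 := hcon 2
    rw [h0, h1, h2] at h
    simp at h
  · by_contra hcon
    push Not at hcon
    have h : (g⁻¹ * g) 2 2 = 1 := by rw [inv_mul_cancel]; rfl
    rw [SL_mul_apply, Fin.sum_univ_three] at h
    have h0 : g⁻¹ 2 0 = 0 := hcon 0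
    have h1 : g⁻¹ 2 1 = 0 := hcon 1
    have h2 : g⁻¹ 2 2 = 0 := hcon 2
    rw [h0, h1, h2] at h
    simp at h

lemma mon_ne_zero {c : Fin 8 → K} {e : Fin 8 → ℕ} (h : ∀ z, e z ≠ 0 → c z ≠ 0) :
    mon c e ≠ 0 := by
  rw [mon, Finset.prod_ne_zero_iff]
  intro z _
  by_cases hz : e z = 0
  · simp [hz]
  · exact pow_ne_zero _ (h z hz)

/-- For a point over a field one of the nine chart monomials does not vanish. -/
lemma cover_field (T : Tup K) : ∃ c, mon (co T) (chm c) ≠ 0 := by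
  have hst := sv_dot_tv T.g
  have h3 := T.eq1
  have h7 := T.eq2
  simp only [f3, F7] at h3 h7
  have n3 := ne3_of hst
  have n4 := ne4_of h3
  have n7 := ne7_of h7
  rw [nz_mul, nz_mul, nz_mul] at n3
  simp only [nz_mul, nz_pow _ 3 (Nat.succ_ne_zero 2), nz_pow _ 4 (Nat.succ_ne_zero 3),
    nz_pow _ 2 (Nat.succ_ne_zero 1), nz_pow _ 7 (Nat.succ_ne_zero 6),
    nz_pow _ 6 (Nat.succ_ne_zero 5)] at n4 n7
  obtain ⟨⟨i, hi⟩, ⟨j, hj⟩⟩ := sv_tv_ne_zero T.g
  have hs : (nz (sv T.g 0) || nz (sv T.g 1) || nz (sv T.g 2)) = true := by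
    rw [← nz_iff] at hi
    fin_cases i <;> simp_all
  have ht : (nz (tv T.g 0) || nz (tv T.g 1) || nz (tv T.g 2)) = true := by
    rw [← nz_iff] at hj
    fin_cases j <;> simp_all
  have key := cover_bool (nz (sv T.g 0)) (nz (sv T.g 1)) (nz (sv T.g 2)) (nz (tv T.g 0))
    (nz (tv T.g 1)) (nz (tv T.g 2)) (nz T.u) (nz T.v) n3 (by
      revert n4
      generalize nz (sv T.g 0) = x0
      generalize nz (sv T.g 1) = x1
      generalize nz (sv T.g 2) = x2
      generalize nz (tv T.g 0) = y0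
      generalize nz (tv T.g 1) = y1
      generalize nz (tv T.g 2) = y2
      generalize nz T.u = w
      revert x0 x1 x2 y0 y1 y2 w
      decide) (by
      revert n7
      generalize nz (sv T.g 0) = x0
      generalize nz (sv T.g 1) = x1
      generalize nz (sv T.g 2) = x2
      generalize nz (tv T.g 0) = y0
      generalize nz (tv T.g 1) = y1
      generalize nz (tv T.g 2) = y2
      generalize nz T.u = w
      generalize nz T.v = w'
      revert x0 x1 x2 y0 y1 y2 w w'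
      decide) hs ht
  obtain ⟨c, hc⟩ := chm_pick_bool (fun z => nz (co T z)) key
  exact ⟨c, mon_ne_zero fun z hz => (nz_iff _).1 (hc z hz)⟩

/-- The chart monomials generate the unit ideal. -/
lemma cover_ring {R : Type} [CommRing R] (T : Tup R) :
    Ideal.span (Set.range fun c => mon (co T) (chm c)) = ⊤ := by
  by_contra hcon
  obtain ⟨M, hM, hle⟩ := Ideal.exists_le_maximal _ hcon
  let _ := Ideal.Quotient.field M
  obtain ⟨c, hc⟩ := cover_field (T.map (Ideal.Quotient.mk M))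
  apply hc
  have h1 : mon (co (T.map (Ideal.Quotient.mk M))) (chm c) =
      Ideal.Quotient.mk M (mon (co T) (chm c)) := by
    rw [mon_map]
    congr 1
    funext z
    exact co_map _ _ _
  rw [h1, Ideal.Quotient.eq_zero_iff_mem]
  exact hle (Ideal.subset_span ⟨c, rfl⟩)

end Field

section ProjCover

variable (k : Type) [Field k]

lemma amon_add (e e' : Fin 8 → ℕ) (n n' : ℕ) (h : IsDiag e n) (h' : IsDiag e' n') :
    amon k (e + e') (n + n') (h.add h') = amon k e n h * amon k e' n' h' := by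
  apply Subtype.ext
  change Polynomial.monomial (n + n') (mon (co (univTup k)) (e + e')) =
    Polynomial.monomial n (mon (co (univTup k)) e) * Polynomial.monomial n' (mon (co (univTup k)) e')
  rw [Polynomial.monomial_mul_monomial, mon_add]

lemma amon_congr {e e' : Fin 8 → ℕ} {n n' : ℕ} (h : IsDiag e n) (h' : IsDiag e' n')
    (he : e = e') (hn : n = n') : amon k e n h = amon k e' n' h' := by
  subst he hn; rfl

/-- the sum of the two weights is positive -/
lemma wt_pos (z : Fin 8) : 0 < wta z + wtb z := by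
  fin_cases z <;> decide

/-- difference of diagonal exponent vectors -/
lemma IsDiag.exists_sub {e E : Fin 8 → ℕ} {n N : ℕ} (h : IsDiag e n) (hE : IsDiag E N)
    (hle : ∀ z, e z ≤ E z) : ∃ e' n', IsDiag e' n' ∧ e + e' = E ∧ n + n' = N := by
  have h1 : e + (fun z => E z - e z) = E := by
    funext z
    simp [Nat.add_sub_cancel' (hle z)]
  have hc : ∀ z, (((E z - e z : ℕ)) : ℤ) = (E z : ℤ) - e z := fun z => by
    rw [Nat.cast_sub (hle z)]
  have ha : ∑ z, (((E z - e z : ℕ)) : ℤ) * wta z = N - n := by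
    simp only [hc, sub_mul, Finset.sum_sub_distrib, h.1, hE.1]
  have hb : ∑ z, (((E z - e z : ℕ)) : ℤ) * wtb z = N - n := by
    simp only [hc, sub_mul, Finset.sum_sub_distrib, h.2, hE.2]
  have hpos : 0 ≤ ∑ z, (((E z - e z : ℕ)) : ℤ) * wta z + ∑ z, (((E z - e z : ℕ)) : ℤ) * wtb z := by
    rw [← Finset.sum_add_distrib]
    refine Finset.sum_nonneg fun z _ => ?_
    rw [← mul_add]
    exact mul_nonneg (Nat.cast_nonneg _) (wt_pos z).le
  rw [ha, hb] at hpos
  have hle' : n ≤ N := by omega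
  refine ⟨fun z => E z - e z, N - n, ⟨?_, ?_⟩, h1, Nat.add_sub_cancel' hle'⟩
  · rw [ha, Nat.cast_sub hle']
  · rw [hb, Nat.cast_sub hle']

variable {k}

/-- `z` does not vanish at the prime `P` -/
def NZ (P : Ideal (A k)) (z : Fin 8) : Prop :=
  ∃ e n, ∃ h : IsDiag e n, e z ≠ 0 ∧ amon k e n h ∉ P

lemma not_mem_of_NZ (P : Ideal (A k)) [P.IsPrime] (e : Fin 8 → ℕ) (n : ℕ) (h : IsDiag e n)
    (hz : ∀ z, e z ≠ 0 → NZ P z) : amon k e n h ∉ P := by
  classical
  -- an exponent vector `E ≥ e` with `amon E ∉ P`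
  have key : ∀ s : Finset (Fin 8), ∃ E N, ∃ hE : IsDiag E N, (∀ z ∈ s, e z ≤ E z) ∧
      amon k E N hE ∉ P := by
    intro s
    induction s using Finset.induction_on with
    | empty =>
      refine ⟨0, 0, IsDiag.zero, by simp, ?_⟩
      have h1 : amon k 0 0 IsDiag.zero = 1 := by
        apply Subtype.ext
        change Polynomial.monomial 0 (mon (co (univTup k)) 0) = 1
        rw [mon_zero]; rfl
      rw [h1]
      exact (Ideal.ne_top_iff_one P).1 Ideal.IsPrime.ne_top'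
    | insert z s hzs ih =>
      obtain ⟨E, N, hE, hle, hnot⟩ := ih
      by_cases hez : e z = 0
      · refine ⟨E, N, hE, ?_, hnot⟩
        intro w hw
        rcases Finset.mem_insert.1 hw with rfl | hw
        · rw [hez]; exact Nat.zero_le _
        · exact hle w hw
      · obtain ⟨g, m, hg, hgz, hgn⟩ := hz z hez
        have hpow : ∀ j : ℕ, ∃ G M, ∃ hG : IsDiag G M, j ≤ G z ∧ amon k G M hG ∉ P := by
          intro j
          induction j with
          | zero => exact ⟨g, m, hg, Nat.zero_le _, hgn⟩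
          | succ j ihj =>
            obtain ⟨G, M, hG, hjG, hGn⟩ := ihj
            refine ⟨G + g, M + m, hG.add hg, ?_, ?_⟩
            · have : 1 ≤ g z := Nat.one_le_iff_ne_zero.2 hgz
              simp only [Pi.add_apply]; omega
            · rw [amon_add k _ _ _ _ hG hg]
              exact fun hmem => (Ideal.IsPrime.mem_or_mem inferInstance hmem).elim hGn hgn
        obtain ⟨G, M, hG, hjG, hGn⟩ := hpow (e z)
        refine ⟨E + G, N + M, hE.add hG, ?_, ?_⟩
        · intro w hw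
          rcases Finset.mem_insert.1 hw with rfl | hw
          · simp only [Pi.add_apply]; omega
          · have := hle w hw
            simp only [Pi.add_apply]; omega
        · rw [amon_add k _ _ _ _ hE hG]
          exact fun hmem => (Ideal.IsPrime.mem_or_mem inferInstance hmem).elim hnot hGn
  obtain ⟨E, N, hE, hle, hnot⟩ := key Finset.univ
  obtain ⟨e', n', he', h1, h2⟩ := h.exists_sub hE (fun z => hle z (Finset.mem_univ z))
  intro hmem
  apply hnot
  rw [amon_congr k hE (h.add he') h1.symm h2.symm, amon_add k _ _ _ _ h he']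
  exact Ideal.mul_mem_right _ _ hmem

variable (k)

lemma rel1 : amon k ![1, 0, 0, 1, 0, 0, 0, 0] 2 (by decide) +
    amon k ![0, 1, 0, 0, 1, 0, 0, 0] 2 (by decide) +
    amon k ![0, 0, 1, 0, 0, 1, 0, 0] 2 (by decide) = 0 := by
  apply Subtype.ext
  change Polynomial.monomial 2 (mon (co (univTup k)) _) +
    Polynomial.monomial 2 (mon (co (univTup k)) _) +
    Polynomial.monomial 2 (mon (co (univTup k)) _) = 0
  rw [← LinearMap.map_add, ← LinearMap.map_add]
  have h := sv_dot_tv (univTup k).g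
  have h2 : mon (co (univTup k)) ![1, 0, 0, 1, 0, 0, 0, 0] +
    mon (co (univTup k)) ![0, 1, 0, 0, 1, 0, 0, 0] +
    mon (co (univTup k)) ![0, 0, 1, 0, 0, 1, 0, 0] = 0 := by
    rw [← h]
    simp [mon, Fin.prod_univ_eight, co]
  rw [h2, map_zero]

lemma rel2 : amon k ![0, 0, 0, 0, 0, 0, 3, 0] 3 (by decide) =
    amon k ![0, 0, 1, 1, 0, 0, 0, 0] 3 (by decide) +
    amon k ![0, 1, 0, 0, 0, 4, 0, 0] 3 (by decide) +
    amon k ![4, 0, 0, 0, 1, 0, 0, 0] 3 (by decide) := by
  apply Subtype.ext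
  change Polynomial.monomial 3 (mon (co (univTup k)) _) =
    Polynomial.monomial 3 (mon (co (univTup k)) _) +
    Polynomial.monomial 3 (mon (co (univTup k)) _) +
    Polynomial.monomial 3 (mon (co (univTup k)) _)
  rw [← LinearMap.map_add, ← LinearMap.map_add]
  congr 1
  have h := (univTup k).eq1
  simp only [f3] at h
  simp [mon, Fin.prod_univ_eight, co, h]

lemma rel3 : amon k ![0, 0, 0, 0, 0, 0, 0, 7] 7 (by decide) =
    amon k ![0, 1, 0, 4, 0, 0, 0, 0] 7 (by decide) +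
    amon k ![0, 0, 4, 0, 1, 0, 0, 0] 7 (by decide) +
    amon k ![0, 0, 2, 2, 0, 0, 1, 0] 7 (by decide) +
    amon k ![0, 2, 0, 1, 0, 7, 0, 0] 7 (by decide) +
    amon k ![7, 0, 1, 0, 2, 0, 0, 0] 7 (by decide) +
    amon k ![6, 0, 0, 0, 0, 6, 1, 0] 7 (by decide) := by
  apply Subtype.ext
  change Polynomial.monomial 7 (mon (co (univTup k)) _) =
    Polynomial.monomial 7 (mon (co (univTup k)) _) +
    Polynomial.monomial 7 (mon (co (univTup k)) _) +
    Polynomial.monomial 7 (mon (co (univTup k)) _) +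
    Polynomial.monomial 7 (mon (co (univTup k)) _) +
    Polynomial.monomial 7 (mon (co (univTup k)) _) +
    Polynomial.monomial 7 (mon (co (univTup k)) _)
  rw [← LinearMap.map_add, ← LinearMap.map_add, ← LinearMap.map_add, ← LinearMap.map_add, ← LinearMap.map_add]
  congr 1
  have h := (univTup k).eq2
  simp only [F7] at h
  simp [mon, Fin.prod_univ_eight, co, h]
  ring

variable {k}

open Classical in
/-- boolean version of `NZ` -/
noncomputable def nzP (P : Ideal (A k)) (z : Fin 8) : Bool := decide (NZ P z)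

lemma nzP_iff (P : Ideal (A k)) (z : Fin 8) : nzP P z = true ↔ NZ P z := by simp [nzP]

lemma not_mem_iff (P : Ideal (A k)) [P.IsPrime] (e : Fin 8 → ℕ) (n : ℕ) (h : IsDiag e n) :
    amon k e n h ∉ P ↔ ∀ z, e z ≠ 0 → nzP P z = true :=
  ⟨fun hn z hz => (nzP_iff P z).2 ⟨e, n, h, hz, hn⟩,
    fun hz => not_mem_of_NZ P e n h fun z hz' => (nzP_iff P z).1 (hz z hz')⟩

lemma nzq (P : Ideal (A k)) [P.IsPrime] (e : Fin 8 → ℕ) (n : ℕ) (h : IsDiag e n) :
    nz (Ideal.Quotient.mk P (amon k e n h)) = true ↔ ∀ z, e z ≠ 0 → nzP P z = true := by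
  rw [nz_iff, Ne, Ideal.Quotient.eq_zero_iff_mem, ← not_mem_iff P e n h]

lemma nzq1 (P : Ideal (A k)) [P.IsPrime] (e : Fin 8 → ℕ) (n : ℕ) (h : IsDiag e n) (i : Fin 8)
    (hs : ∀ z, e z ≠ 0 ↔ z = i) :
    nz (Ideal.Quotient.mk P (amon k e n h)) = nzP P i := by
  rw [Bool.eq_iff_iff, nzq]
  constructor
  · intro H
    exact H i ((hs i).2 rfl)
  · intro h1 z hz
    rw [(hs z).1 hz]; exact h1

lemma nzq2 (P : Ideal (A k)) [P.IsPrime] (e : Fin 8 → ℕ) (n : ℕ) (h : IsDiag e n) (i j : Fin 8)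
    (hs : ∀ z, e z ≠ 0 ↔ (z = i ∨ z = j)) :
    nz (Ideal.Quotient.mk P (amon k e n h)) = (nzP P i && nzP P j) := by
  rw [Bool.eq_iff_iff, nzq, Bool.and_eq_true]
  constructor
  · intro H
    exact ⟨H i ((hs i).2 (Or.inl rfl)), H j ((hs j).2 (Or.inr rfl))⟩
  · rintro ⟨h1, h2⟩ z hz
    rcases (hs z).1 hz with h' | h'
    · rw [h']; exact h1
    · rw [h']; exact h2

lemma nzq3 (P : Ideal (A k)) [P.IsPrime] (e : Fin 8 → ℕ) (n : ℕ) (h : IsDiag e n)
    (i j l : Fin 8) (hs : ∀ z, e z ≠ 0 ↔ (z = i ∨ z = j ∨ z = l)) :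
    nz (Ideal.Quotient.mk P (amon k e n h)) = (nzP P i && nzP P j && nzP P l) := by
  rw [Bool.eq_iff_iff, nzq, Bool.and_eq_true, Bool.and_eq_true]
  constructor
  · intro H
    exact ⟨⟨H i ((hs i).2 (Or.inl rfl)), H j ((hs j).2 (Or.inr (Or.inl rfl)))⟩,
      H l ((hs l).2 (Or.inr (Or.inr rfl)))⟩
  · rintro ⟨⟨h1, h2⟩, h3⟩ z hz
    rcases (hs z).1 hz with h' | h' | h'
    · rw [h']; exact h1
    · rw [h']; exact h2
    · rw [h']; exact h3

lemma cover_bool2 : ∀ s1 s2 s3 t1 t2 t3 u v : Bool,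
    ne4 u (s3 && t1) (s2 && t3) (s1 && t2) = true →
    ne7 v (s2 && t1) (s3 && t2) (u && s3 && t1) (s2 && t1 && t3) (s3 && s1 && t2)
      (u && s1 && t3) = true → (u || v) = true →
    ((s1 || s2 || s3) && (t1 || t2 || t3)) = true := by
  decide

lemma rmk_mem_of (P : Ideal (A k)) (n : ℕ) (hP : ∀ e, ∀ h : IsDiag e n, amon k e n h ∈ P)
    (b : B k) (hb : b ∈ V k n) : rmk n b hb ∈ P := by
  have key : ∀ b, b ∈ V k n → ∃ hb : b ∈ V k n, rmk n b hb ∈ P := by
    intro b hb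
    refine Submodule.span_induction (p := fun b _ => ∃ hb : b ∈ V k n, rmk n b hb ∈ P)
      ?_ ?_ ?_ ?_ hb
    · rintro _ ⟨e, he, rfl⟩
      exact ⟨mon_mem_V k he, hP e he⟩
    · refine ⟨Submodule.zero_mem _, ?_⟩
      have : rmk n (0 : B k) (Submodule.zero_mem (V k n)) = 0 := by
        apply Subtype.ext
        change Polynomial.monomial n (0 : B k) = 0
        rw [map_zero]
      rw [this]; exact P.zero_mem
    · rintro x y _ _ ⟨hx, hx'⟩ ⟨hy, hy'⟩
      refine ⟨Submodule.add_mem _ hx hy, ?_⟩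
      have : rmk n (x + y) (Submodule.add_mem _ hx hy) = rmk n x hx + rmk n y hy := by
        apply Subtype.ext
        change Polynomial.monomial n (x + y) = Polynomial.monomial n x + Polynomial.monomial n y
        rw [map_add]
      rw [this]; exact P.add_mem hx' hy'
    · rintro a x _ ⟨hx, hx'⟩
      refine ⟨Submodule.smul_mem _ a hx, ?_⟩
      have : rmk n (a • x) (Submodule.smul_mem _ a hx) = algebraMap k (A k) a * rmk n x hx := by
        rw [← Algebra.smul_def]
        apply Subtype.ext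
        change Polynomial.monomial n (a • x) = a • Polynomial.monomial n x
        rw [Polynomial.smul_monomial]
      rw [this]; exact P.mul_mem_left _ hx'
  exact (key b hb).2

lemma exists_amon (x : Proj (Gr k)) : ∃ e n, ∃ h : IsDiag e n, 0 < n ∧
    amon k e n h ∉ x.asHomogeneousIdeal.toIdeal := by
  by_contra hcon
  push Not at hcon
  apply x.not_irrelevant_le
  intro a ha
  have h0 : (DirectSum.decompose (Gr k) a 0 : A k) = 0 :=
    (HomogeneousIdeal.mem_irrelevant_iff (Gr k) a).1 ha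
  classical
  change a ∈ x.asHomogeneousIdeal.toIdeal
  rw [← DirectSum.sum_support_decompose (Gr k) a]
  refine Ideal.sum_mem _ fun n _ => ?_
  by_cases hn : n = 0
  · subst hn; rw [h0]; exact Ideal.zero_mem _
  · rw [eq_rmk (DirectSum.decompose (Gr k) a n).2]
    exact rmk_mem_of _ n (fun e h => hcon e n h (Nat.pos_of_ne_zero hn)) _ _

variable (k)

/-- The nine open sets `D₊(chart monomial)` cover `Proj A`. -/
lemma cover_proj (x : Proj (Gr k)) :
    ∃ c, amon k (chm c) (chn c) (ch_diag c) ∉ x.asHomogeneousIdeal := by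
  set P : Ideal (A k) := x.asHomogeneousIdeal.toIdeal with hP
  have : P.IsPrime := x.isPrime
  set b := nzP P with hb
  have n3 : ne3 (b 0 && b 3) (b 1 && b 4) (b 2 && b 5) = true := by
    have h0 := congrArg (Ideal.Quotient.mk P) (rel1 k)
    rw [RingHom.map_add, RingHom.map_add, RingHom.map_zero] at h0
    have h := ne3_of h0
    rw [nzq2 P ![1, 0, 0, 1, 0, 0, 0, 0] 2 (by decide) 0 3 (by decide),
      nzq2 P ![0, 1, 0, 0, 1, 0, 0, 0] 2 (by decide) 1 4 (by decide),
      nzq2 P ![0, 0, 1, 0, 0, 1, 0, 0] 2 (by decide) 2 5 (by decide)] at h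
    exact h
  have n4 : ne4 (b 6) (b 2 && b 3) (b 1 && b 5) (b 0 && b 4) = true := by
    have h0 := congrArg (Ideal.Quotient.mk P) (rel2 k)
    rw [RingHom.map_add, RingHom.map_add] at h0
    have h := ne4_of h0
    rw [nzq1 P ![0, 0, 0, 0, 0, 0, 3, 0] 3 (by decide) 6 (by decide),
      nzq2 P ![0, 0, 1, 1, 0, 0, 0, 0] 3 (by decide) 2 3 (by decide),
      nzq2 P ![0, 1, 0, 0, 0, 4, 0, 0] 3 (by decide) 1 5 (by decide),
      nzq2 P ![4, 0, 0, 0, 1, 0, 0, 0] 3 (by decide) 0 4 (by decide)] at h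
    exact h
  have n7 : ne7 (b 7) (b 1 && b 3) (b 2 && b 4) (b 6 && b 2 && b 3) (b 1 && b 3 && b 5)
      (b 2 && b 0 && b 4) (b 6 && b 0 && b 5) = true := by
    have h0 := congrArg (Ideal.Quotient.mk P) (rel3 k)
    rw [RingHom.map_add, RingHom.map_add, RingHom.map_add, RingHom.map_add,
      RingHom.map_add] at h0
    have h := ne7_of h0
    rw [nzq1 P ![0, 0, 0, 0, 0, 0, 0, 7] 7 (by decide) 7 (by decide),
      nzq2 P ![0, 1, 0, 4, 0, 0, 0, 0] 7 (by decide) 1 3 (by decide),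
      nzq2 P ![0, 0, 4, 0, 1, 0, 0, 0] 7 (by decide) 2 4 (by decide),
      nzq3 P ![0, 0, 2, 2, 0, 0, 1, 0] 7 (by decide) 6 2 3 (by decide),
      nzq3 P ![0, 2, 0, 1, 0, 7, 0, 0] 7 (by decide) 1 3 5 (by decide),
      nzq3 P ![7, 0, 1, 0, 2, 0, 0, 0] 7 (by decide) 2 0 4 (by decide),
      nzq3 P ![6, 0, 0, 0, 0, 6, 1, 0] 7 (by decide) 6 0 5 (by decide)] at h
    exact h
  have hst : ((b 0 || b 1 || b 2) && (b 3 || b 4 || b 5)) = true := by
    obtain ⟨e, n, h, hn, hmem⟩ := exists_amon x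
    rw [← hP, not_mem_iff P e n h] at hmem
    by_cases huv : (b 6 || b 7) = true
    · exact cover_bool2 (b 0) (b 1) (b 2) (b 3) (b 4) (b 5) (b 6) (b 7) n4 n7 huv
    · have e6 : e 6 = 0 := by
        by_contra h6
        have := hmem 6 h6
        simp_all
      have e7 : e 7 = 0 := by
        by_contra h7
        have := hmem 7 h7
        simp_all
      have h1 := h.1
      have h2 := h.2
      simp only [Fin.sum_univ_eight, wta, wtb, Matrix.cons_val, Matrix.cons_val_zero,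
        Matrix.cons_val_one, e6, e7] at h1 h2
      have hs : e 0 ≠ 0 ∨ e 1 ≠ 0 ∨ e 2 ≠ 0 := by
        by_contra hc
        push Not at hc
        obtain ⟨c0, c1, c2⟩ := hc
        rw [c0, c1, c2] at h1 h2
        push_cast at h1 h2
        omega
      have ht : e 3 ≠ 0 ∨ e 4 ≠ 0 ∨ e 5 ≠ 0 := by
        by_contra hc
        push Not at hc
        obtain ⟨c0, c1, c2⟩ := hc
        rw [c0, c1, c2] at h1 h2
        push_cast at h1 h2
        omega
      have hs' : (b 0 || b 1 || b 2) = true := by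
        rcases hs with h | h | h
        · simp [hb, hmem 0 h]
        · simp [hb, hmem 1 h]
        · simp [hb, hmem 2 h]
      have ht' : (b 3 || b 4 || b 5) = true := by
        rcases ht with h | h | h
        · simp [hb, hmem 3 h]
        · simp [hb, hmem 4 h]
        · simp [hb, hmem 5 h]
      rw [hs', ht']; rfl
  rw [Bool.and_eq_true] at hst
  have n4' : ne4 (b 6) (b 2 && b 3) (b 1 && b 5) (b 0 && b 4) = true := n4
  have key := cover_bool (b 0) (b 1) (b 2) (b 3) (b 4) (b 5) (b 6) (b 7) n3 n4' n7 hst.1 hst.2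
  obtain ⟨c, hc⟩ := chm_pick_bool b key
  exact ⟨c, (not_mem_iff P (chm c) (chn c) (ch_diag c)).2 hc⟩

end ProjCover

end Pool.Agent.Lib.MP_023d06_ag
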