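import Pool.Agent.Lib.MP_023d06_ag.Zip

/-!
# MP_023d06_ag : the definitions used in the statement

`G = SL_3` (split over `F_p`), `μ(t) = diag(t, 1, t⁻¹)`.  Then `P = P_-` is the group of lower
triangular matrices, `Q = P_+^{(p)}` the group of upper triangular matrices, `L = M = T` is the
diagonal torus and `φ` is the `p`-th power map.
-/

open CategoryTheory AlgebraicGeometry

namespace Pool.Agent.Lib.MP_023d06_ag

section Points

variable (k : Type) [Field k]

/-- `Spec R` as a `k`-scheme, for a `k`-algebra `R`. -/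
noncomputable abbrev Sp (R : Type) [CommRing R] [Algebra k R] : Over (Spec (CommRingCat.of k)) :=
  Over.mk (Spec.map (CommRingCat.ofHom (algebraMap k R)))

lemma Sp.map_w {R R' : Type} [CommRing R] [Algebra k R] [CommRing R'] [Algebra k R']
    (f : R →ₐ[k] R') : Spec.map (CommRingCat.ofHom f.toRingHom) ≫ (Sp k R).hom =
      (Sp k R').hom := by
  simp only [Over.mk_left, Over.mk_hom, ← Spec.map_comp, ← CommRingCat.ofHom_comp]
  congr 2
  exact f.comp_algebraMap

/-- The morphism of `k`-schemes `Spec R' ⟶ Spec R` given by a `k`-algebra homomorphism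
`R → R'`. -/
noncomputable def Sp.map {R R' : Type} [CommRing R] [Algebra k R] [CommRing R'] [Algebra k R']
    (f : R →ₐ[k] R') : Sp k R' ⟶ Sp k R :=
  Over.homMk (Spec.map (CommRingCat.ofHom f.toRingHom)) (Sp.map_w k f)

variable {k}

/-- The value `f(τ) ∈ R` of a function `f ∈ Γ(T, O_T)` at an `R`-point `τ : Spec R ⟶ T`. -/
noncomputable def val {T : Over (Spec (CommRingCat.of k))} {R : Type} [CommRing R] [Algebra k R]
    (τ : Sp k R ⟶ T) : Γ(T.left, ⊤) →+* R :=
  (Scheme.ΓSpecIso (CommRingCat.of R)).hom.hom.comp τ.left.appTop.hom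

end Points

section SL3

variable (k : Type) [Field k]

/-- The generic `3 × 3` matrix. -/
noncomputable abbrev genMat : Matrix (Fin 3) (Fin 3) (MvPolynomial (Fin 3 × Fin 3) k) :=
  Matrix.of fun i j => MvPolynomial.X (i, j)

/-- The coordinate ring `k[SL_3] = k[X_ij] / (det X - 1)`. -/
abbrev CoordSL : Type :=
  MvPolynomial (Fin 3 × Fin 3) k ⧸ Ideal.span {(genMat k).det - 1}

lemma univMat_det :
    ((genMat k).map (Ideal.Quotient.mk (Ideal.span {(genMat k).det - 1}))).det = 1 := by
  have h := (RingHom.map_det (Ideal.Quotient.mk (Ideal.span {(genMat k).det - 1}))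
    (genMat k)).symm
  rw [RingHom.mapMatrix_apply] at h
  rw [h, ← sub_eq_zero, ← map_one (Ideal.Quotient.mk (Ideal.span {(genMat k).det - 1})),
    ← map_sub, Ideal.Quotient.eq_zero_iff_mem]
  exact Ideal.subset_span rfl

/-- The universal matrix in `SL_3(k[SL_3])`. -/
noncomputable def univMat : SL (CoordSL k) :=
  ⟨(genMat k).map (Ideal.Quotient.mk _), univMat_det k⟩

lemma homOfMat_aux {R : Type} [CommRing R] [Algebra k R] (g : SL R)
    (a : MvPolynomial (Fin 3 × Fin 3) k) (ha : a ∈ Ideal.span {(genMat k).det - 1}) :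
    MvPolynomial.aeval (fun ij : Fin 3 × Fin 3 => g ij.1 ij.2) a = 0 := by
  have hle : Ideal.span {(genMat k).det - 1} ≤
      RingHom.ker (MvPolynomial.aeval (R := k) fun ij : Fin 3 × Fin 3 => g ij.1 ij.2) := by
    rw [Ideal.span_le, Set.singleton_subset_iff, SetLike.mem_coe, RingHom.mem_ker, map_sub,
      map_one, AlgHom.map_det, sub_eq_zero]
    have : (MvPolynomial.aeval (R := k) fun ij : Fin 3 × Fin 3 => g ij.1 ij.2).mapMatrix
        (genMat k) = (g : Matrix (Fin 3) (Fin 3) R) := by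
      ext i j
      simp [genMat]
    rw [this]
    exact g.2
  exact hle ha

/-- The homomorphism `k[SL_3] → R` which corresponds to `g ∈ SL_3(R)`. -/
noncomputable def homOfMat {R : Type} [CommRing R] [Algebra k R] (g : SL R) : CoordSL k →ₐ[k] R :=
  Ideal.Quotient.liftₐ _ (MvPolynomial.aeval fun ij => g ij.1 ij.2) (homOfMat_aux k g)

variable {k}

/-- The matrix in `SL_3(R)` of an `R`-point of the `k`-scheme `SL_3 = Spec k[SL_3]`. -/
noncomputable def mat {R : Type} [CommRing R] [Algebra k R] (h : Sp k R ⟶ Sp k (CoordSL k)) :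
    SL R :=
  Matrix.SpecialLinearGroup.map ((val h).comp (Scheme.ΓSpecIso (CommRingCat.of (CoordSL k))).inv.hom)
    (univMat k)

end SL3

section Affine

variable {k : Type} [Field k]

lemma Sp.map_id {R : Type} [CommRing R] [Algebra k R] :
    Sp.map k (AlgHom.id k R) = 𝟙 (Sp k R) := by
  ext1
  simp only [Sp.map, Over.homMk_left, Over.id_left]
  exact Spec.map_id _

lemma Sp.map_comp {R R' R'' : Type} [CommRing R] [Algebra k R] [CommRing R'] [Algebra k R']
    [CommRing R''] [Algebra k R''] (f : R →ₐ[k] R') (g : R' →ₐ[k] R'') :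
    Sp.map k (g.comp f) = Sp.map k g ≫ Sp.map k f := by
  ext1
  simp only [Sp.map, Over.homMk_left, Over.comp_left, ← Spec.map_comp, ← CommRingCat.ofHom_comp]
  rfl

/-- The algebra homomorphism of a morphism of affine `k`-schemes. -/
noncomputable def toAlg {R B : Type} [CommRing R] [Algebra k R] [CommRing B] [Algebra k B]
    (τ : Sp k R ⟶ Sp k B) : B →ₐ[k] R where
  toRingHom := (Spec.preimage τ.left).hom
  commutes' c := by
    have h := Over.w τ
    have h2 : CommRingCat.ofHom (algebraMap k B) ≫ Spec.preimage τ.left =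
        CommRingCat.ofHom (algebraMap k R) := by
      apply Spec.map_injective
      rw [Spec.map_comp, Spec.map_preimage]
      exact h
    have h3 := congrArg (fun f => f.hom c) h2
    simpa using h3

@[simp] lemma map_toAlg {R B : Type} [CommRing R] [Algebra k R] [CommRing B] [Algebra k B]
    (τ : Sp k R ⟶ Sp k B) : Sp.map k (toAlg τ) = τ := by
  ext1
  simp only [Sp.map, Over.homMk_left]
  exact Spec.map_preimage _

@[simp] lemma toAlg_map {R B : Type} [CommRing R] [Algebra k R] [CommRing B] [Algebra k B]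
    (f : B →ₐ[k] R) : toAlg (Sp.map k f) = f := by
  apply AlgHom.coe_ringHom_injective
  change (Spec.preimage (Sp.map k f).left).hom = f.toRingHom
  simp [Sp.map]

lemma toAlg_comp {R R' B : Type} [CommRing R] [Algebra k R] [CommRing R'] [Algebra k R']
    [CommRing B] [Algebra k B] (f : R →ₐ[k] R') (τ : Sp k R ⟶ Sp k B) :
    toAlg (Sp.map k f ≫ τ) = f.comp (toAlg τ) := by
  have : Sp.map k f ≫ τ = Sp.map k (f.comp (toAlg τ)) := by
    rw [Sp.map_comp, map_toAlg]
  rw [this, toAlg_map]

lemma val_eq {R B : Type} [CommRing R] [Algebra k R] [CommRing B] [Algebra k B]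
    (τ : Sp k R ⟶ Sp k B) (f : Γ((Sp k B).left, ⊤)) :
    val τ f = toAlg τ ((Scheme.ΓSpecIso (CommRingCat.of B)).hom.hom f) := by
  have h : τ.left = Spec.map (CommRingCat.ofHom (toAlg τ).toRingHom) := by
    conv_lhs => rw [← map_toAlg τ]
    rfl
  have h2 := Scheme.ΓSpecIso_naturality (CommRingCat.ofHom (toAlg τ).toRingHom)
  rw [← h] at h2
  have h3 := congrArg (fun F => F.hom f) h2
  simpa [val] using h3

lemma val_comp {T : Over (Spec (CommRingCat.of k))} {R R' : Type} [CommRing R] [Algebra k R]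
    [CommRing R'] [Algebra k R'] (f : R →ₐ[k] R') (τ : Sp k R ⟶ T) (a : Γ(T.left, ⊤)) :
    val (Sp.map k f ≫ τ) a = f (val τ a) := by
  have h2 := Scheme.ΓSpecIso_naturality (CommRingCat.ofHom f.toRingHom)
  have h3 := congrArg (fun F => F.hom (τ.left.appTop.hom a)) h2
  simp only [val, Over.comp_left, Scheme.Hom.comp_appTop, CommRingCat.hom_comp,
    RingHom.comp_apply, Sp.map, Over.homMk_left] at h3 ⊢
  exact h3

end Affine

section SL3Points

variable {k : Type} [Field k]

lemma univMat_apply (i j : Fin 3) :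
    (univMat k) i j = Ideal.Quotient.mk _ (MvPolynomial.X (i, j)) := rfl

lemma homOfMat_mk {R : Type} [CommRing R] [Algebra k R] (g : SL R) (i j : Fin 3) :
    homOfMat k g (Ideal.Quotient.mk _ (MvPolynomial.X (i, j))) = g i j := by
  have : homOfMat k g (Ideal.Quotient.mk _ (MvPolynomial.X (i, j))) =
      MvPolynomial.aeval (fun ij : Fin 3 × Fin 3 => g ij.1 ij.2) (MvPolynomial.X (R := k) (i, j)) :=
    rfl
  rw [this, MvPolynomial.aeval_X]

lemma CoordSL.hom_ext {R : Type} [CommRing R] [Algebra k R] {f f' : CoordSL k →ₐ[k] R}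
    (h : ∀ i j, f (univMat k i j) = f' (univMat k i j)) : f = f' := by
  apply Ideal.Quotient.algHom_ext
  apply MvPolynomial.algHom_ext
  rintro ⟨i, j⟩
  exact h i j

lemma homOfMat_univMat {R : Type} [CommRing R] [Algebra k R] (g : SL R) :
    Matrix.SpecialLinearGroup.map (homOfMat k g).toRingHom (univMat k) = g := by
  ext i j
  exact homOfMat_mk g i j

lemma homOfMat_of_map {R : Type} [CommRing R] [Algebra k R] (f : CoordSL k →ₐ[k] R) :
    homOfMat k (Matrix.SpecialLinearGroup.map f.toRingHom (univMat k)) = f := by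
  apply CoordSL.hom_ext
  intro i j
  exact homOfMat_mk _ i j

lemma mat_eq {R : Type} [CommRing R] [Algebra k R] (h : Sp k R ⟶ Sp k (CoordSL k)) :
    mat h = Matrix.SpecialLinearGroup.map (toAlg h).toRingHom (univMat k) := by
  ext i j
  change val h ((Scheme.ΓSpecIso (CommRingCat.of (CoordSL k))).inv.hom (univMat k i j)) =
    toAlg h (univMat k i j)
  rw [val_eq]
  congr 1
  have := (Scheme.ΓSpecIso (CommRingCat.of (CoordSL k))).inv_hom_id
  exact congrArg (fun F => F.hom (univMat k i j)) this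

@[simp] lemma mat_map_homOfMat {R : Type} [CommRing R] [Algebra k R] (g : SL R) :
    mat (Sp.map k (homOfMat k g)) = g := by
  rw [mat_eq, toAlg_map, homOfMat_univMat]

@[simp] lemma map_homOfMat_mat {R : Type} [CommRing R] [Algebra k R]
    (h : Sp k R ⟶ Sp k (CoordSL k)) : Sp.map k (homOfMat k (mat h)) = h := by
  rw [mat_eq, homOfMat_of_map, map_toAlg]

lemma mat_comp {R R' : Type} [CommRing R] [Algebra k R] [CommRing R'] [Algebra k R']
    (f : R →ₐ[k] R') (h : Sp k R ⟶ Sp k (CoordSL k)) :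
    mat (Sp.map k f ≫ h) = Matrix.SpecialLinearGroup.map f.toRingHom (mat h) := by
  rw [mat_eq, mat_eq, toAlg_comp]
  ext i j
  simp

lemma homOfMat_comp {R R' : Type} [CommRing R] [Algebra k R] [CommRing R'] [Algebra k R']
    (f : R →ₐ[k] R') (g : SL R) :
    f.comp (homOfMat k g) = homOfMat k (Matrix.SpecialLinearGroup.map f.toRingHom g) := by
  apply CoordSL.hom_ext
  intro i j
  rw [AlgHom.comp_apply, univMat_apply, homOfMat_mk, homOfMat_mk]
  rfl

end SL3Points

section Main

variable (k : Type) [Field k] (p : ℕ)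

/-- A `k`-scheme with an action of the zip group `E`: for all `k`-algebras `R` the group `E(R)`
acts on the set of `R`-points, functorially in `R`. -/
structure EScheme where
  /-- the scheme -/
  T : Over (Spec (CommRingCat.of k))
  /-- the action -/
  act : ∀ (R : Type) [CommRing R] [Algebra k R], ZipGroup p R → (Sp k R ⟶ T) → (Sp k R ⟶ T)
  act_one : ∀ (R : Type) [CommRing R] [Algebra k R] (τ : Sp k R ⟶ T), act R 1 τ = τ
  act_mul : ∀ (R : Type) [CommRing R] [Algebra k R] (e e' : ZipGroup p R) (τ : Sp k R ⟶ T),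
    act R (e * e') τ = act R e (act R e' τ)
  act_map : ∀ (R R' : Type) [CommRing R] [Algebra k R] [CommRing R'] [Algebra k R']
    (f : R →ₐ[k] R') (e : ZipGroup p R) (τ : Sp k R ⟶ T),
    Sp.map k f ≫ act R e τ = act R' (ZipGroup.map f.toRingHom e) (Sp.map k f ≫ τ)

/-- The action `(x, y) · g = x g y⁻¹` on the `R`-points of `SL_3`. -/
noncomputable def actSL (R : Type) [CommRing R] [Algebra k R] (e : ZipGroup p R)
    (h : Sp k R ⟶ Sp k (CoordSL k)) : Sp k R ⟶ Sp k (CoordSL k) :=
  Sp.map k (homOfMat k (e.1.1 * mat h * e.1.2⁻¹))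

lemma actSL_one (R : Type) [CommRing R] [Algebra k R] (h : Sp k R ⟶ Sp k (CoordSL k)) :
    actSL k p R 1 h = h := by simp [actSL]

lemma actSL_mul (R : Type) [CommRing R] [Algebra k R] (e e' : ZipGroup p R)
    (h : Sp k R ⟶ Sp k (CoordSL k)) :
    actSL k p R (e * e') h = actSL k p R e (actSL k p R e' h) := by simp [actSL, mul_assoc]

lemma actSL_map (R R' : Type) [CommRing R] [Algebra k R] [CommRing R'] [Algebra k R']
    (f : R →ₐ[k] R') (e : ZipGroup p R) (h : Sp k R ⟶ Sp k (CoordSL k)) :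
    Sp.map k f ≫ actSL k p R e h =
      actSL k p R' (ZipGroup.map f.toRingHom e) (Sp.map k f ≫ h) := by
  rw [actSL, actSL, ← Sp.map_comp, homOfMat_comp, mat_comp]
  simp [ZipGroup.map]

/-- `SL_3` with the action `(x, y) · g = x g y⁻¹` of `E`. -/
noncomputable def SLE : EScheme k p where
  T := Sp k (CoordSL k)
  act R _ _ e h := actSL k p R e h
  act_one R _ _ h := actSL_one k p R h
  act_mul R _ _ e e' h := actSL_mul k p R e e' h
  act_map R R' _ _ _ _ f e h := actSL_map k p R R' f e h

/-- A morphism of `k`-schemes `ζ : X ⟶ G-Zip^μ = [E \ G]`, given as an `E`-torsor `π : T ⟶ X`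
(`π` is smooth and surjective and `E × T ≅ T ×_X T`) with an `E`-equivariant morphism
`γ : T ⟶ G`. -/
structure ZipMap (X : Over (Spec (CommRingCat.of k))) extends EScheme k p where
  /-- the projection of the torsor -/
  π : T ⟶ X
  smooth_π : Smooth π.left
  surjective_π : Surjective π.left
  torsor : ∀ (R : Type) [CommRing R] [Algebra k R] (τ τ' : Sp k R ⟶ T),
    τ ≫ π = τ' ≫ π ↔ ∃! e : ZipGroup p R, act R e τ = τ'
  /-- the equivariant map to `G` -/
  γ : T ⟶ Sp k (CoordSL k)
  equivariant : ∀ (R : Type) [CommRing R] [Algebra k R] (e : ZipGroup p R) (τ : Sp k R ⟶ T),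
    act R e τ ≫ γ = (SLE k p).act R e (τ ≫ γ)

variable {k p}

/-- `f` is a section of the line bundle `V_I(λ)` on `[E \ T]`, `λ(x) = ∏ x_ii ^ λ_i`: for all
`k`-algebras `R`, all `e = (x, y) ∈ E(R)` and `τ ∈ T(R)` one has `f(e τ) = λ(x) f(τ)`. -/
def EScheme.IsSection (Y : EScheme k p) (w : Fin 3 → ℤ) (f : Γ(Y.T.left, ⊤)) : Prop :=
  ∀ (R : Type) [CommRing R] [Algebra k R] (e : ZipGroup p R) (τ : Sp k R ⟶ Y.T)
    (a : Fin 3 → Rˣ), (∀ i, (a i : R) = e.1.1 i i) →
    val (Y.act R e τ) f = ((∏ i, a i ^ w i : Rˣ) : R) * val τ f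

/-- The saturated cone of the weights `λ ∈ ℤ³` (modulo `ℤ(1,1,1)` this is `X^*(T)`) such that
`H⁰([E \ T], V_I(λ)) ≠ 0`. -/
def EScheme.cone (Y : EScheme k p) : Set (Fin 3 → ℤ) :=
  {w | ∃ d : ℕ, 0 < d ∧ ∃ f : Γ(Y.T.left, ⊤), f ≠ 0 ∧ Y.IsSection (fun i => d * w i) f}

/-- Condition (i): `X` is proper over `k`. -/
def CondI (X : Over (Spec (CommRingCat.of k))) : Prop := IsProper X.hom

/-- Condition (ii): `ζ` is smooth, and surjective on each connected component of `X`. -/
def ZipMap.CondII {X : Over (Spec (CommRingCat.of k))} (Z : ZipMap k p X) : Prop :=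
  Smooth Z.γ.left ∧ ∀ x : X.left, Z.γ.left '' (Z.π.left ⁻¹' connectedComponent x) = Set.univ

end Main

end Pool.Agent.Lib.MP_023d06_ag
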