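import Pool.Agent.Lib.MP_023d06_ag.Chart

/-!
# Row PR: `X = Proj A` is proper over `k`
-/

open CategoryTheory AlgebraicGeometry Polynomial

namespace Pool.Agent.Lib.MP_023d06_ag

variable (k : Type) [Field k]

lemma pr_isDiag_iff (e : Fin 8 → ℕ) (n : ℕ) : IsDiag e n ↔
    ((e 0 : ℤ) + 3 * e 1 + 2 * e 2 + e 3 - e 4 + e 6 + e 7 = n ∧
     - (e 1 : ℤ) + e 2 + 2 * e 3 + 3 * e 4 + e 5 + e 6 + e 7 = n) := by
  simp only [IsDiag, Fin.sum_univ_eight, wta, wtb, Matrix.cons_val]
  constructor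
  · rintro ⟨h1, h2⟩
    constructor <;> linarith
  · rintro ⟨h1, h2⟩
    constructor <;> linarith

lemma pr_exists_gen (e : Fin 8 → ℕ) (n : ℕ) (he : IsDiag e n) (h0 : e ≠ 0) :
    ∃ g : Fin 8 → ℕ, ∃ m : ℕ, IsDiag g m ∧ g ≠ 0 ∧ ∑ z, g z ≤ 5 ∧ ∀ z, g z ≤ e z := by
  have hle : ∀ g : Fin 8 → ℕ, (g 0 ≤ e 0 ∧ g 1 ≤ e 1 ∧ g 2 ≤ e 2 ∧ g 3 ≤ e 3 ∧ g 4 ≤ e 4 ∧
      g 5 ≤ e 5 ∧ g 6 ≤ e 6 ∧ g 7 ≤ e 7) → ∀ z, g z ≤ e z := by
    rintro g ⟨a0, a1, a2, a3, a4, a5, a6, a7⟩ z
    fin_cases z <;> assumption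
  have key : ∀ g : Fin 8 → ℕ, ∀ m : ℕ, IsDiag g m → g ≠ 0 → ∑ z, g z ≤ 5 →
      (g 0 ≤ e 0 ∧ g 1 ≤ e 1 ∧ g 2 ≤ e 2 ∧ g 3 ≤ e 3 ∧ g 4 ≤ e 4 ∧
      g 5 ≤ e 5 ∧ g 6 ≤ e 6 ∧ g 7 ≤ e 7) →
      ∃ g : Fin 8 → ℕ, ∃ m : ℕ, IsDiag g m ∧ g ≠ 0 ∧ ∑ z, g z ≤ 5 ∧ ∀ z, g z ≤ e z :=
    fun g m h1 h2 h3 h4 => ⟨g, m, h1, h2, h3, hle g h4⟩
  rw [pr_isDiag_iff] at he
  obtain ⟨ha, hb⟩ := he
  by_cases c6 : 0 < e 6
  · exact key ![0, 0, 0, 0, 0, 0, 1, 0] 1 (by decide) (by decide) (by decide)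
      (by refine ⟨Nat.zero_le _, Nat.zero_le _, Nat.zero_le _, Nat.zero_le _, Nat.zero_le _,
            Nat.zero_le _, c6, Nat.zero_le _⟩)
  by_cases c7 : 0 < e 7
  · exact key ![0, 0, 0, 0, 0, 0, 0, 1] 1 (by decide) (by decide) (by decide)
      (by refine ⟨Nat.zero_le _, Nat.zero_le _, Nat.zero_le _, Nat.zero_le _, Nat.zero_le _,
            Nat.zero_le _, Nat.zero_le _, c7⟩)
  by_cases c14 : 0 < e 1 ∧ 0 < e 4
  · exact key ![0, 1, 0, 0, 1, 0, 0, 0] 2 (by decide) (by decide) (by decide)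
      (by refine ⟨Nat.zero_le _, c14.1, Nat.zero_le _, Nat.zero_le _, c14.2,
            Nat.zero_le _, Nat.zero_le _, Nat.zero_le _⟩)
  by_cases c03 : 0 < e 0 ∧ 0 < e 3
  · exact key ![1, 0, 0, 1, 0, 0, 0, 0] 2 (by decide) (by decide) (by decide)
      (by refine ⟨c03.1, Nat.zero_le _, Nat.zero_le _, c03.2, Nat.zero_le _,
            Nat.zero_le _, Nat.zero_le _, Nat.zero_le _⟩)
  by_cases c05 : 0 < e 0 ∧ 0 < e 5
  · exact key ![1, 0, 0, 0, 0, 1, 0, 0] 1 (by decide) (by decide) (by decide)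
      (by refine ⟨c05.1, Nat.zero_le _, Nat.zero_le _, Nat.zero_le _, Nat.zero_le _, c05.2,
            Nat.zero_le _, Nat.zero_le _⟩)
  by_cases c23 : 0 < e 2 ∧ 0 < e 3
  · exact key ![0, 0, 1, 1, 0, 0, 0, 0] 3 (by decide) (by decide) (by decide)
      (by refine ⟨Nat.zero_le _, Nat.zero_le _, c23.1, c23.2, Nat.zero_le _,
            Nat.zero_le _, Nat.zero_le _, Nat.zero_le _⟩)
  by_cases c25 : 0 < e 2 ∧ 0 < e 5
  · exact key ![0, 0, 1, 0, 0, 1, 0, 0] 2 (by decide) (by decide) (by decide)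
      (by refine ⟨Nat.zero_le _, Nat.zero_le _, c25.1, Nat.zero_le _, Nat.zero_le _, c25.2,
            Nat.zero_le _, Nat.zero_le _⟩)
  by_cases c1 : 0 < e 1
  · -- `s₂` times four of `t₁, t₃`
    obtain ⟨a, ha4, ha3, ha5⟩ : ∃ a : ℕ, a ≤ 4 ∧ a ≤ e 3 ∧ 4 - a ≤ e 5 := by
      refine ⟨min (e 3) 4, by omega, by omega, by omega⟩
    refine key ![0, 1, 0, a, 0, 4 - a, 0, 0] (3 + a) ?_ ?_ ?_ ?_
    · interval_cases a <;> decide
    · intro h
      have := congrFun h 1
      simp at this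
    · interval_cases a <;> decide
    · exact ⟨Nat.zero_le _, c1, Nat.zero_le _, ha3, Nat.zero_le _, ha5,
            Nat.zero_le _, Nat.zero_le _⟩
  by_cases c4 : 0 < e 4
  · obtain ⟨a, ha4, ha3, ha5⟩ : ∃ a : ℕ, a ≤ 4 ∧ a ≤ e 0 ∧ 4 - a ≤ e 2 := by
      refine ⟨min (e 0) 4, by omega, by omega, by omega⟩
    refine key ![a, 0, 4 - a, 0, 1, 0, 0, 0] (7 - a) ?_ ?_ ?_ ?_
    · interval_cases a <;> decide
    · intro h
      have := congrFun h 4
      simp at this
    · interval_cases a <;> decide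
    · exact ⟨ha3, Nat.zero_le _, ha5, Nat.zero_le _, c4, Nat.zero_le _, Nat.zero_le _,
            Nat.zero_le _⟩
  exfalso
  apply h0
  have e0 : e 0 = 0 := by omega
  have e1 : e 1 = 0 := by omega
  have e2 : e 2 = 0 := by omega
  have e3 : e 3 = 0 := by omega
  have e4 : e 4 = 0 := by omega
  have e5 : e 5 = 0 := by omega
  have e6 : e 6 = 0 := by omega
  have e7 : e 7 = 0 := by omega
  funext z
  fin_cases z <;> assumption

lemma diag_induction (P : (Fin 8 → ℕ) → Prop) (h0 : P 0)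
    (hadd : ∀ e g : Fin 8 → ℕ, ∀ n m : ℕ, IsDiag e n → IsDiag g m → g ≠ 0 → ∑ z, g z ≤ 5 →
      P e → P (e + g)) (e : Fin 8 → ℕ) (n : ℕ) (he : IsDiag e n) : P e := by
  induction hN : ∑ z, e z using Nat.strong_induction_on generalizing e n with
  | _ N ih =>
    by_cases hz : e = 0
    · rw [hz]; exact h0
    obtain ⟨g, m, hg, hg0, hg5, hge⟩ := pr_exists_gen e n he hz
    have heg : e = (e - g) + g := by
      funext z
      simp only [Pi.add_apply, Pi.sub_apply]
      have := hge z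
      omega
    have hsum : ∑ z, (e - g) z + ∑ z, g z = ∑ z, e z := by
      rw [← Finset.sum_add_distrib]
      apply Finset.sum_congr rfl
      intro z _
      simp only [Pi.sub_apply]
      have := hge z
      omega
    have hgpos : 0 < ∑ z, g z := by
      rcases Nat.eq_zero_or_pos (∑ z, g z) with h | h
      · exfalso
        apply hg0
        funext z
        exact (Finset.sum_eq_zero_iff.1 h) z (Finset.mem_univ z)
      · exact h
    have hdiag : IsDiag (e - g) (n - m) := by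
      rw [pr_isDiag_iff] at he hg ⊢
      have h0 := hge 0
      have h1 := hge 1
      have h2 := hge 2
      have h3 := hge 3
      have h4 := hge 4
      have h5 := hge 5
      have h6 := hge 6
      have h7 := hge 7
      simp only [Pi.sub_apply]
      constructor <;> omega
    rw [heg]
    exact hadd (e - g) g (n - m) m hdiag hg hg0 hg5 (ih _ (by omega) _ _ hdiag rfl)

lemma pr_isDiag_unique {e : Fin 8 → ℕ} {n m : ℕ} (h : IsDiag e n) (h' : IsDiag e m) : n = m := by
  have := h.1.symm.trans h'.1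
  exact_mod_cast this

lemma pr_amon_add (e g : Fin 8 → ℕ) (n m : ℕ) (h : IsDiag e n) (h' : IsDiag g m)
    (h'' : IsDiag (e + g) (n + m)) :
    amon k (e + g) (n + m) h'' = amon k e n h * amon k g m h' := by
  apply Subtype.ext
  change monomial (n + m) _ = monomial n _ * monomial m _
  rw [Polynomial.monomial_mul_monomial, mon_add]

lemma pr_amon_zero (n : ℕ) (h : IsDiag 0 n) : amon k 0 n h = 1 := by
  have hn : n = 0 := pr_isDiag_unique h IsDiag.zero
  subst hn
  apply Subtype.ext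
  change monomial 0 _ = 1
  rw [mon_zero]
  rfl

/-- the generators -/
def prGens : Set (A k) := {P | ∃ g m, ∃ h : IsDiag g m, ∑ z, g z ≤ 5 ∧ P = amon k g m h}

lemma prGens_finite : (prGens k).Finite := by
  classical
  have hfin : {g : Fin 8 → ℕ | ∑ z, g z ≤ 5}.Finite := by
    apply Set.Finite.subset (Set.Finite.pi' fun _ : Fin 8 => Set.finite_Iic 5)
    intro g hg z
    have h1 : g z ≤ ∑ z, g z := Finset.single_le_sum (fun _ _ => Nat.zero_le _) (Finset.mem_univ z)
    exact h1.trans hg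
  apply Set.Finite.subset (hfin.image fun g => if h : ∃ m, IsDiag g m then
    amon k g h.choose h.choose_spec else 0)
  rintro P ⟨g, m, h, hg, rfl⟩
  refine ⟨g, hg, ?_⟩
  have hex : ∃ m, IsDiag g m := ⟨m, h⟩
  simp only [dif_pos hex]
  have hm : hex.choose = m := pr_isDiag_unique hex.choose_spec h
  congr 1

lemma pr_amon_mem (e : Fin 8 → ℕ) (n : ℕ) (h : IsDiag e n) :
    amon k e n h ∈ Algebra.adjoin k (prGens k) := by
  have key := diag_induction
    (fun e => ∀ n (h : IsDiag e n), amon k e n h ∈ Algebra.adjoin k (prGens k))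
  refine key ?_ ?_ e n h n h
  · intro n h
    rw [pr_amon_zero]
    exact one_mem _
  · intro e g n m he hg _ hg5 hP n' h'
    have hn : n' = n + m := pr_isDiag_unique h' (he.add hg)
    subst hn
    rw [pr_amon_add k e g n m he hg h']
    exact mul_mem (hP n he) (Algebra.subset_adjoin ⟨g, m, hg, hg5, rfl⟩)

lemma pr_rmk_mem (n : ℕ) (b : B k) (hb : b ∈ V k n) :
    rmk n b hb ∈ Algebra.adjoin k (prGens k) := by
  refine Submodule.span_induction (p := fun b hb => rmk n b hb ∈ Algebra.adjoin k (prGens k))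
    ?_ ?_ ?_ ?_ hb
  · rintro _ ⟨e, he, rfl⟩
    exact pr_amon_mem k e n he
  · have : rmk (V := V k) n 0 (zero_mem _) = 0 := by
      apply Subtype.ext
      exact monomial_zero_right n
    rw [this]
    exact zero_mem _
  · intro x y hx hy h1 h2
    have : rmk (V := V k) n (x + y) (add_mem hx hy) = rmk n x hx + rmk n y hy := by
      apply Subtype.ext
      exact map_add (monomial n) x y
    rw [this]
    exact add_mem h1 h2
  · intro c x hx h1
    have : rmk (V := V k) n (c • x) (Submodule.smul_mem _ c hx) = c • rmk n x hx := by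
      apply Subtype.ext
      change monomial n (c • x) = c • monomial n x
      rw [smul_monomial]
    rw [this]
    exact Subalgebra.smul_mem _ h1 c

lemma A_finiteType : Algebra.FiniteType k (A k) := by
  refine ⟨⟨(prGens_finite k).toFinset, ?_⟩⟩
  rw [Set.Finite.coe_toFinset, eq_top_iff]
  intro P _
  have hP : P = ∑ n ∈ P.1.support, rmk n (P.1.coeff n) (P.2 n) := by
    apply Subtype.ext
    rw [AddSubmonoidClass.coe_finsetSum]
    exact P.1.as_sum_support
  rw [hP]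
  exact Subalgebra.sum_mem _ fun n _ => pr_rmk_mem k n _ _

/-- Weight `(0, 0)` forces `e = 0` (the sum of the two weights is positive for every
coordinate), so `V k 0 = k · 1` and the degree `0` part of `A` is `k`. -/
lemma algebraMap_Gr_zero_surjective : Function.Surjective (algebraMap k (Gr k 0)) := by
  have hdiag : ∀ e : Fin 8 → ℕ, IsDiag e 0 → e = 0 := by
    rintro e ⟨h1, h2⟩
    simp only [Fin.sum_univ_eight, wta, wtb] at h1 h2
    simp at h1 h2
    funext z
    fin_cases z <;> simp <;> omega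
  have hV : ∀ x ∈ V k 0, ∃ c : k, x = algebraMap k (B k) c := by
    intro x hx
    refine Submodule.span_induction ?_ ?_ ?_ ?_ hx
    · rintro _ ⟨e, he, rfl⟩
      rw [hdiag e he, mon_zero]
      exact ⟨1, (map_one _).symm⟩
    · exact ⟨0, (map_zero _).symm⟩
    · rintro _ _ _ _ ⟨c, rfl⟩ ⟨d, rfl⟩
      exact ⟨c + d, (map_add _ _ _).symm⟩
    · rintro a _ _ ⟨c, rfl⟩
      exact ⟨a * c, by rw [map_mul, Algebra.smul_def]⟩
  rintro ⟨P, hP⟩
  obtain ⟨c, hc⟩ := hV _ (P.2 0)
  refine ⟨c, ?_⟩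
  apply Subtype.ext
  change algebraMap k (A k) c = P
  apply Subtype.ext
  ext m
  by_cases hm : m = 0
  · subst hm
    rw [hc]
    change (algebraMap k (Polynomial (B k)) c).coeff 0 = _
    rw [Polynomial.algebraMap_apply, coeff_C_zero]
  · rw [hP m hm]
    change (algebraMap k (Polynomial (B k)) c).coeff m = _
    rw [Polynomial.algebraMap_apply, coeff_C_of_ne_zero hm]

lemma finiteType_Gr_zero : Algebra.FiniteType (Gr k 0) (A k) := by
  have := A_finiteType k
  have : IsScalarTower k (Gr k 0) (A k) := by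
    refine ⟨fun c x y => ?_⟩
    change (c • x.1) * y = c • (x.1 * y)
    exact smul_mul_assoc c x.1 y
  exact Algebra.FiniteType.of_restrictScalars_finiteType k (Gr k 0) (A k)

/-- `X = Proj A`, as a `k`-scheme. -/
noncomputable def XX : Over (Spec (CommRingCat.of k)) :=
  Over.mk (Proj.toSpecZero (Gr k) ≫ Spec.map (CommRingCat.ofHom (algebraMap k (Gr k 0))))

/-- `X` is proper: Mathlib has `IsProper (Proj.toSpecZero 𝒜)` for `𝒜` of finite type over `𝒜 0`,
and the second map is a closed immersion. -/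
lemma XX_proper : IsProper (XX k).hom := by
  have h1 := finiteType_Gr_zero k
  have h2 : IsClosedImmersion (Spec.map (CommRingCat.ofHom (algebraMap k (Gr k 0))) :
      Spec (CommRingCat.of (Gr k 0)) ⟶ Spec (CommRingCat.of k)) := by
    apply IsClosedImmersion.spec_of_surjective
    exact algebraMap_Gr_zero_surjective k
  have h3 : IsProper (Proj.toSpecZero (Gr k) ≫ (Spec.map (CommRingCat.ofHom
      (algebraMap k (Gr k 0))) : Spec (CommRingCat.of (Gr k 0)) ⟶ Spec (CommRingCat.of k))) :=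
    inferInstance
  exact h3

end Pool.Agent.Lib.MP_023d06_ag
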