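import Pool.Agent.Lib.MP_023d06_ag.Tup

/-!
# Rows F1, F2, F3: the Jacobian criterion over a field of characteristic 2
-/

namespace Pool.Agent.Lib.MP_023d06_ag

section

variable {R : Type} [CommRing R]

/-- first row of the Jacobian matrix. -/
def J3 (s t : Fin 3 → R) (u : R) : Fin 5 → R :=
  ![t 2 ^ 4 * s 0 + s 2 * t 1, t 0 * s 1 + s 0 ^ 4 * t 2, t 0 * s 0 + s 2 * t 2, u ^ 2, 0]

/-- second row of the Jacobian matrix. -/
def J7 (s t : Fin 3 → R) (v : R) : Fin 5 → R :=
  ![t 0 ^ 4 * s 0 + s 1 ^ 2 * t 2 ^ 7 * t 1, s 0 ^ 7 * t 1 ^ 2 * s 1 + s 2 ^ 4 * t 2,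
    s 0 ^ 8 * t 1 ^ 2 + s 1 ^ 2 * t 2 ^ 8, s 2 ^ 2 * t 0 ^ 2 + s 0 ^ 6 * t 2 ^ 6, v ^ 6]

end

variable {K : Type} [Field K]

/-- `f3` is smooth: no common zero of `f3` and its derivatives with `s ≠ 0`, `t ≠ 0`. -/
lemma jac_f3 (h2 : (2 : K) = 0) (s t : Fin 3 → K)
    (hst : s 0 * t 0 + s 1 * t 1 + s 2 * t 2 = 0) (hs : s ≠ 0) (ht : t ≠ 0)
    (h3 : f3 s t = 0) (hA : t 2 ^ 4 * s 0 + s 2 * t 1 = 0) (hB : t 0 * s 1 + s 0 ^ 4 * t 2 = 0)
    (hC : t 0 * s 0 + s 2 * t 2 = 0) : False := by
  have _ := h2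
  simp only [f3] at h3
  have hs' : ¬ (s 0 = 0 ∧ s 1 = 0 ∧ s 2 = 0) := by
    rintro ⟨a0, a1, a2⟩
    apply hs
    funext i
    fin_cases i
    · exact a0
    · exact a1
    · exact a2
  have ht' : ¬ (t 0 = 0 ∧ t 1 = 0 ∧ t 2 = 0) := by
    rintro ⟨a0, a1, a2⟩
    apply ht
    funext i
    fin_cases i
    · exact a0
    · exact a1
    · exact a2
  generalize s 0 = x at *
  generalize s 1 = y at *
  generalize s 2 = z at *
  generalize t 0 = p at *
  generalize t 1 = q at *
  generalize t 2 = r at *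
  have h1 : y * q = 0 := by linear_combination hst - hC
  rcases mul_eq_zero.1 h1 with hy | hq
  · subst hy
    have hB' : x ^ 4 * r = 0 := by linear_combination hB
    rcases mul_eq_zero.1 hB' with hx | hr
    · have hx0 : x = 0 := pow_eq_zero_iff (by norm_num) |>.1 hx
      subst hx0
      have hz : z ≠ 0 := fun h => hs' ⟨rfl, rfl, h⟩
      have hq : q = 0 := by
        have : z * q = 0 := by linear_combination hA
        exact (mul_eq_zero.1 this).resolve_left hz
      have hp : p = 0 := by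
        have : z * p = 0 := by linear_combination h3
        exact (mul_eq_zero.1 this).resolve_left hz
      have hr : r = 0 := by
        have : z * r = 0 := by linear_combination hC
        exact (mul_eq_zero.1 this).resolve_left hz
      exact ht' ⟨hp, hq, hr⟩
    · subst hr
      by_cases hx : x = 0
      · subst hx
        have hz : z ≠ 0 := fun h => hs' ⟨rfl, rfl, h⟩
        have hq : q = 0 := by
          have : z * q = 0 := by linear_combination hA
          exact (mul_eq_zero.1 this).resolve_left hz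
        have hp : p = 0 := by
          have : z * p = 0 := by linear_combination h3
          exact (mul_eq_zero.1 this).resolve_left hz
        exact ht' ⟨hp, hq, rfl⟩
      · have hp : p = 0 := by
          have : p * x = 0 := by linear_combination hC
          exact (mul_eq_zero.1 this).resolve_right hx
        have hq : q ≠ 0 := fun h => ht' ⟨hp, h, rfl⟩
        have hz : z = 0 := by
          have : z * q = 0 := by linear_combination hA
          exact (mul_eq_zero.1 this).resolve_right hq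
        subst hz
        have : x ^ 4 * q = 0 := by linear_combination h3
        rcases mul_eq_zero.1 this with h | h
        · exact hx (pow_eq_zero_iff (by norm_num) |>.1 h)
        · exact hq h
  · subst hq
    have hA' : r ^ 4 * x = 0 := by linear_combination hA
    rcases mul_eq_zero.1 hA' with hr | hx
    · have hr0 : r = 0 := pow_eq_zero_iff (by norm_num) |>.1 hr
      subst hr0
      have hp : p ≠ 0 := fun h => ht' ⟨h, rfl, rfl⟩
      have hy : y = 0 := by
        have : p * y = 0 := by linear_combination hB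
        exact (mul_eq_zero.1 this).resolve_left hp
      have hx : x = 0 := by
        have : p * x = 0 := by linear_combination hC
        exact (mul_eq_zero.1 this).resolve_left hp
      have hz : z = 0 := by
        have : z * p = 0 := by subst hy; linear_combination h3
        exact (mul_eq_zero.1 this).resolve_right hp
      exact hs' ⟨hx, hy, hz⟩
    · subst hx
      by_cases hr : r = 0
      · subst hr
        have hp : p ≠ 0 := fun h => ht' ⟨h, rfl, rfl⟩
        have hy : y = 0 := by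
          have : p * y = 0 := by linear_combination hB
          exact (mul_eq_zero.1 this).resolve_left hp
        have hz : z = 0 := by
          have : z * p = 0 := by linear_combination h3
          exact (mul_eq_zero.1 this).resolve_right hp
        exact hs' ⟨rfl, hy, hz⟩
      · have hz : z = 0 := by
          have : z * r = 0 := by linear_combination hC
          exact (mul_eq_zero.1 this).resolve_right hr
        subst hz
        have : y * r ^ 4 = 0 := by linear_combination h3
        rcases mul_eq_zero.1 this with h | h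
        · exact hs' ⟨rfl, h, rfl⟩
        · exact hr (pow_eq_zero_iff (by norm_num) |>.1 h)

/-- **Row F1**, the stratum `s₁ = 0` (here `s 0 = 0`), `v = 0`. -/
lemma jac_S1 (h2 : (2 : K) = 0) (s t : Fin 3 → K) (u : K)
    (hst : s 0 * t 0 + s 1 * t 1 + s 2 * t 2 = 0) (hs : s ≠ 0) (ht : t ≠ 0)
    (h3 : u ^ 3 = f3 s t) (h7 : F7 s t u = 0) (h0 : s 0 = 0)
    (hm : ∀ i j : Fin 5, J3 s t u i * J7 s t 0 j = J3 s t u j * J7 s t 0 i) : False := by
  have m03 := hm 0 3
  have m12 := hm 1 2
  have m13 := hm 1 3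
  have m23 := hm 2 3
  simp only [J3, J7, Matrix.cons_val_zero, Matrix.cons_val_one, Matrix.cons_val] at m03 m12 m13 m23
  simp only [f3] at h3
  simp only [F7] at h7
  have hs' : ¬ (s 1 = 0 ∧ s 2 = 0) := by
    rintro ⟨a1, a2⟩
    apply hs
    funext i
    fin_cases i
    · exact h0
    · exact a1
    · exact a2
  have ht' : ¬ (t 0 = 0 ∧ t 1 = 0 ∧ t 2 = 0) := by
    rintro ⟨a0, a1, a2⟩
    apply ht
    funext i
    fin_cases i
    · exact a0
    · exact a1
    · exact a2
  rw [h0] at hst h3 h7 m03 m12 m13 m23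
  clear hm h0 hs ht
  generalize s 1 = y at *
  generalize s 2 = z at *
  generalize t 0 = p at *
  generalize t 1 = q at *
  generalize t 2 = r at *
  -- `y = s₁`, `z = s₂`, `p = t₀`, `q = t₁`, `r = t₂`
  by_cases hr : r = 0
  · subst hr
    have hyq : y * q = 0 := by linear_combination hst
    by_cases hq : q = 0
    · subst hq
      have hp : p ≠ 0 := fun h => ht' ⟨h, rfl, rfl⟩
      have e1 : y * p ^ 3 * z ^ 2 = 0 := by linear_combination m13
      have e2 : y * p ^ 4 + u * (z ^ 2 * p ^ 2) = 0 := by linear_combination h7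
      by_cases hz : z = 0
      · subst hz
        have : y * p ^ 4 = 0 := by linear_combination e2
        rcases mul_eq_zero.1 this with h | h
        · exact hs' ⟨h, rfl⟩
        · exact hp (pow_eq_zero_iff (by norm_num) |>.1 h)
      · have hy : y = 0 := by
          rcases mul_eq_zero.1 e1 with h | h
          · rcases mul_eq_zero.1 h with h | h
            · exact h
            · exact absurd (pow_eq_zero_iff (by norm_num) |>.1 h) hp
          · exact absurd (pow_eq_zero_iff (by norm_num) |>.1 h) hz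
        subst hy
        have hu : u = 0 := by
          have : u * (z ^ 2 * p ^ 2) = 0 := by linear_combination e2
          rcases mul_eq_zero.1 this with h | h
          · exact h
          · exact absurd h (mul_ne_zero (pow_ne_zero _ hz) (pow_ne_zero _ hp))
        subst hu
        have : z * p = 0 := by linear_combination -h3
        exact (mul_ne_zero hz hp) this
    · have hy : y = 0 := (mul_eq_zero.1 hyq).resolve_right hq
      subst hy
      have hz : z ≠ 0 := fun h => hs' ⟨rfl, h⟩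
      have hp : p = 0 := by
        have : z * q * (z ^ 2 * p ^ 2) = 0 := by linear_combination m03
        rcases mul_eq_zero.1 this with h | h
        · exact absurd h (mul_ne_zero hz hq)
        · rcases mul_eq_zero.1 h with h | h
          · exact absurd (pow_eq_zero_iff (by norm_num) |>.1 h) hz
          · exact pow_eq_zero_iff (by norm_num) |>.1 h
      subst hp
      have : z ^ 4 * q = 0 := by linear_combination h7
      exact (mul_ne_zero (pow_ne_zero _ hz) hq) this
  · have e12 : r ^ 2 * (z ^ 5 - y ^ 3 * p * r ^ 6) = 0 := by linear_combination -m12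
    have e12' : z ^ 5 = y ^ 3 * p * r ^ 6 :=
      sub_eq_zero.1 ((mul_eq_zero.1 e12).resolve_left (pow_ne_zero _ hr))
    have e23 : r * (z ^ 3 * p ^ 2 - u ^ 2 * y ^ 2 * r ^ 7) = 0 := by linear_combination m23
    have e23' : z ^ 3 * p ^ 2 = u ^ 2 * y ^ 2 * r ^ 7 :=
      sub_eq_zero.1 ((mul_eq_zero.1 e23).resolve_left hr)
    have e13 : z ^ 2 * (y * p ^ 3 - u ^ 2 * z ^ 2 * r) = 0 := by linear_combination m13
    by_cases hz : z = 0
    · subst hz
      have hy : y ≠ 0 := fun h => hs' ⟨h, rfl⟩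
      have hp : p = 0 := by
        have : y ^ 3 * p * r ^ 6 = 0 := by linear_combination -e12'
        rcases mul_eq_zero.1 this with h | h
        · rcases mul_eq_zero.1 h with h | h
          · exact absurd (pow_eq_zero_iff (by norm_num) |>.1 h) hy
          · exact h
        · exact absurd (pow_eq_zero_iff (by norm_num) |>.1 h) hr
      have hu : u = 0 := by
        have : u ^ 2 * (y ^ 2 * r ^ 7) = 0 := by linear_combination -e23'
        rcases mul_eq_zero.1 this with h | h
        · exact pow_eq_zero_iff (by norm_num) |>.1 h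
        · exact absurd h (mul_ne_zero (pow_ne_zero _ hy) (pow_ne_zero _ hr))
      subst hu
      have : y * r ^ 4 = 0 := by linear_combination -h3
      exact (mul_ne_zero hy (pow_ne_zero _ hr)) this
    · have hyp : y ^ 3 * p * r ^ 6 ≠ 0 := by rw [← e12']; exact pow_ne_zero _ hz
      have hy : y ≠ 0 := by rintro rfl; simp at hyp
      have hp : p ≠ 0 := by rintro rfl; simp at hyp
      have e13' : y * p ^ 3 = u ^ 2 * z ^ 2 * r :=
        sub_eq_zero.1 ((mul_eq_zero.1 e13).resolve_left (pow_ne_zero _ hz))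
      -- `u z² = y p²`
      have e4 : y * p ^ 2 * (y * p ^ 2 + u * z ^ 2) = 0 := by
        linear_combination y * h7 - z ^ 4 * hst + r * e12'
      have e4' : u * z ^ 2 = y * p ^ 2 := by
        have := (mul_eq_zero.1 e4).resolve_left (mul_ne_zero hy (pow_ne_zero _ hp))
        linear_combination this - y * p ^ 2 * h2
      -- `z² = y p r`
      have e5 : y * p ^ 3 * (z ^ 2 - y * p * r) = 0 := by
        linear_combination z ^ 2 * e13' + r * (u * z ^ 2 + y * p ^ 2) * e4'
      have e5' : z ^ 2 = y * p * r :=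
        sub_eq_zero.1 ((mul_eq_zero.1 e5).resolve_left (mul_ne_zero hy (pow_ne_zero _ hp)))
      -- `z p = y r⁴`
      have e6 : y ^ 2 * p * r ^ 2 * (z * p - y * r ^ 4) = 0 := by
        linear_combination e12' - z * (z ^ 2 + y * p * r) * e5'
      have e6' : z * p = y * r ^ 4 :=
        sub_eq_zero.1 ((mul_eq_zero.1 e6).resolve_left
          (mul_ne_zero (mul_ne_zero (pow_ne_zero _ hy) hp) (pow_ne_zero _ hr)))
      have hu : u = 0 := by
        have : u ^ 3 = 0 := by linear_combination h3 + e6' + y * r ^ 4 * h2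
        exact pow_eq_zero_iff (by norm_num) |>.1 this
      subst hu
      have : y * p ^ 2 = 0 := by linear_combination -e4'
      exact (mul_ne_zero hy (pow_ne_zero _ hp)) this


/-- helper for F2: the symmetry `s i ↔ t (2 - i)` exchanges the first two columns. -/
lemma F2_J3_swap {R : Type} [CommRing R] (s t : Fin 3 → R) (u : R) (i : Fin 5) :
    J3 ![t 2, t 1, t 0] ![s 2, s 1, s 0] u i = J3 s t u (Equiv.swap 0 1 i) := by
  fin_cases i
  · simp [J3, Equiv.swap_apply_left]; ring
  · simp [J3, Equiv.swap_apply_right]; ring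
  · have : Equiv.swap (0 : Fin 5) 1 2 = 2 := by decide
    simp [J3, this]; ring
  · have : Equiv.swap (0 : Fin 5) 1 3 = 3 := by decide
    simp [J3, this]
  · have : Equiv.swap (0 : Fin 5) 1 4 = 4 := by decide
    simp [J3, this]

lemma F2_J7_swap {R : Type} [CommRing R] (s t : Fin 3 → R) (v : R) (i : Fin 5) :
    J7 ![t 2, t 1, t 0] ![s 2, s 1, s 0] v i = J7 s t v (Equiv.swap 0 1 i) := by
  fin_cases i
  · simp [J7, Equiv.swap_apply_left]; ring
  · simp [J7, Equiv.swap_apply_right]; ring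
  · have : Equiv.swap (0 : Fin 5) 1 2 = 2 := by decide
    simp [J7, this]; ring
  · have : Equiv.swap (0 : Fin 5) 1 3 = 3 := by decide
    simp [J7, this]; ring
  · have : Equiv.swap (0 : Fin 5) 1 4 = 4 := by decide
    simp [J7, this]

/-- **Row F2**, the stratum `t₃ = 0` (here `t 2 = 0`), `v = 0`.  (Symmetric to `jac_S1` under
`s i ↔ t (2 - i)`.) -/
lemma jac_S2 (h2 : (2 : K) = 0) (s t : Fin 3 → K) (u : K)
    (hst : s 0 * t 0 + s 1 * t 1 + s 2 * t 2 = 0) (hs : s ≠ 0) (ht : t ≠ 0)
    (h3 : u ^ 3 = f3 s t) (h7 : F7 s t u = 0) (h0 : t 2 = 0)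
    (hm : ∀ i j : Fin 5, J3 s t u i * J7 s t 0 j = J3 s t u j * J7 s t 0 i) : False := by
  refine jac_S1 h2 ![t 2, t 1, t 0] ![s 2, s 1, s 0] u ?_ ?_ ?_ ?_ ?_ ?_ ?_
  · simp only [Matrix.cons_val_zero, Matrix.cons_val_one, Matrix.cons_val]
    linear_combination hst
  · intro h
    apply ht
    have a0 := congrFun h 0
    have a1 := congrFun h 1
    have a2 := congrFun h 2
    simp only [Matrix.cons_val_zero, Matrix.cons_val_one, Matrix.cons_val, Pi.zero_apply]
      at a0 a1 a2
    funext i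
    fin_cases i
    · exact a2
    · exact a1
    · exact a0
  · intro h
    apply hs
    have a0 := congrFun h 0
    have a1 := congrFun h 1
    have a2 := congrFun h 2
    simp only [Matrix.cons_val_zero, Matrix.cons_val_one, Matrix.cons_val, Pi.zero_apply]
      at a0 a1 a2
    funext i
    fin_cases i
    · exact a2
    · exact a1
    · exact a0
  · rw [h3]
    simp only [f3, Matrix.cons_val_zero, Matrix.cons_val_one, Matrix.cons_val]
    ring
  · rw [← h7]
    simp only [F7, Matrix.cons_val_zero, Matrix.cons_val_one, Matrix.cons_val]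
    ring
  · exact h0
  · intro i j
    rw [F2_J3_swap, F2_J7_swap, F2_J3_swap, F2_J7_swap]
    exact hm _ _

private lemma jacY_char (h2 : (2 : K) = 0) (x y : K) (h : x ^ 2 = y ^ 2) : x = y := by
  have h' : (x - y) ^ 2 = 0 := by grind
  have := pow_eq_zero_iff (two_ne_zero) |>.mp h'
  exact sub_eq_zero.mp this

/-- the multiplier form of the minor conditions. -/
private lemma jacY_mult (h2 : (2 : K) = 0) (a b c e u : K) (hst : e + a * c + b = 0)
    (hm : ∀ i j : Fin 5, J3 ![1, a, b] ![e, c, 1] u i * J7 ![1, a, b] ![e, c, 1] 0 j =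
      J3 ![1, a, b] ![e, c, 1] u j * J7 ![1, a, b] ![e, c, 1] 0 i) :
    ∃ y : K, e ^ 4 + a ^ 2 * c = y * (1 + b * c) ∧ c ^ 2 * a + b ^ 4 = y * (e * a + 1) ∧
      c ^ 2 + a ^ 2 = y * (e + b) ∧ b ^ 2 * e ^ 2 + 1 = y * u ^ 2 := by
  have key : ∀ i : Fin 5, J3 ![1, a, b] ![e, c, 1] u i ≠ 0 →
      ∃ y : K, ∀ j, J7 ![1, a, b] ![e, c, 1] 0 j = y * J3 ![1, a, b] ![e, c, 1] u j := by
    intro i hi
    refine ⟨J7 ![1, a, b] ![e, c, 1] 0 i / J3 ![1, a, b] ![e, c, 1] u i, fun j => ?_⟩
    field_simp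
    linear_combination hm i j
  have hex : ∃ i : Fin 5, J3 ![1, a, b] ![e, c, 1] u i ≠ 0 := by
    by_contra hcon
    push Not at hcon
    have e0 := hcon 0
    have e1 := hcon 1
    have e2 := hcon 2
    simp [J3] at e0 e1 e2
    grind
  obtain ⟨i, hi⟩ := hex
  obtain ⟨y, hy⟩ := key i hi
  have e0 := hy 0
  have e1 := hy 1
  have e2 := hy 2
  have e3 := hy 3
  simp [J3, J7] at e0 e1 e2 e3
  exact ⟨y, e0, e1, e2, e3⟩

/-- the final contradiction in `𝔽₂[M]`. -/
private lemma jacY_fin (h2 : (2 : K) = 0) (M : K) (h11 : M ^ 11 = M ^ 5 + 1)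
    (h27 : M ^ 27 * (1 + M ^ 6) ^ 2 = (1 + M ^ 6) ^ 3) : False := by
  by_cases h6 : 1 + M ^ 6 = 0
  · have h3 : M ^ 3 = 1 := by
      apply jacY_char h2
      linear_combination (h6 - h2)
    have hA : M ^ 11 = M ^ 2 := by
      linear_combination (M ^ 8 + M ^ 5 + M ^ 2) * h3
    have hB : M ^ 5 = M ^ 2 := by linear_combination M ^ 2 * h3
    have : (1 : K) = 0 := by linear_combination -h11 + hA - hB
    exact one_ne_zero this
  · have h27' : M ^ 27 = 1 + M ^ 6 := by
      have h6' : (1 + M ^ 6) ^ 2 ≠ 0 := pow_ne_zero _ h6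
      apply mul_right_cancel₀ h6'
      linear_combination h27
    have h9 : M ^ 9 + M ^ 6 + M ^ 5 + M ^ 4 + 1 = 0 := by
      linear_combination (-1) * h27' + (M ^ 5 * (M ^ 11 + M ^ 5 + 1) + M ^ 4) * h11 +
        (M ^ 10 + M ^ 9 + M ^ 5 + M ^ 4) * h2
    have : (1 : K) = 0 := by
      linear_combination (M ^ 8 + M ^ 6 + M ^ 5 + M ^ 3 + M ^ 2 + M) * h11 +
        (M ^ 10 + M ^ 8 + M ^ 6 + M ^ 5 + M ^ 4 + M ^ 3 + M ^ 2 + M + 1) * h9 +
        (-M ^ 19 - M ^ 17 - M ^ 16 - M ^ 15 - 2 * M ^ 14 - M ^ 13 - 2 * M ^ 12 - M ^ 11 -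
          2 * M ^ 10 - 2 * M ^ 9 - M ^ 8 - M ^ 7 - M ^ 6 - M ^ 5 - M ^ 4) * h2
    exact one_ne_zero this

/-- **Row F3**, the open stratum `s₁ t₃ ≠ 0`, after scaling to `s₁ = t₃ = 1`:
`s = (1, a, b)`, `t = (e, c, 1)`, `e + b = a c`. -/
lemma jac_Y (h2 : (2 : K) = 0) (a b c e u : K) (hst : e + a * c + b = 0)
    (h3 : u ^ 3 = f3 ![1, a, b] ![e, c, 1]) (h7 : F7 ![1, a, b] ![e, c, 1] u = 0)
    (hm : ∀ i j : Fin 5, J3 ![1, a, b] ![e, c, 1] u i * J7 ![1, a, b] ![e, c, 1] 0 j =
      J3 ![1, a, b] ![e, c, 1] u j * J7 ![1, a, b] ![e, c, 1] 0 i) : False := by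
  obtain ⟨y, e1, e2, e3, e4⟩ := jacY_mult h2 a b c e u hst hm
  have h3' : u ^ 3 = b * e + a + c := by
    rw [h3]; simp [f3]
  have h7' : a * e ^ 4 + b ^ 4 * c + u * (b ^ 2 * e ^ 2) + a ^ 2 * e + b * c ^ 2 + u = 0 := by
    rw [← h7]; simp [F7]
  clear h3 h7 hm
  obtain ⟨x, hx⟩ : ∃ x, x = a ^ 2 + b * y := ⟨_, rfl⟩
  have g1 : e ^ 4 = c * x + y := by grind
  have g2 : c ^ 2 = x + e * y := by grind
  have g3 : b ^ 4 = a * x + y := by grind
  have g4 : a ^ 2 = x + b * y := by grind
  have hM : e + b = a * c := by grind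
  have k1 : (a * c) ^ 4 = (a + c) * x := by
    have : (e + b) ^ 4 = (a + c) * x := by grind
    rw [← hM, this]
  have k2 : (a + c) ^ 2 = (a * c) * y := by
    rw [← hM]; grind
  have k3 : (b * e) * y = (a * c) * x := by
    have : a * e ^ 4 + b ^ 4 * c + u * (y * u ^ 2) + a ^ 2 * e + b * c ^ 2 = 0 := by
      rw [← e4]; linear_combination h7'
    have hh : a * (c * x + y) + (a * x + y) * c + (b * e + a + c) * y + (x + b * y) * e +
        b * (x + e * y) = 0 := by
      rw [← g1, ← g2, ← g3, ← g4, ← h3']; linear_combination this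
    rw [← hM]
    grind
  have k4 : x = a * c := by
    apply jacY_char h2
    have : (a * c) ^ 2 = (x + b * y) * (x + e * y) := by
      rw [← g2, ← g4]; ring
    rw [this]
    have h5 : (b + e) * x * y = (a * c) * x * y := by rw [← hM]; ring
    linear_combination (-1) * h5 - y * k3 + (-a * c * x * y) * h2
  subst k4
  clear hx
  by_cases hM0 : a * c = 0
  · rw [hM0] at g1 g2 g3 g4 k2 hM
    have hA : a + c = 0 := by
      have : (a + c) ^ 2 = 0 := by rw [k2]; ring
      exact pow_eq_zero_iff (two_ne_zero) |>.mp this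
    have hb : b = e := by grind
    subst hb
    have hy : (b ^ 2) ^ 2 = y := by linear_combination g1
    have hb6 : b ^ 6 = 0 := by
      rw [← hy] at k3
      rw [hM0] at k3
      linear_combination k3
    have hb0 : b = 0 := pow_eq_zero_iff (by norm_num) |>.mp hb6
    subst hb0
    have hy0 : y = 0 := by rw [← hy]; ring
    rw [hy0] at e4
    apply one_ne_zero (α := K)
    linear_combination e4
  · have l1 : a + c = (a * c) ^ 3 := by
      apply mul_right_cancel₀ hM0
      linear_combination -k1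
    have l2 : y = (a * c) ^ 5 := by
      apply mul_left_cancel₀ hM0
      rw [← k2, l1]; ring
    have l3 : b * e * (a * c) ^ 3 = 1 := by
      apply mul_right_cancel₀ (pow_ne_zero 2 hM0)
      rw [l2] at k3
      linear_combination k3
    have l4 : c = e * (a * c) ^ 2 := by
      apply mul_right_cancel₀ (pow_ne_zero 3 hM0)
      rw [← l1]
      rw [l2] at g2
      rw [l1]
      have : c * (a + c) = e * (a * c) ^ 5 := by
        linear_combination g2 + a * c * h2
      rw [l1] at this
      linear_combination this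
    obtain ⟨M, hMdef⟩ : ∃ M, M = a * c := ⟨_, rfl⟩
    rw [l2] at g1 e4
    rw [← hMdef] at hM0 l1 l3 l4 g1 e4

    have m1 : c ^ 4 = c * M ^ 9 + M ^ 13 := by
      have : c ^ 4 = e ^ 4 * M ^ 8 := by
        calc c ^ 4 = (e * M ^ 2) ^ 4 := by rw [← l4]
          _ = e ^ 4 * M ^ 8 := by ring
      rw [this, g1]; ring
    have m2 : c ^ 2 = M ^ 3 * c + M := by
      rw [← l1]
      linear_combination (-1) * hMdef + (-a * c) * h2 
    have m3 : M ^ 11 = M ^ 5 + 1 := by
      have : M ^ 13 = M ^ 7 + M ^ 2 := by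
        have h4 : c ^ 4 = (M ^ 3 * c + M) ^ 2 := by rw [← m2]; ring
        grind
      apply mul_right_cancel₀ (pow_ne_zero 2 hM0)
      linear_combination this
    have m4 : M ^ 27 * (1 + M ^ 6) ^ 2 = (1 + M ^ 6) ^ 3 := by
      have n1 : ((b * e) ^ 2 + 1) ^ 3 = M ^ 15 * (b * e + M ^ 3) ^ 2 := by
        rw [← l1, show b * e + (a + c) = u ^ 3 by rw [h3']; ring,
          show (b * e) ^ 2 + 1 = M ^ 5 * u ^ 2 by rw [← e4]; ring]
        ring
      have n2 : (b * e) ^ 2 * M ^ 6 = 1 := by
        calc (b * e) ^ 2 * M ^ 6 = (b * e * M ^ 3) ^ 2 := by ring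
          _ = 1 := by rw [l3]; ring
      have n3 : (1 + M ^ 6) ^ 3 = (((b * e) ^ 2 + 1) * M ^ 6) ^ 3 := by
        congr 1; rw [add_mul, n2]; ring
      rw [n3, mul_pow, n1]
      have n4 : (b * e + M ^ 3) ^ 2 = (b * e) ^ 2 + M ^ 6 := by
        linear_combination (b * e * M ^ 3) * h2
      rw [n4]
      calc M ^ 27 * (1 + M ^ 6) ^ 2 = M ^ 27 * (1 + M ^ 12) := by
            linear_combination (M ^ 33) * h2
        _ = M ^ 15 * ((b * e) ^ 2 * M ^ 6 + M ^ 12) * M ^ 12 := by rw [n2]; ring
        _ = _ := by ring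
    exact jacY_fin h2 M m3 m4

/-- helper for F4: the weights of the columns. -/
def F4_W (x r : K) : Fin 5 → K := ![x * r ^ 4, x ^ 4 * r, x ^ 2 * r ^ 2, x ^ 2 * r ^ 2, x ^ 3 * r ^ 3]

lemma F4_W_ne {x r : K} (hx : x ≠ 0) (hr : r ≠ 0) (i : Fin 5) : F4_W x r i ≠ 0 := by
  fin_cases i <;> simp [F4_W, hx, hr]

lemma F4_J3 {x r : K} (hx : x ≠ 0) (hr : r ≠ 0) (a b c e u : K) (i : Fin 5) :
    J3 ![x, a * x ^ 3 * r⁻¹, b * x ^ 2 * r] ![e * x * r ^ 2, c * r ^ 3 * x⁻¹, r] (u * x * r) i =
      F4_W x r i * J3 ![1, a, b] ![e, c, 1] u i := by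
  fin_cases i <;>
    simp only [J3, F4_W, Matrix.cons_val_zero, Matrix.cons_val_one, Matrix.cons_val, Fin.mk_zero,
      Fin.mk_one, Fin.reduceFinMk] <;> field_simp <;> try ring

lemma F4_J7 {x r : K} (hx : x ≠ 0) (hr : r ≠ 0) (a b c e : K) (i : Fin 5) :
    J7 ![x, a * x ^ 3 * r⁻¹, b * x ^ 2 * r] ![e * x * r ^ 2, c * r ^ 3 * x⁻¹, r] 0 i =
      (x * r) ^ 4 * F4_W x r i * J7 ![1, a, b] ![e, c, 1] 0 i := by
  fin_cases i <;>
    simp only [J7, F4_W, Matrix.cons_val_zero, Matrix.cons_val_one, Matrix.cons_val, Fin.mk_zero,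
      Fin.mk_one, Fin.reduceFinMk] <;> field_simp <;> try ring

/-- **Row F4**: reduction of the general case of the open stratum to `jac_Y` by the torus action
(`a = s₂ t₃ / s₁³`, `b = s₃ / (s₁² t₃)`, `e = t₁ / (s₁ t₃²)`, `c = t₂ s₁ / t₃³`,
`u' = u / (s₁ t₃)`). -/
lemma jac_Y' (h2 : (2 : K) = 0) (s t : Fin 3 → K) (u : K)
    (hst : s 0 * t 0 + s 1 * t 1 + s 2 * t 2 = 0) (h0 : s 0 ≠ 0) (h0' : t 2 ≠ 0)
    (h3 : u ^ 3 = f3 s t) (h7 : F7 s t u = 0)
    (hm : ∀ i j : Fin 5, J3 s t u i * J7 s t 0 j = J3 s t u j * J7 s t 0 i) : False := by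
  set x := s 0 with hx
  set r := t 2 with hr
  set a := s 1 * r / x ^ 3 with ha
  set b := s 2 / (x ^ 2 * r) with hb
  set e := t 0 / (x * r ^ 2) with he
  set c := t 1 * x / r ^ 3 with hc
  set w := u / (x * r) with hw
  have hs : s = ![x, a * x ^ 3 * r⁻¹, b * x ^ 2 * r] := by
    funext i
    fin_cases i
    · rfl
    · simp only [ha, Fin.mk_one, Matrix.cons_val_one, Matrix.cons_val_zero]; field_simp
    · simp only [hb, Fin.reduceFinMk, Matrix.cons_val]; field_simp
  have ht : t = ![e * x * r ^ 2, c * r ^ 3 * x⁻¹, r] := by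
    funext i
    fin_cases i
    · simp only [he, Fin.mk_zero, Matrix.cons_val_zero]; field_simp
    · simp only [hc, Fin.mk_one, Matrix.cons_val_one, Matrix.cons_val_zero]; field_simp
    · rfl
  have hu : u = w * x * r := by rw [hw]; field_simp
  have hst' : e + a * c + b = 0 := by
    rw [he, ha, hc, hb]
    field_simp
    linear_combination hst
  clear_value a b c e w x r
  refine jac_Y h2 a b c e w hst' ?_ ?_ ?_
  · have h := h3
    rw [hs, ht, hu] at h
    simp only [f3, Matrix.cons_val_zero, Matrix.cons_val_one, Matrix.cons_val] at h ⊢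
    field_simp at h
    linear_combination h
  · have h := h7
    rw [hs, ht, hu] at h
    simp only [F7, Matrix.cons_val_zero, Matrix.cons_val_one, Matrix.cons_val] at h ⊢
    field_simp at h
    have h' := (mul_eq_zero.1 h).resolve_left
      (mul_ne_zero (pow_ne_zero _ h0) (pow_ne_zero _ h0'))
    linear_combination h'
  · intro i j
    have h := hm i j
    rw [hs, ht, hu, F4_J3 h0 h0', F4_J3 h0 h0', F4_J7 h0 h0', F4_J7 h0 h0'] at h
    have hne : (x * r) ^ 4 * F4_W x r i * F4_W x r j ≠ 0 :=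
      mul_ne_zero (mul_ne_zero (pow_ne_zero _ (mul_ne_zero h0 h0')) (F4_W_ne h0 h0' i))
        (F4_W_ne h0 h0' j)
    apply mul_left_cancel₀ hne
    linear_combination h

/-- the Jacobian criterion: the `2 × 2` minors have no common zero. -/
lemma jac_field (h2 : (2 : K) = 0) (s t : Fin 3 → K) (u v : K)
    (hst : s 0 * t 0 + s 1 * t 1 + s 2 * t 2 = 0) (hs : s ≠ 0) (ht : t ≠ 0)
    (h3 : u ^ 3 = f3 s t) (h7 : v ^ 7 = F7 s t u) :
    ∃ i j : Fin 5, J3 s t u i * J7 s t v j ≠ J3 s t u j * J7 s t v i := by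
  by_contra hcon
  push Not at hcon
  by_cases hv : v = 0
  · subst hv
    have h7' : F7 s t u = 0 := by rw [← h7]; ring
    by_cases h0 : s 0 = 0
    · exact jac_S1 h2 s t u hst hs ht h3 h7' h0 hcon
    · by_cases h0' : t 2 = 0
      · exact jac_S2 h2 s t u hst hs ht h3 h7' h0' hcon
      · exact jac_Y' h2 s t u hst h0 h0' h3 h7' hcon
  · have e0 := hcon 0 4
    have e1 := hcon 1 4
    have e2 := hcon 2 4
    have e3 := hcon 3 4
    simp only [J3, J7, Matrix.cons_val_zero, Matrix.cons_val_one, Matrix.cons_val,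
      zero_mul, mul_eq_zero, pow_eq_zero_iff, hv, or_false, ne_eq, OfNat.ofNat_ne_zero,
      not_false_eq_true] at e0 e1 e2 e3
    apply jac_f3 h2 s t hst hs ht _ e0 e1 e2
    rw [← h3, e3]; ring

end Pool.Agent.Lib.MP_023d06_ag
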