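import Pool.Agent.Lib.MP_023d06_ag.RingB
import Pool.Agent.Lib.MP_023d06_ag.Jac

/-!
# Row SG: the homomorphism `k[SL_3] → B` of `γ : T ⟶ SL_3` is smooth
-/

namespace Pool.Agent.Lib.MP_023d06_ag

section SG1

lemma SG1_J3 {R R' : Type} [CommRing R] [CommRing R'] (f : R →+* R') (s t : Fin 3 → R) (u : R)
    (i : Fin 5) : J3 (fun i => f (s i)) (fun i => f (t i)) (f u) i = f (J3 s t u i) := by
  fin_cases i <;> simp [J3]

lemma SG1_J7 {R R' : Type} [CommRing R] [CommRing R'] (f : R →+* R') (s t : Fin 3 → R) (v : R)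
    (i : Fin 5) : J7 (fun i => f (s i)) (fun i => f (t i)) (f v) i = f (J7 s t v i) := by
  fin_cases i <;> simp [J7]

lemma SG1_s {K : Type} [Field K] (g : SL K) : sv g ≠ 0 := by
  intro h
  have h1 : (g : Matrix (Fin 3) (Fin 3) K).det = 0 :=
    Matrix.det_eq_zero_of_column_eq_zero 0 (fun i => congrFun h i)
  rw [g.2] at h1
  exact one_ne_zero h1

lemma SG1_t {K : Type} [Field K] (g : SL K) : tv g ≠ 0 := by
  intro h
  have h1 : ((g⁻¹ : SL K) : Matrix (Fin 3) (Fin 3) K).det = 0 :=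
    Matrix.det_eq_zero_of_row_eq_zero 2 (fun i => congrFun h i)
  rw [(g⁻¹ : SL K).2] at h1
  exact one_ne_zero h1

end SG1

/-- The `2 × 2` minors of the Jacobian matrix generate the unit ideal, over any ring `R` of
characteristic 2 and for `T ∈ Tup R` (pass to the quotient by a maximal ideal and use
`jac_field`; `s ≠ 0`, `t ≠ 0` since they are a column/row of an invertible matrix). -/
lemma minors_unit {R : Type} [CommRing R] (h2 : (2 : R) = 0) (T : Tup R) :
    ∃ c : Fin 5 → Fin 5 → R, ∑ i, ∑ j, c i j *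
      (J3 (sv T.g) (tv T.g) T.u i * J7 (sv T.g) (tv T.g) T.v j -
        J3 (sv T.g) (tv T.g) T.u j * J7 (sv T.g) (tv T.g) T.v i) = 1 := by
  set m : Fin 5 × Fin 5 → R := fun p => J3 (sv T.g) (tv T.g) T.u p.1 *
    J7 (sv T.g) (tv T.g) T.v p.2 - J3 (sv T.g) (tv T.g) T.u p.2 * J7 (sv T.g) (tv T.g) T.v p.1
    with hm
  have htop : Ideal.span (Set.range m) = ⊤ := by
    by_contra hne
    obtain ⟨M, hM, hle⟩ := Ideal.exists_le_maximal _ hne
    let _ : Field (R ⧸ M) := Ideal.Quotient.field M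
    set f : R →+* R ⧸ M := Ideal.Quotient.mk M with hf
    have e1 : sv (T.map f).g = fun i => f (sv T.g i) := by
      funext i; exact Tup.sv_map f T.g i
    have e2 : tv (T.map f).g = fun i => f (tv T.g i) := by
      funext i; exact Tup.tv_map f T.g i
    have h2' : (2 : R ⧸ M) = 0 := by
      have := congrArg f h2
      rwa [map_ofNat, map_zero] at this
    obtain ⟨i, j, hij⟩ := jac_field h2' (sv (T.map f).g) (tv (T.map f).g) (T.map f).u (T.map f).v
      (sv_dot_tv _) (SG1_s _) (SG1_t _) (T.map f).eq1 (T.map f).eq2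
    apply hij
    have h3 : f (m (i, j)) = 0 :=
      Ideal.Quotient.eq_zero_iff_mem.mpr (hle (Ideal.subset_span ⟨(i, j), rfl⟩))
    rw [e1, e2]
    have e3 : (T.map f).u = f T.u := rfl
    have e4 : (T.map f).v = f T.v := rfl
    rw [e3, e4, SG1_J3, SG1_J3, SG1_J7, SG1_J7, ← sub_eq_zero, ← map_mul, ← map_mul, ← map_sub]
    exact h3
  have h1 : (1 : R) ∈ Ideal.span (Set.range m) := by rw [htop]; trivial
  rw [Ideal.span, Submodule.mem_span_range_iff_exists_fun] at h1
  obtain ⟨c, hc⟩ := h1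
  refine ⟨fun i j => c (i, j), ?_⟩
  rw [Fintype.sum_prod_type] at hc
  simpa [hm] using hc

/-- a right inverse of the Jacobian matrix on error vectors. -/
lemma jac_solve {R : Type} [CommRing R] (x y : Fin 5 → R) (c : Fin 5 → Fin 5 → R)
    (hc : ∑ i, ∑ j, c i j * (x i * y j - x j * y i) = 1) (I : Ideal R) (e1 e2 : R)
    (h1 : e1 ∈ I) (h2 : e2 ∈ I) :
    ∃ d : Fin 5 → R, (∀ i, d i ∈ I) ∧ ∑ i, x i * d i = e1 ∧ ∑ i, y i * d i = e2 := by
  refine ⟨fun i => (∑ j, (c i j - c j i) * y j) * e1 - (∑ j, (c i j - c j i) * x j) * e2,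
    fun i => I.sub_mem (I.mul_mem_left _ h1) (I.mul_mem_left _ h2), ?_, ?_⟩
  · simp only [Fin.sum_univ_five] at hc ⊢
    linear_combination e1 * hc
  · simp only [Fin.sum_univ_five] at hc ⊢
    linear_combination e2 * hc

section GamLift

variable {C : Type} [CommRing C]

lemma sg2_mul_eq_zero {I : Ideal C} (hI : I ^ 2 = ⊥) {a b : C} (ha : a ∈ I) (hb : b ∈ I) :
    a * b = 0 := by
  have h : a * b ∈ I ^ 2 := by
    rw [pow_two]; exact Ideal.mul_mem_mul ha hb
  rwa [hI, Ideal.mem_bot] at h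

lemma sg2_sq (h2 : (2 : C) = 0) {I : Ideal C} (hI : I ^ 2 = ⊥) (a : C) {e : C} (he : e ∈ I) :
    (a + e) ^ 2 = a ^ 2 := by
  have h := sg2_mul_eq_zero hI he he
  linear_combination (a * e) * h2 + h

lemma sg2_low_mul (r η : Fin 3 → C) :
    Tup.low ![r 0 - η 0, r 1 - r 2 * η 0 + (η 0 * η 2 - η 1), r 2 - η 2] * Tup.low η =
      Tup.low r := by
  ext i j
  rw [Matrix.SpecialLinearGroup.coe_mul]
  simp only [Matrix.mul_apply, Fin.sum_univ_three, Tup.low]
  fin_cases i <;> fin_cases j <;> simp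
  ring

lemma sg2_sv (η : Fin 3 → C) (g : SL C) :
    sv (Tup.low η * g) = ![sv g 0, sv g 1 + η 0 * sv g 0,
      sv g 2 + (η 1 * sv g 0 + η 2 * sv g 1)] := by
  funext i
  simp only [sv, Matrix.SpecialLinearGroup.coe_mul, Matrix.mul_apply, Fin.sum_univ_three, Tup.low]
  fin_cases i <;> simp <;> ring

lemma sg2_tv (η : Fin 3 → C) (g : SL C) :
    tv (Tup.low η * g) = ![tv g 0 + (-(η 0 * tv g 1) - η 1 * tv g 2 + η 0 * η 2 * tv g 2),
      tv g 1 + (-(η 2 * tv g 2)), tv g 2] := by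
  funext i
  fin_cases i
  · simp [tv_zero, tv_one, tv_two, Matrix.mul_apply, Fin.sum_univ_three, Tup.low]; ring
  · simp [tv_zero, tv_one, tv_two, Matrix.mul_apply, Fin.sum_univ_three, Tup.low]; ring
  · simp [tv_zero, tv_one, tv_two, Matrix.mul_apply, Fin.sum_univ_three, Tup.low]; ring

/-- the first equation after an infinitesimal change. -/
lemma sg2_eq1 (h2 : (2 : C) = 0) {I : Ideal C} (hI : I ^ 2 = ⊥) (g : SL C) (u : C)
    (d : Fin 5 → C) (hd : ∀ i, d i ∈ I) :
    (u + d 3) ^ 3 - f3 (sv (Tup.low ![d 0, d 2, d 1] * g)) (tv (Tup.low ![d 0, d 2, d 1] * g)) =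
      u ^ 3 - f3 (sv g) (tv g) + ∑ i, J3 (sv g) (tv g) u i * d i := by
  have hu := sg2_sq h2 hI u (hd 3)
  have hp : (u + d 3) ^ 3 = u ^ 3 + u ^ 2 * d 3 := by
    have : (u + d 3) ^ 3 = (u + d 3) ^ 2 * (u + d 3) := by ring
    rw [this, hu]; ring
  have h01 := sg2_mul_eq_zero hI (hd 0) (hd 1)
  have h02 := sg2_mul_eq_zero hI (hd 0) (hd 2)
  have h00 := sg2_mul_eq_zero hI (hd 0) (hd 0)
  have h11 := sg2_mul_eq_zero hI (hd 1) (hd 1)
  have h12 := sg2_mul_eq_zero hI (hd 1) (hd 2)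
  have h22 := sg2_mul_eq_zero hI (hd 2) (hd 2)
  rw [hp, sg2_sv, sg2_tv]
  simp only [f3, J3, Fin.sum_univ_five, Matrix.cons_val_zero, Matrix.cons_val_one,
    Matrix.cons_val]
  generalize sv g 0 = s0
  generalize sv g 1 = s1
  generalize sv g 2 = s2
  generalize tv g 0 = t0
  generalize tv g 1 = t1
  generalize tv g 2 = t2
  linear_combination (-s0 * t2 ^ 4 * d 0 - s1 * t0 * d 1 - s0 * t0 * d 2) * h2
    + (-s2 * t2 + s1 * t1 - (d 2 * s0 + d 1 * s1) * t2) * h01 + s0 * t1 * h02 + s0 * t2 * h22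
    + s1 * t2 * h12

/-- the second equation after an infinitesimal change. -/
lemma sg2_eq2 (h2 : (2 : C) = 0) {I : Ideal C} (hI : I ^ 2 = ⊥) (g : SL C) (u v : C)
    (d : Fin 5 → C) (hd : ∀ i, d i ∈ I) :
    (v + d 4) ^ 7 - F7 (sv (Tup.low ![d 0, d 2, d 1] * g)) (tv (Tup.low ![d 0, d 2, d 1] * g))
        (u + d 3) =
      v ^ 7 - F7 (sv g) (tv g) u + ∑ i, J7 (sv g) (tv g) v i * d i := by
  have hv := sg2_sq h2 hI v (hd 4)
  have hp : (v + d 4) ^ 7 = v ^ 7 + v ^ 6 * d 4 := by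
    have : (v + d 4) ^ 7 = ((v + d 4) ^ 2) ^ 3 * (v + d 4) := by ring
    rw [this, hv]; ring
  have h01 := sg2_mul_eq_zero hI (hd 0) (hd 1)
  rw [hp, sg2_sv, sg2_tv]
  simp only [F7, J7, Fin.sum_univ_five, Matrix.cons_val_zero, Matrix.cons_val_one,
    Matrix.cons_val]
  generalize sv g 0 = s0
  generalize sv g 1 = s1
  generalize sv g 2 = s2
  generalize tv g 0 = t0
  generalize tv g 1 = t1
  generalize tv g 2 = t2
  have ha1 : d 0 * s0 ∈ I := I.mul_mem_right _ (hd 0)
  have ha2 : d 2 * s0 + d 1 * s1 ∈ I := I.add_mem (I.mul_mem_right _ (hd 2))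
    (I.mul_mem_right _ (hd 1))
  have hb0 : -(d 0 * t1) - d 2 * t2 + d 0 * d 1 * t2 ∈ I :=
    I.add_mem (I.sub_mem (I.neg_mem (I.mul_mem_right _ (hd 0))) (I.mul_mem_right _ (hd 2)))
      (I.mul_mem_right _ (I.mul_mem_right _ (hd 0)))
  have hb1 : -(d 1 * t2) ∈ I := I.neg_mem (I.mul_mem_right _ (hd 1))
  have ea1 := sg2_sq h2 hI s1 ha1
  have ea2 := sg2_sq h2 hI s2 ha2
  have eb0 := sg2_sq h2 hI t0 hb0
  have eb1 := sg2_sq h2 hI t1 hb1
  have ea2' : (s2 + (d 2 * s0 + d 1 * s1)) ^ 4 = s2 ^ 4 := by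
    have : ∀ z : C, z ^ 4 = (z ^ 2) ^ 2 := fun z => by ring
    rw [this, ea2, ← this]
  have eb0' : (t0 + (-(d 0 * t1) - d 2 * t2 + d 0 * d 1 * t2)) ^ 4 = t0 ^ 4 := by
    have : ∀ z : C, z ^ 4 = (z ^ 2) ^ 2 := fun z => by ring
    rw [this, eb0, ← this]
  rw [ea2', eb0', ea1, ea2, eb0, eb1]
  linear_combination (-s0 * t0 ^ 4 * d 0 - s0 ^ 7 * t1 ^ 2 * s1 * d 1
    - s0 ^ 8 * t1 ^ 2 * d 2 - (s2 ^ 2 * t0 ^ 2 + s0 ^ 6 * t2 ^ 6) * d 3) * h2
    - s1 ^ 2 * t2 ^ 8 * h01

/-- an ideal of square zero: `1 + I` consists of units. -/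
lemma sg2_lift_minors {I : Ideal C} (hI : I ^ 2 = ⊥) (x y : Fin 5 → C)
    (h : ∃ c : Fin 5 → Fin 5 → C ⧸ I, ∑ i, ∑ j, c i j *
      (Ideal.Quotient.mk I (x i) * Ideal.Quotient.mk I (y j) -
        Ideal.Quotient.mk I (x j) * Ideal.Quotient.mk I (y i)) = 1) :
    ∃ c : Fin 5 → Fin 5 → C, ∑ i, ∑ j, c i j * (x i * y j - x j * y i) = 1 := by
  obtain ⟨c, hc⟩ := h
  choose b hb using fun i j => Ideal.Quotient.mk_surjective (c i j)
  have h1 : (∑ i, ∑ j, b i j * (x i * y j - x j * y i)) - 1 ∈ I := by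
    rw [← Ideal.Quotient.eq_zero_iff_mem, map_sub, map_one, map_sum, sub_eq_zero, ← hc]
    refine Finset.sum_congr rfl fun i _ => ?_
    rw [map_sum]
    refine Finset.sum_congr rfl fun j _ => ?_
    rw [map_mul, map_sub, map_mul, map_mul, hb]
  obtain ⟨S, hS⟩ : ∃ S, S = ∑ i, ∑ j, b i j * (x i * y j - x j * y i) := ⟨_, rfl⟩
  rw [← hS] at h1
  have h2 := sg2_mul_eq_zero hI h1 h1
  refine ⟨fun i j => (2 - S) * b i j, ?_⟩
  have h3 : ∑ i, ∑ j, (2 - S) * b i j * (x i * y j - x j * y i) = (2 - S) * S := by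
    rw [hS, Finset.mul_sum]
    refine Finset.sum_congr rfl fun i _ => ?_
    rw [Finset.mul_sum]
    refine Finset.sum_congr rfl fun j _ => ?_
    ring
  rw [h3]
  linear_combination -h2

lemma sg2_J3_map {R R' : Type} [CommRing R] [CommRing R'] (f : R →+* R') (g : SL R) (u : R)
    (i : Fin 5) :
    J3 (sv (Matrix.SpecialLinearGroup.map f g)) (tv (Matrix.SpecialLinearGroup.map f g)) (f u) i =
      f (J3 (sv g) (tv g) u i) := by
  fin_cases i <;> simp [J3, Tup.sv_map, Tup.tv_map]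

lemma sg2_J7_map {R R' : Type} [CommRing R] [CommRing R'] (f : R →+* R') (g : SL R) (u : R)
    (i : Fin 5) :
    J7 (sv (Matrix.SpecialLinearGroup.map f g)) (tv (Matrix.SpecialLinearGroup.map f g)) (f u) i =
      f (J7 (sv g) (tv g) u i) := by
  fin_cases i <;> simp [J7, Tup.sv_map, Tup.tv_map]

lemma sg2_low_map {R R' : Type} [CommRing R] [CommRing R'] (f : R →+* R') (r : Fin 3 → R) :
    Matrix.SpecialLinearGroup.map f (Tup.low r) = Tup.low (fun i => f (r i)) := by
  ext i j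
  change f (Tup.low r i j) = Tup.low (fun i => f (r i)) i j
  fin_cases i <;> fin_cases j <;> simp [Tup.low]

/-- Infinitesimal lifting for `γ`: `C` of characteristic 2, `I ^ 2 = 0`, `h ∈ SL_3(C)`,
`τ ∈ Tup (C / I)` with `γ(τ) = h mod I`; then there is `T ∈ Tup C` over `τ` with `γ(T) = h`. -/
lemma gam_lift {C : Type} [CommRing C] (h2 : (2 : C) = 0) (I : Ideal C) (hI : I ^ 2 = ⊥)
    (h : SL C) (τ : Tup (C ⧸ I))
    (hτ : Tup.gam τ = Matrix.SpecialLinearGroup.map (Ideal.Quotient.mk I) h) :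
    ∃ T : Tup C, T.map (Ideal.Quotient.mk I) = τ ∧ Tup.gam T = h := by
  have h2' : (2 : C ⧸ I) = 0 := by
    have h3 := congrArg (Ideal.Quotient.mk I) h2
    rw [map_zero] at h3
    exact h3
  choose r hr using fun i => Ideal.Quotient.mk_surjective (τ.r i)
  obtain ⟨u, hu⟩ := Ideal.Quotient.mk_surjective τ.u
  obtain ⟨v, hv⟩ := Ideal.Quotient.mk_surjective τ.v
  obtain ⟨g, hg⟩ : ∃ g : SL C, g = (Tup.low r)⁻¹ * h := ⟨_, rfl⟩
  have hgh : Tup.low r * g = h := by rw [hg]; group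
  have hlr : Matrix.SpecialLinearGroup.map (Ideal.Quotient.mk I) (Tup.low r) = Tup.low τ.r := by
    rw [sg2_low_map]
    congr 1
    funext i
    exact hr i
  have hgm : Matrix.SpecialLinearGroup.map (Ideal.Quotient.mk I) g = τ.g := by
    have h3 : Tup.low τ.r * Matrix.SpecialLinearGroup.map (Ideal.Quotient.mk I) g =
        Tup.low τ.r * τ.g := by
      rw [← hlr, ← map_mul, hgh, ← hτ, hlr]
      rfl
    exact mul_left_cancel h3
  -- errors
  have he1 : -(u ^ 3 - f3 (sv g) (tv g)) ∈ I := by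
    apply I.neg_mem
    rw [← Ideal.Quotient.eq_zero_iff_mem, map_sub, map_pow, ← Tup.f3_map, hgm, hu, τ.eq1,
      sub_self]
  have he2 : -(v ^ 7 - F7 (sv g) (tv g) u) ∈ I := by
    apply I.neg_mem
    rw [← Ideal.Quotient.eq_zero_iff_mem, map_sub, map_pow, ← Tup.F7_map, hgm, hu, hv, τ.eq2,
      sub_self]
  obtain ⟨c, hc⟩ := sg2_lift_minors hI (J3 (sv g) (tv g) u) (J7 (sv g) (tv g) v) (by
    obtain ⟨c, hc⟩ := minors_unit h2' τ
    refine ⟨c, ?_⟩
    rw [← hgm, ← hu, ← hv] at hc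
    simp only [sg2_J3_map, sg2_J7_map] at hc
    exact hc)
  obtain ⟨d, hd, hd1, hd2⟩ := jac_solve _ _ c hc I _ _ he1 he2
  have hz : ∀ i, Ideal.Quotient.mk I (d i) = 0 := fun i =>
    Ideal.Quotient.eq_zero_iff_mem.mpr (hd i)
  refine ⟨⟨Tup.low ![d 0, d 2, d 1] * g, ![r 0 - d 0, r 1 - r 2 * d 0 + (d 0 * d 1 - d 2),
    r 2 - d 1], u + d 3, v + d 4, ?_, ?_⟩, ?_, ?_⟩
  · rw [← sub_eq_zero, sg2_eq1 h2 hI g u d hd, hd1, add_neg_cancel]
  · rw [← sub_eq_zero, sg2_eq2 h2 hI g u v d hd, hd2, add_neg_cancel]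
  · apply Tup.ext
    · change Matrix.SpecialLinearGroup.map (Ideal.Quotient.mk I)
        (Tup.low ![d 0, d 2, d 1] * g) = τ.g
      rw [map_mul, hgm, sg2_low_map]
      have h4 : Tup.low (fun i => Ideal.Quotient.mk I (![d 0, d 2, d 1] i)) = 1 := by
        ext i j
        fin_cases i <;> fin_cases j <;> simp [Tup.low, hz]
      rw [h4, one_mul]
    · funext i
      change Ideal.Quotient.mk I _ = τ.r i
      fin_cases i <;> simp [hz, hr]
    · change Ideal.Quotient.mk I (u + d 3) = τ.u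
      rw [map_add, hz, hu, add_zero]
    · change Ideal.Quotient.mk I (v + d 4) = τ.v
      rw [map_add, hz, hv, add_zero]
  · change Tup.low ![r 0 - d 0, r 1 - r 2 * d 0 + (d 0 * d 1 - d 2), r 2 - d 1] *
      (Tup.low ![d 0, d 2, d 1] * g) = h
    rw [← mul_assoc, ← hgh]
    congr 1
    have h5 := sg2_low_mul r ![d 0, d 2, d 1]
    simpa using h5

end GamLift

variable (k : Type) [Field k]

/-- `B` is a finitely generated `k`-algebra. -/
lemma B_finiteType : Algebra.FiniteType k (B k) := by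
  have h1 : Algebra.FiniteType k (CoordSL k) := inferInstance
  have h2 : Algebra.FiniteType k (W1 k) := inferInstance
  have h3 : Algebra.FiniteType k (W k) := inferInstance
  have h4 : Algebra.FiniteType k (B0 k) := inferInstance
  exact h4

/-- the comorphism of `γ`. -/
noncomputable def gamHom : CoordSL k →ₐ[k] B k := homOfMat k (Tup.gam (univTup k))

/-- `γ` is smooth: formally smooth by `gam_lift` and
`Algebra.FormallySmooth.iff_comp_surjective`, of finite presentation because `k[SL_3]` is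
noetherian and `B` is a finitely generated `k`-algebra. -/
lemma smooth_gamHom (h2 : (2 : k) = 0) : (gamHom k).toRingHom.Smooth := by
  unfold RingHom.Smooth
  let alg : Algebra (CoordSL k) (B k) := (gamHom k).toRingHom.toAlgebra
  have hal : ∀ x, algebraMap (CoordSL k) (B k) x = gamHom k x := fun _ => rfl
  have tow : @IsScalarTower k (CoordSL k) (B k) Algebra.toSMul Algebra.toSMul Algebra.toSMul := by
    apply IsScalarTower.of_algebraMap_eq
    intro x
    rw [hal, AlgHom.commutes]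
  have hk : Algebra.FiniteType k (B k) := B_finiteType k
  have hft : Algebra.FiniteType (CoordSL k) (B k) :=
    Algebra.FiniteType.of_restrictScalars_finiteType k (CoordSL k) (B k)
  have hno : IsNoetherianRing (CoordSL k) := inferInstance
  have hfp : Algebra.FinitePresentation (CoordSL k) (B k) :=
    Algebra.FinitePresentation.of_finiteType.mp hft
  have hfs : Algebra.FormallySmooth (CoordSL k) (B k) := by
    rw [Algebra.FormallySmooth.iff_comp_surjective]
    intro C _ _ I hI φ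
    let algC : Algebra k C := ((algebraMap (CoordSL k) C).comp (algebraMap k (CoordSL k))).toAlgebra
    have towC : @IsScalarTower k (CoordSL k) C Algebra.toSMul Algebra.toSMul Algebra.toSMul :=
      IsScalarTower.of_algebraMap_eq fun _ => rfl
    have h2C : (2 : C) = 0 := by
      have := congrArg (algebraMap k C) h2
      rwa [map_ofNat, map_zero] at this
    set h : SL C := Matrix.SpecialLinearGroup.map (algebraMap (CoordSL k) C) (univMat k) with hh
    set τ : Tup (C ⧸ I) := (univTup k).map φ.toRingHom with hτ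
    have e1 : Tup.gam τ = Matrix.SpecialLinearGroup.map (Ideal.Quotient.mk I) h := by
      rw [hτ, Tup.gam_map]
      have e2 : Tup.gam (univTup k) =
          Matrix.SpecialLinearGroup.map (gamHom k).toRingHom (univMat k) :=
        (homOfMat_univMat (k := k) (Tup.gam (univTup k))).symm
      rw [e2, hh]
      ext i j
      change φ (algebraMap (CoordSL k) (B k) (univMat k i j)) =
        Ideal.Quotient.mk I (algebraMap (CoordSL k) C (univMat k i j))
      rw [AlgHom.commutes]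
      rfl
    obtain ⟨T, hT1, hT2⟩ := gam_lift h2C I hI h τ e1
    have e3 : (homOfTup k T).comp (gamHom k) = (IsScalarTower.toAlgHom k (CoordSL k) C) := by
      apply CoordSL.hom_ext
      intro i j
      have e4 : Tup.gam T = Tup.gam ((univTup k).map (homOfTup k T).toRingHom) := by
        rw [map_homOfTup]
      rw [Tup.gam_map] at e4
      have e5 : Tup.gam (univTup k) =
          Matrix.SpecialLinearGroup.map (gamHom k).toRingHom (univMat k) :=
        (homOfMat_univMat (k := k) (Tup.gam (univTup k))).symm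
      rw [e5, hT2, hh] at e4
      have e6 := congrArg (fun g : SL C => g i j) e4
      exact e6.symm
    refine ⟨{ toRingHom := (homOfTup k T).toRingHom, commutes' := fun x => ?_ }, ?_⟩
    · exact congrArg (fun F : CoordSL k →ₐ[k] C => F x) e3
    · have e7 : ((Ideal.Quotient.mkₐ k I).comp (homOfTup k T) : B k →ₐ[k] C ⧸ I) =
          φ.restrictScalars k := by
        apply B.hom_ext
        have e8 : (univTup k).map ((Ideal.Quotient.mkₐ k I).comp (homOfTup k T)).toRingHom =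
            ((univTup k).map (homOfTup k T).toRingHom).map (Ideal.Quotient.mk I) := by
          rw [Tup.map_map]
          rfl
        rw [e8, map_homOfTup, hT1]
        rfl
      apply AlgHom.ext
      intro x
      exact congrArg (fun F : B k →ₐ[k] C ⧸ I => F x) e7
  exact ⟨hfs, hfp⟩

end Pool.Agent.Lib.MP_023d06_ag
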