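import Pool.Agent.Lib.MP_023d06_ag.ChartPt
import Pool.Agent.Lib.MP_023d06_ag.Proper
import Pool.Agent.Lib.MP_023d06_ag.SmoothGam

/-!
# Row ST: the homomorphism `A_(f) → B_f` is smooth for the nine charts
-/

open HomogeneousLocalization

namespace Pool.Agent.Lib.MP_023d06_ag

attribute [local instance] awayAlgebra

lemma st1_isUnit_of_quot {C : Type} [CommRing C] (I : Ideal C) (hI : I ^ 2 = ⊥) (a : C) (b : C ⧸ I)
    (h : Ideal.Quotient.mk I a * b = 1) : IsUnit a := by
  obtain ⟨b', hb'⟩ := Ideal.Quotient.mk_surjective b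
  have h1 : a * b' - 1 ∈ I := by
    rw [← Ideal.Quotient.eq_zero_iff_mem, map_sub, map_mul, hb', h, map_one, sub_self]
  have h2 : (a * b' - 1) ^ 2 = 0 := by
    have := Ideal.pow_mem_pow h1 2
    rwa [hI, Ideal.mem_bot] at this
  refine IsUnit.of_mul_eq_one (b' * (2 - a * b')) ?_
  linear_combination -h2

/-- `E(C) → E(C / I)` is surjective for a nilpotent ideal `I`. -/
lemma ZipGroup.lift {C : Type} [CommRing C] (I : Ideal C) (hI : I ^ 2 = ⊥)
    (e : ZipGroup 2 (C ⧸ I)) : ∃ e' : ZipGroup 2 C, ZipGroup.map (Ideal.Quotient.mk I) e' = e := by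
  have hd := ZipGroup.diag_mul e
  obtain ⟨⟨x, y⟩, hx, hy, hxy⟩ := e
  simp only at hd hx hy hxy
  have a1 := hx 0 1 (by decide)
  have a2 := hx 0 2 (by decide)
  have a3 := hx 1 2 (by decide)
  have b1 := hy 1 0 (by decide)
  have b2 := hy 2 0 (by decide)
  have b3 := hy 2 1 (by decide)
  have c0 := hxy 0
  have c1 := hxy 1
  have c2 := hxy 2
  choose X hX using fun i j => Ideal.Quotient.mk_surjective (I := I) (x i j)
  choose Y hY using fun i j => Ideal.Quotient.mk_surjective (I := I) (y i j)
  have hu : IsUnit (X 1 1 * X 2 2) := by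
    refine st1_isUnit_of_quot I hI _ (x 0 0) ?_
    rw [map_mul, hX, hX]
    linear_combination hd
  obtain ⟨w, hw⟩ := hu.exists_right_inv
  have hw' : Ideal.Quotient.mk I w = x 0 0 := by
    have h1 : Ideal.Quotient.mk I (X 1 1 * X 2 2 * w) = 1 := by rw [hw, map_one]
    rw [map_mul, map_mul, hX, hX] at h1
    linear_combination x 0 0 * h1 - Ideal.Quotient.mk I w * hd
  let x' : SL C := ⟨!![w, 0, 0; X 1 0, X 1 1, 0; X 2 0, X 2 1, X 2 2], by
    rw [Matrix.det_fin_three]; simp; linear_combination hw⟩
  let y' : SL C := ⟨!![w ^ 2, Y 0 1, Y 0 2; 0, X 1 1 ^ 2, Y 1 2; 0, 0, X 2 2 ^ 2], by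
    rw [Matrix.det_fin_three]; simp; linear_combination (X 1 1 * X 2 2 * w + 1) * hw⟩
  refine ⟨⟨(x', y'), ?_, ?_, ?_⟩, ?_⟩
  · intro i j hij
    revert hij
    fin_cases i <;> fin_cases j <;> simp [x']
  · intro i j hij
    revert hij
    fin_cases i <;> fin_cases j <;> simp [y']
  · intro i
    fin_cases i <;> simp [x', y']
  · apply Subtype.ext
    apply Prod.ext
    · ext i j
      fin_cases i <;> fin_cases j <;> simp [ZipGroup.map, x', hX, hw', a1, a2, a3]
    · ext i j
      fin_cases i <;> fin_cases j <;> simp [ZipGroup.map, y', hX, hY, hw', b1, b2, b3, c0, c1, c2]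

variable (k : Type) [Field k]

/-- the homomorphism `A_(f) → B_f`. -/
noncomputable abbrev thB (f : A k) :
    Away (Gr k) f →+* Localization.Away (reval (V k) f) :=
  theta (Gr k) ((algebraMap (B k) (Localization.Away (reval (V k) f))).comp
    (reval (V k)).toRingHom) (f := f) (IsLocalization.Away.algebraMap_isUnit (reval (V k) f))

/-! ### auxiliary facts on `theta` -/

lemma st2_theta_comp {A R S : Type} [CommRing A] [CommRing R] [CommRing S] {σ : Type}
    [SetLike σ A] [AddSubgroupClass σ A] (𝒜 : ℕ → σ) [GradedRing 𝒜] (φ : A →+* R) (g : R →+* S)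
    {f : A} (hu : IsUnit (φ f)) (hu' : IsUnit ((g.comp φ) f)) :
    g.comp (theta 𝒜 φ hu) = theta 𝒜 (g.comp φ) hu' := by
  rw [theta, theta, ← RingHom.comp_assoc]
  congr 1
  apply IsLocalization.ringHom_ext (Submonoid.powers f)
  ext a
  simp [Localization.awayLift]

lemma st2_theta_congr {A R : Type} [CommRing A] [CommRing R] {σ : Type}
    [SetLike σ A] [AddSubgroupClass σ A] (𝒜 : ℕ → σ) [GradedRing 𝒜] {φ φ' : A →+* R} (h : φ = φ')
    {f : A} (hu : IsUnit (φ f)) (hu' : IsUnit (φ' f)) : theta 𝒜 φ hu = theta 𝒜 φ' hu' := by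
  subst h; rfl

/-- the universal point over `B_f`. -/
noncomputable def st2U (f : A k) : Tup (Localization.Away (reval (V k) f)) :=
  (univTup k).map (algebraMap (B k) (Localization.Away (reval (V k) f)))

lemma st2_homOfTup_U (f : A k) :
    (homOfTup k (st2U k f)).toRingHom =
      algebraMap (B k) (Localization.Away (reval (V k) f)) := by
  have h := homOfTup_map k (IsScalarTower.toAlgHom k (B k) (Localization.Away (reval (V k) f)))
  have h2 : (IsScalarTower.toAlgHom k (B k) (Localization.Away (reval (V k) f))).toRingHom =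
      algebraMap (B k) (Localization.Away (reval (V k) f)) := rfl
  rw [h2] at h
  rw [st2U, h]
  rfl

lemma st2_ev_U (f : A k) : (ev k (st2U k f)).toRingHom =
    (algebraMap (B k) (Localization.Away (reval (V k) f))).comp (reval (V k)).toRingHom := by
  rw [← st2_homOfTup_U]
  rfl

lemma st2_isUnit_U (f : A k) : IsUnit (ev k (st2U k f) f) := by
  have h := congrArg (fun g : A k →+* Localization.Away (reval (V k) f) => g f) (st2_ev_U k f)
  have h2 : ev k (st2U k f) f = algebraMap (B k) (Localization.Away (reval (V k) f))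
    (reval (V k) f) := h
  rw [h2]
  exact IsLocalization.Away.algebraMap_isUnit (reval (V k) f)

lemma st2_thB_eq (f : A k) : thB k f = th (st2U k f) (st2_isUnit_U k f) :=
  st2_theta_congr (Gr k) (st2_ev_U k f).symm _ _

lemma st2_th_map {R R' : Type} [CommRing R] [Algebra k R] [CommRing R'] [Algebra k R']
    (g : R →ₐ[k] R') (T : Tup R) {f : A k} (hu : IsUnit (ev k T f))
    (hu' : IsUnit (ev k (T.map g.toRingHom) f)) :
    g.toRingHom.comp (th T hu) = th (T.map g.toRingHom) hu' := by
  have h1 : (ev k (T.map g.toRingHom)).toRingHom = g.toRingHom.comp (ev k T).toRingHom := by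
    rw [ev_map]; rfl
  have hu'' : IsUnit ((g.toRingHom.comp (ev k T).toRingHom) f) := hu.map g
  rw [th, st2_theta_comp (Gr k) (ev k T).toRingHom g.toRingHom hu hu'']
  exact st2_theta_congr (Gr k) h1.symm _ _

lemma st2_isUnit_map {R R' : Type} [CommRing R] [Algebra k R] [CommRing R'] [Algebra k R']
    (g : R →ₐ[k] R') (T : Tup R) {f : A k} (hu : IsUnit (ev k T f)) :
    IsUnit (ev k (T.map g.toRingHom) f) := by
  rw [ev_map]
  exact hu.map g

/-- infinitesimal lifting for `A_(f) → B_f`. -/
lemma st2_lift (c : Fin 9) {C : Type} [CommRing C] (x : Away (Gr k) (chf k c) →+* C)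
    (I : Ideal C) (hI : I ^ 2 = ⊥)
    (φ : Localization.Away (reval (V k) (chf k c)) →+* C ⧸ I)
    (hφ : φ.comp (thB k (chf k c)) = (Ideal.Quotient.mk I).comp x) :
    ∃ ψ : Localization.Away (reval (V k) (chf k c)) →+* C,
      ψ.comp (thB k (chf k c)) = x ∧ (Ideal.Quotient.mk I).comp ψ = φ := by
  let _ : Algebra k C := (x.comp (kAway k (chf k c))).toAlgebra
  have hC : algebraMap k C = x.comp (kAway k (chf k c)) := rfl
  have hCI : algebraMap k (C ⧸ I) = (Ideal.Quotient.mk I).comp (algebraMap k C) := rfl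
  -- `φ` as a homomorphism of `k`-algebras
  have hthk : (thB k (chf k c)).comp (kAway k (chf k c)) =
      algebraMap k (Localization.Away (reval (V k) (chf k c))) := by
    rw [st2_thB_eq]
    exact th_kAway _ _
  have hφk : φ.comp (algebraMap k (Localization.Away (reval (V k) (chf k c)))) =
      algebraMap k (C ⧸ I) := by
    rw [← hthk, ← RingHom.comp_assoc, hφ, hCI, hC, RingHom.comp_assoc]
  let φk : Localization.Away (reval (V k) (chf k c)) →ₐ[k] C ⧸ I :=
    { toRingHom := φ
      commutes' := fun r => congrArg (fun g : k →+* C ⧸ I => g r) hφk }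
  have hφk' : φk.toRingHom = φ := rfl
  -- `x` as a homomorphism of `k`-algebras
  let xk : Away (Gr k) (chf k c) →ₐ[k] C :=
    { toRingHom := x
      commutes' := fun r => rfl }
  have hxk : xk.toRingHom = x := rfl
  let mk : C →ₐ[k] C ⧸ I :=
    { toRingHom := Ideal.Quotient.mk I
      commutes' := fun r => rfl }
  have hmk : mk.toRingHom = Ideal.Quotient.mk I := rfl
  -- the two points
  have huU := st2_isUnit_U k (chf k c)
  let τ : Tup (C ⧸ I) := (st2U k (chf k c)).map φk.toRingHom
  have huτ : IsUnit (ev k τ (chf k c)) := st2_isUnit_map k φk (st2U k (chf k c)) huU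
  let T₀ : Tup C := (sigma k c).map xk.toRingHom
  have huT₀ : IsUnit (ev k T₀ (chf k c)) := st2_isUnit_map k xk (sigma k c) (isUnit_sigma k c)
  have huT₁ : IsUnit (ev k (T₀.map mk.toRingHom) (chf k c)) := st2_isUnit_map k mk T₀ huT₀
  have h1 : th T₀ huT₀ = x := by
    rw [← st2_th_map k xk (sigma k c) (isUnit_sigma k c) huT₀, th_sigma]
    rfl
  have h2 : th (T₀.map mk.toRingHom) huT₁ = th τ huτ := by
    rw [← st2_th_map k mk T₀ huT₀ huT₁, h1, ← st2_th_map k φk (st2U k (chf k c)) huU huτ, ← st2_thB_eq]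
    exact hφ.symm
  obtain ⟨a, b, hab⟩ := exists_units c _ _ huT₁ huτ h2
  obtain ⟨e, he, -, -⟩ := exists_act hab
  obtain ⟨e', he'⟩ := ZipGroup.lift I hI e
  let T : Tup C := T₀.act e'
  have hTτ : T.map (Ideal.Quotient.mk I) = τ := by
    change (T₀.act e').map (Ideal.Quotient.mk I) = τ
    rw [Tup.act_map, he']
    exact he
  have hsc : ∀ z, co T z = sc (ZipGroup.ua e') (ZipGroup.ub e') z * co T₀ z := co_act e' T₀
  have huT : IsUnit (ev k T (chf k c)) := by
    rw [ev_scale k (chf_mem k c) hsc]
    exact ((Units.isUnit _).pow _).mul huT₀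
  have h3 : th T huT = x := by
    rw [← th_eq_of_scale (chf_mem k c) T₀ T huT₀ huT hsc, h1]
  -- the homomorphism `B_f → C`
  have huT' : IsUnit ((homOfTup k T).toRingHom (reval (V k) (chf k c))) := huT
  let ψ : Localization.Away (reval (V k) (chf k c)) →+* C :=
    IsLocalization.Away.lift (reval (V k) (chf k c)) huT'
  have hψ : ψ.comp (algebraMap (B k) (Localization.Away (reval (V k) (chf k c)))) =
      (homOfTup k T).toRingHom := IsLocalization.Away.lift_comp (reval (V k) (chf k c)) huT'
  refine ⟨ψ, ?_, ?_⟩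
  · have hu1 : IsUnit ((ψ.comp ((algebraMap (B k) (Localization.Away (reval (V k) (chf k c)))).comp
        (reval (V k)).toRingHom)) (chf k c)) := by
      rw [← RingHom.comp_assoc, hψ]
      exact huT
    rw [thB, st2_theta_comp (Gr k) _ ψ _ hu1, ← h3]
    apply st2_theta_congr
    rw [← RingHom.comp_assoc, hψ]
    rfl
  · apply IsLocalization.ringHom_ext (Submonoid.powers (reval (V k) (chf k c)))
    rw [RingHom.comp_assoc, hψ]
    have h4 : mk.comp (homOfTup k T) =
        φk.comp (IsScalarTower.toAlgHom k (B k) (Localization.Away (reval (V k) (chf k c)))) := by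
      rw [homOfTup_comp, hmk, hTτ]
      rw [← homOfTup_map k (φk.comp
        (IsScalarTower.toAlgHom k (B k) (Localization.Away (reval (V k) (chf k c)))))]
      rfl
    exact congrArg (fun g : B k →ₐ[k] C ⧸ I => g.toRingHom) h4

lemma st2_formallySmooth (c : Fin 9) : (thB k (chf k c)).FormallySmooth := by
  let _ : Algebra (Away (Gr k) (chf k c)) (Localization.Away (reval (V k) (chf k c))) :=
    (thB k (chf k c)).toAlgebra
  change Algebra.FormallySmooth (Away (Gr k) (chf k c))
    (Localization.Away (reval (V k) (chf k c)))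
  rw [Algebra.FormallySmooth.iff_comp_surjective]
  intro C _ _ I hI φ
  obtain ⟨ψ, h1, h2⟩ := st2_lift k c (algebraMap (Away (Gr k) (chf k c)) C) I hI φ.toRingHom (by
    ext a
    exact φ.commutes a)
  refine ⟨{ toRingHom := ψ, commutes' := fun a => ?_ }, ?_⟩
  · exact congrArg (fun g : Away (Gr k) (chf k c) →+* C => g a) h1
  · apply AlgHom.coe_ringHom_injective
    exact h2

lemma st2_noetherian (f : A k) {n : ℕ} (hf : f ∈ Gr k n) : IsNoetherianRing (Away (Gr k) f) := by
  have h1 := finiteType_Gr_zero k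
  have h2 : IsNoetherianRing (Gr k 0) :=
    isNoetherianRing_of_surjective _ _ _ (algebraMap_Gr_zero_surjective k)
  have h3 : Algebra.FiniteType (Gr k 0) (Away (Gr k) f) := Away.finiteType f n hf
  exact Algebra.FiniteType.isNoetherianRing (Gr k 0) (Away (Gr k) f)

lemma st2_away_finiteType (f : A k) :
    Algebra.FiniteType (B k) (Localization.Away (reval (V k) f)) := by
  have h := IsLocalization.Away.finitePresentation (S := Localization.Away (reval (V k) f))
    (reval (V k) f)
  exact Algebra.FiniteType.of_finitePresentation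

lemma st2_finiteType (f : A k) : (thB k f).FiniteType := by
  have h1 := B_finiteType k
  have h2 : Algebra.FiniteType k (Localization.Away (reval (V k) f)) :=
    Algebra.FiniteType.trans (S := B k) h1 (st2_away_finiteType k f)
  have h3 : (algebraMap k (Localization.Away (reval (V k) f))).FiniteType :=
    RingHom.finiteType_algebraMap.2 h2
  have h4 : (thB k f).comp (kAway k f) =
      algebraMap k (Localization.Away (reval (V k) f)) := by
    rw [st2_thB_eq]
    exact th_kAway _ _
  rw [← h4] at h3
  exact RingHom.FiniteType.of_comp_finiteType h3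

/-- `A_(f) → B_f` is smooth (for the chart element `f = chf k c`): it is of finite presentation
since both rings are finitely generated `k`-algebras (`A_finiteType` / `Away.finiteType` and the
construction of `B`), and it is formally smooth: use
`Algebra.FormallySmooth.iff_comp_surjective`; given `x : A_(f) → C`, `I ^ 2 = 0` and a point
`τ ∈ Tup (C / I)` over it, the point `τ₀ := (sigma k c).map x ∈ Tup C` has the same image as `τ`
in the chart mod `I` (`th_sigma`), hence by `exists_units` and `exists_act` there is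
`e ∈ E(C / I)` with `τ₀.act e = τ` mod `I`; lift `e` by `ZipGroup.lift`. -/
lemma smooth_thB (c : Fin 9) : (thB k (chf k c)).Smooth := by
  rw [RingHom.smooth_def]
  refine ⟨st2_formallySmooth k c, ?_⟩
  have h1 := st2_noetherian k (chf k c) (chf_mem k c)
  exact RingHom.FinitePresentation.of_finiteType.1 (st2_finiteType k (chf k c))

end Pool.Agent.Lib.MP_023d06_ag
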