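import Pool.Agent.Lib.MP_023d06_ag.Obj
import Pool.Agent.Lib.MP_023d06_ag.SmoothTheta

/-!
# Row PS: `π` is smooth and surjective
-/

open CategoryTheory AlgebraicGeometry

namespace Pool.Agent.Lib.MP_023d06_ag

attribute [local instance] awayAlgebra

variable (k : Type) [Field k]

lemma ps_span : Ideal.span (Set.range fun c : Fin 9 => reval (V k) (chf k c)) = ⊤ := by
  have h := cover_ring (univTup k)
  have h2 : (fun c : Fin 9 => reval (V k) (chf k c)) = fun c => mon (co (univTup k)) (chm c) := by
    funext c
    exact reval_chf k c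
  rw [h2]
  exact h

/-- `π` is smooth: `Spec B` is covered by the `Spec B_f`, `f` a chart element (`cover_ring`), on
`Spec B_f` the morphism `π` is `Spec (A_(f) → B_f)` followed by the open immersion `awayι`
(`map_projMap` with `ψ = algebraMap`), and `A_(f) → B_f` is smooth (`smooth_thB`); smoothness is
local on the source. -/
lemma smooth_piS : Smooth (piS k) := by
  apply IsZariskiLocalAtSource.of_openCover (Scheme.affineOpenCoverOfSpanRangeEqTop
    (R := CommRingCat.of (B k)) (fun c : Fin 9 => (reval (V k) (chf k c) : B k)) (ps_span k)).openCover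
  intro c
  have h1 := map_projMap (Gr k) (reval (V k)).toRingHom (irr_map k)
    (algebraMap (B k) (Localization.Away (reval (V k) (chf k c)))) (chn_pos c) (chf_mem k c)
    (IsLocalization.Away.algebraMap_isUnit (reval (V k) (chf k c)))
  have h2 : Smooth (Spec.map (CommRingCat.ofHom (thB k (chf k c)))) :=
    (HasRingHomProperty.Spec_iff (P := @Smooth)).2 (smooth_thB k c)
  have h3 : Smooth (Spec.map (CommRingCat.ofHom (thB k (chf k c))) ≫
      Proj.awayι (Gr k) (chf k c) (chf_mem k c) (chn_pos c)) := inferInstance
  have h4 : Smooth (Spec.map (CommRingCat.ofHom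
      (algebraMap (B k) (Localization.Away (reval (V k) (chf k c))))) ≫ piS k) := by
    rw [piS, h1]
    exact h3
  exact h4

/-- `π` is surjective: by `cover_proj` a point `x` of `Proj A` lies in `D₊(f)` for a chart element
`f`, i.e. in the image of `awayι`; and `Spec B_f ⟶ Spec A_(f)` has a section because of
`th_sigma`. -/
lemma surjective_piS : Surjective (piS k) := by
  constructor
  intro x
  obtain ⟨c, hc⟩ := cover_proj k x
  have hx : x ∈ Proj.basicOpen (Gr k) (chf k c) := hc
  rw [← Proj.opensRange_awayι (Gr k) (chf k c) (chf_mem k c) (chn_pos c)] at hx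
  obtain ⟨y, hy⟩ := hx
  have h1 := map_projMap (Gr k) (reval (V k)).toRingHom (irr_map k)
    (homOfTup k (sigma k c)).toRingHom (chn_pos c) (chf_mem k c) (isUnit_sigma k c)
  have h2 : theta (Gr k) ((homOfTup k (sigma k c)).toRingHom.comp (reval (V k)).toRingHom)
      (isUnit_sigma k c) = RingHom.id _ := th_sigma k c
  have h3 : Spec.map (CommRingCat.ofHom (homOfTup k (sigma k c)).toRingHom) ≫ piS k =
      Proj.awayι (Gr k) (chf k c) (chf_mem k c) (chn_pos c) := by
    rw [piS, h1, h2]
    erw [Spec.map_id]
    exact Category.id_comp _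
  refine ⟨(Spec.map (CommRingCat.ofHom (homOfTup k (sigma k c)).toRingHom)) y, ?_⟩
  rw [← Scheme.Hom.comp_apply, h3]
  exact hy

end Pool.Agent.Lib.MP_023d06_ag
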