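import Pool.Agent.Lib.MP_023d06_ag.Torsor
import Pool.Agent.Lib.MP_023d06_ag.PiSmooth
import Pool.Agent.Lib.MP_023d06_ag.SmoothGam
import Pool.Agent.Lib.MP_023d06_ag.Comp
import Pool.Agent.Lib.MP_023d06_ag.ConeSL

/-!
# The counterexample
-/

open CategoryTheory AlgebraicGeometry

namespace Pool.Agent.Lib.MP_023d06_ag

section Topology

/-- In a noetherian space the connected components are open. -/
lemma isClopen_connectedComponent_of_noetherian {α : Type*} [TopologicalSpace α]
    [TopologicalSpace.NoetherianSpace α] (x : α) : IsClopen (connectedComponent x) := by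
  refine ⟨isClosed_connectedComponent, ?_⟩
  have hfin : (irreducibleComponents α).Finite :=
    TopologicalSpace.NoetherianSpace.finite_irreducibleComponents
  have hcl : IsClosed (⋃₀ {Z ∈ irreducibleComponents α | ¬ Z ⊆ connectedComponent x}) := by
    rw [Set.sUnion_eq_biUnion]
    exact (hfin.subset (Set.sep_subset _ _)).isClosed_biUnion fun Z hZ =>
      isClosed_of_mem_irreducibleComponents Z hZ.1
  have heq : connectedComponent x =
      (⋃₀ {Z ∈ irreducibleComponents α | ¬ Z ⊆ connectedComponent x})ᶜ := by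
    ext y
    constructor
    · rintro hy ⟨Z, ⟨hZ, hZx⟩, hyZ⟩
      apply hZx
      have h1 : IsPreconnected Z := hZ.1.isPreirreducible.isPreconnected
      have h2 := h1.subset_connectedComponent hyZ
      rwa [connectedComponent_eq hy]
    · intro hy
      have h1 : irreducibleComponent y ⊆ connectedComponent x := by
        by_contra hcon
        exact hy ⟨irreducibleComponent y, ⟨irreducibleComponent_mem_irreducibleComponents y, hcon⟩,
          mem_irreducibleComponent⟩
      exact h1 mem_irreducibleComponent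
  rw [heq]
  exact hcl.isOpen_compl

end Topology

variable (k : Type) [Field k]

lemma piS_struct : piS k ≫ (XX k).hom = (Sp k (B k)).hom := by
  change piS k ≫ Proj.toSpecZero (Gr k) ≫
    Spec.map (CommRingCat.ofHom (algebraMap k (Gr k 0))) =
      Spec.map (CommRingCat.ofHom (algebraMap k (B k)))
  have h1 := pa_toSpec (RingHom.id (B k))
  have h2 : Spec.map (CommRingCat.ofHom (RingHom.id (B k))) = 𝟙 _ := Spec.map_id _
  rw [h2, Category.id_comp] at h1
  rw [piS, projMap, Proj.fromOfGlobalSections_toSpecZero_assoc, h1, ← Spec.map_comp,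
    ← Spec.map_comp, ← CommRingCat.ofHom_comp, ← CommRingCat.ofHom_comp]
  congr 2
  ext c
  change paSec (RingHom.id (B k)) (toSec (reval (V k)).toRingHom (algebraMap k (A k) c)) =
    algebraMap k (B k) c
  rw [paSec_toSec]
  exact (reval (V k)).commutes c

/-- the projection of the torsor. -/
noncomputable def piOver : Sp k (B k) ⟶ XX k := Over.homMk (piS k) (piS_struct k)

variable {k}

lemma map_comp_piOver {R : Type} [CommRing R] [Algebra k R] (τ τ' : Sp k R ⟶ Sp k (B k)) :
    τ ≫ piOver k = τ' ≫ piOver k ↔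
      Spec.map (CommRingCat.ofHom (toAlg τ).toRingHom) ≫ piS k =
        Spec.map (CommRingCat.ofHom (toAlg τ').toRingHom) ≫ piS k := by
  have h : ∀ σ : Sp k R ⟶ Sp k (B k), (σ ≫ piOver k).left =
      Spec.map (CommRingCat.ofHom (toAlg σ).toRingHom) ≫ piS k := by
    intro σ
    conv_lhs => rw [← map_toAlg σ]
    rfl
  constructor
  · intro he
    rw [← h, ← h, he]
  · intro he
    rw [← h, ← h] at he
    exact Over.OverMorphism.ext he

/-- the `R`-point of `Tup` of an `R`-point of the scheme `T = Spec B`. -/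
noncomputable def tup {R : Type} [CommRing R] [Algebra k R] (τ : Sp k R ⟶ Sp k (B k)) : Tup R :=
  (univTup k).map (toAlg τ).toRingHom

lemma homOfTup_tup {R : Type} [CommRing R] [Algebra k R] (τ : Sp k R ⟶ Sp k (B k)) :
    homOfTup k (tup τ) = toAlg τ := homOfTup_map k (toAlg τ)

lemma tup_map {R : Type} [CommRing R] [Algebra k R] (T : Tup R) :
    tup (Sp.map k (homOfTup k T)) = T := by
  rw [tup, toAlg_map, map_homOfTup]

lemma map_tup {R : Type} [CommRing R] [Algebra k R] (τ : Sp k R ⟶ Sp k (B k)) :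
    Sp.map k (homOfTup k (tup τ)) = τ := by
  rw [homOfTup_tup, map_toAlg]

lemma tup_comp {R R' : Type} [CommRing R] [Algebra k R] [CommRing R'] [Algebra k R']
    (f : R →ₐ[k] R') (τ : Sp k R ⟶ Sp k (B k)) :
    tup (Sp.map k f ≫ τ) = (tup τ).map f.toRingHom := by
  rw [tup, toAlg_comp, tup, Tup.map_map]
  rfl

variable (k)

/-- The scheme `T = U⁻ × W` with its action of `E`. -/
noncomputable def TE : EScheme k 2 where
  T := Sp k (B k)
  act R _ _ e τ := Sp.map k (homOfTup k ((tup τ).act e))
  act_one R _ _ τ := by rw [Tup.act_one, map_tup]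
  act_mul R _ _ e e' τ := by rw [Tup.act_mul, tup_map]
  act_map R R' _ _ _ _ f e τ := by
    rw [← Sp.map_comp, homOfTup_comp, Tup.act_map, tup_comp]

/-- The morphism `γ : T ⟶ SL_3`. -/
noncomputable def gamS : Sp k (B k) ⟶ Sp k (CoordSL k) := Sp.map k (gamHom k)

lemma comp_gamS {R : Type} [CommRing R] [Algebra k R] (τ : Sp k R ⟶ Sp k (B k)) :
    τ ≫ gamS k = Sp.map k (homOfMat k (Tup.gam (tup τ))) := by
  conv_lhs => rw [← map_toAlg τ]
  rw [gamS, ← Sp.map_comp, gamHom, homOfMat_comp, tup, Tup.gam_map]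

lemma torsor_aux (R : Type) [CommRing R] [Algebra k R] (τ τ' : Sp k R ⟶ Sp k (B k)) :
    τ ≫ piOver k = τ' ≫ piOver k ↔
      ∃! e : ZipGroup 2 R, Sp.map k (homOfTup k ((tup τ).act e)) = τ' := by
  rw [map_comp_piOver, ← homOfTup_tup, ← homOfTup_tup, torsor_ring]
  have h : ∀ e : ZipGroup 2 R, (tup τ).act e = tup τ' ↔
      Sp.map k (homOfTup k ((tup τ).act e)) = τ' := by
    intro e
    constructor
    · intro he
      rw [he, map_tup]
    · intro he
      rw [← he, tup_map]
  simp only [h]

lemma equivariant_aux (R : Type) [CommRing R] [Algebra k R] (e : ZipGroup 2 R)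
    (τ : Sp k R ⟶ Sp k (B k)) :
    Sp.map k (homOfTup k ((tup τ).act e)) ≫ gamS k =
      Sp.map k (homOfMat k (e.1.1 * mat (τ ≫ gamS k) * e.1.2⁻¹)) := by
  rw [comp_gamS, tup_map, Tup.gam_act, comp_gamS, mat_map_homOfMat]

/-- The morphism `ζ : X ⟶ G-Zip^μ`. -/
noncomputable def ZZ : ZipMap k 2 (XX k) where
  toEScheme := TE k
  π := piOver k
  smooth_π := smooth_piS k
  surjective_π := surjective_piS k
  torsor R _ _ τ τ' := torsor_aux k R τ τ'
  γ := gamS k
  equivariant R _ _ e τ := equivariant_aux k R e τ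

/-! ### Condition (i) and (ii) -/

lemma condI : CondI (XX k) := XX_proper k

/-- the universal point with `r = 0` has the same image in `X`. -/
lemma proj_r (T : Tup (B k)) (hg : T.g = (univTup k).g) (hu : T.u = (univTup k).u)
    (hv : T.v = (univTup k).v) :
    Spec.map (CommRingCat.ofHom (homOfTup k T).toRingHom) ≫ piS k = piS k := by
  have h1 : Spec.map (CommRingCat.ofHom (homOfTup k (univTup k)).toRingHom) = 𝟙 _ := by
    have h2 : homOfTup k (univTup k) = AlgHom.id k (B k) := by
      conv_rhs => rw [← homOfTup_map k (AlgHom.id k (B k))]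
      congr 1
    rw [h2]
    exact Spec.map_id _
  have h3 := (same_image_iff k (univTup k) T).2 ⟨1, 1, fun z => by
    have h4 : co T z = co (univTup k) z := by
      unfold co
      rw [hg, hu, hv]
    rw [h4]
    simp [sc]⟩
  rw [← h3, h1, Category.id_comp]

/-- the constants `W → B`. -/
noncomputable def cW : W k →ₐ[k] B k where
  toRingHom := (MvPolynomial.C : W k →+* B0 k)
  commutes' _ := rfl

/-- the point `r = 0`. -/
noncomputable def iW : B k →ₐ[k] W k := homOfTup k (univW k)

lemma cW_iW_pi : Spec.map (CommRingCat.ofHom (cW k).toRingHom) ≫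
    Spec.map (CommRingCat.ofHom (iW k).toRingHom) ≫ piS k = piS k := by
  have h1 : (cW k).comp (iW k) = homOfTup k ((univW k).map (cW k).toRingHom) :=
    homOfTup_comp k (cW k) (univW k)
  have h2 := proj_r k ((univW k).map (cW k).toRingHom) rfl rfl rfl
  rw [← h1] at h2
  rw [← Spec.map_comp_assoc]
  exact h2

lemma iW_gam : (iW k).toRingHom.comp (gamHom k).toRingHom = toW k := by
  let f : CoordSL k →ₐ[k] W k :=
    { toRingHom := toW k
      commutes' := fun _ => rfl }
  have h1 : (iW k).comp (gamHom k) = f := by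
    rw [gamHom, homOfMat_comp, ← homOfMat_of_map f]
    congr 1
    have h2 := Tup.gam_map (iW k).toRingHom (univTup k)
    have h3 : (univTup k).map (iW k).toRingHom = univW k := map_homOfTup k (univW k)
    rw [h3] at h2
    have h4 : (Matrix.SpecialLinearGroup.map (iW k : B k →+* W k) (Tup.gam (univTup k)) : SL (W k)) =
      Tup.gam (univW k) := h2.symm
    have h5 : Tup.low (univW k).r = 1 := by
      ext i j
      fin_cases i <;> fin_cases j <;> simp [Tup.low, univW]
    have h6 : Tup.gam (univW k) = (univW k).g := by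
      rw [Tup.gam, h5, one_mul]
    exact h4.trans h6
  have h7 := congrArg (fun F : CoordSL k →ₐ[k] W k => F.toRingHom) h1
  exact h7

lemma noetherian_W : IsNoetherianRing (W k) := by
  have h1 : Algebra.FiniteType k (CoordSL k) := inferInstance
  have h2 : Algebra.FiniteType k (W1 k) := inferInstance
  have h3 : Algebra.FiniteType k (W k) := inferInstance
  exact Algebra.FiniteType.isNoetherianRing k (W k)

lemma condII (h2 : (2 : k) = 0) : (ZZ k).CondII := by
  constructor
  · change Smooth (Spec.map (CommRingCat.ofHom (gamHom k).toRingHom))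
    rw [HasRingHomProperty.Spec_iff (P := @Smooth)]
    exact smooth_gamHom k h2
  · intro x
    have hs := surjective_piS k
    obtain ⟨t, ht⟩ := hs.surj x
    let y : Spec (CommRingCat.of (W k)) := Spec.map (CommRingCat.ofHom (cW k).toRingHom) t
    let q : Spec (CommRingCat.of (W k)) ⟶ Proj (Gr k) :=
      Spec.map (CommRingCat.ofHom (iW k).toRingHom) ≫ piS k
    have hqy : q y = x := by
      rw [← ht]
      conv_rhs => rw [← cW_iW_pi k]
      rfl
    have hN := noetherian_W k
    have hcl : IsClopen (connectedComponent (α := PrimeSpectrum (W k)) y) :=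
      isClopen_connectedComponent_of_noetherian _
    have hsurj := clopen_surj k (connectedComponent (α := PrimeSpectrum (W k)) y) hcl
      ⟨_, mem_connectedComponent⟩
    have hsub : q '' (connectedComponent (α := PrimeSpectrum (W k)) y) ⊆ connectedComponent x := by
      rw [← hqy]
      exact (isPreconnected_connectedComponent.image _ q.continuous.continuousOn)
        |>.subset_connectedComponent ⟨y, mem_connectedComponent, rfl⟩
    rw [Set.eq_univ_iff_forall]
    intro h
    have hh : (h : PrimeSpectrum (CoordSL k)) ∈ PrimeSpectrum.comap (toW k) ''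
        (connectedComponent (α := PrimeSpectrum (W k)) y) := by
      rw [hsurj]; trivial
    obtain ⟨w, hw, hwh⟩ := hh
    refine ⟨Spec.map (CommRingCat.ofHom (iW k).toRingHom) w, ?_, ?_⟩
    · exact hsub ⟨w, hw, rfl⟩
    · have h3 : Spec.map (CommRingCat.ofHom (iW k).toRingHom) ≫
          Spec.map (CommRingCat.ofHom (gamHom k).toRingHom) =
          Spec.map (CommRingCat.ofHom (toW k)) := by
        rw [← Spec.map_comp, ← CommRingCat.ofHom_comp, iW_gam]
      have h4 := congrArg (fun F : Spec (CommRingCat.of (W k)) ⟶ Spec (CommRingCat.of (CoordSL k)) =>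
        F w) h3
      exact h4.trans hwh

/-! ### The section of weight `(-2, 1, 0)` on `X` -/

lemma univMat_ne_zero : univMat k 1 0 ≠ 0 := by
  intro h
  have h1 := homOfMat_mk (k := k) (Tup.low ![1, 0, 0] : SL k) 1 0
  rw [← univMat_apply, h, map_zero] at h1
  simp [Tup.low] at h1

lemma univTup_g_ne_zero : (univTup k).g 1 0 ≠ 0 := by
  intro h
  have h1 : (iW k) ((univTup k).g 1 0) = (univW k).g 1 0 :=
    congrArg (fun T : Tup (W k) => T.g 1 0) (map_homOfTup k (univW k))
  rw [h, map_zero] at h1
  have h2 : (univW k).g 1 0 = toW k (univMat k 1 0) := rfl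
  rw [h2] at h1
  exact univMat_ne_zero k (toW_injective k (h1.symm.trans (map_zero (toW k)).symm))

/-- the function `g ↦ g₂₁` on `T`. -/
noncomputable def sec0 : Γ((Sp k (B k)).left, ⊤) :=
  (Scheme.ΓSpecIso (CommRingCat.of (B k))).inv.hom ((univTup k).g 1 0)

lemma hom_sec0 : (Scheme.ΓSpecIso (CommRingCat.of (B k))).hom.hom (sec0 k) =
    (univTup k).g 1 0 :=
  congrArg (fun F => F.hom ((univTup k).g 1 0))
    (Scheme.ΓSpecIso (CommRingCat.of (B k))).inv_hom_id

lemma sec0_ne_zero : sec0 k ≠ 0 := by
  intro h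
  apply univTup_g_ne_zero k
  rw [← hom_sec0, h]
  exact map_zero (Scheme.ΓSpecIso (CommRingCat.of (B k))).hom.hom

lemma val_sec0 {R : Type} [CommRing R] [Algebra k R] (τ : Sp k R ⟶ Sp k (B k)) :
    val τ (sec0 k) = sv (tup τ).g 1 := by
  rw [val_eq, hom_sec0]
  rfl

lemma wt0_mem : wt0 ∈ (ZZ k).cone := by
  refine ⟨1, one_pos, sec0 k, sec0_ne_zero k, ?_⟩
  intro R _ _ e τ a ha
  have h1 : val ((ZZ k).act R e τ) (sec0 k) = sv ((tup τ).act e).g 1 := by
    change val (Sp.map k (homOfTup k ((tup τ).act e))) (sec0 k) = _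
    rw [val_sec0, tup_map]
  have h2 : val (T := (ZZ k).T) τ (sec0 k) = sv (tup τ).g 1 := val_sec0 k τ
  rw [h1, h2]
  have h3 : sv ((tup τ).act e).g = sv (ZipGroup.dg e * (tup τ).g * e.1.2⁻¹) := rfl
  rw [h3, sv_tr]
  have hprod := ZipGroup.diag_mul e
  have hinv : (a 0)⁻¹ = a 1 * a 2 := by
    rw [inv_eq_iff_mul_eq_one]
    ext
    simp only [Units.val_mul, Units.val_one, ha]
    linear_combination hprod
  have hu : (∏ i, a i ^ (((1 : ℕ) : ℤ) * wt0 i)) = a 1 * (a 1 * a 2) ^ 2 := by
    rw [Fin.prod_univ_three, ← hinv]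
    simp only [wt0, Matrix.cons_val_zero, Matrix.cons_val_one, Matrix.cons_val_two,
      Matrix.head_cons, Matrix.tail_cons, mul_zero, zpow_zero, mul_one, Nat.cast_one, one_mul,
      zpow_one]
    rw [show (-2 : ℤ) = -((2 : ℕ) : ℤ) by norm_num, zpow_neg, zpow_natCast, inv_pow, mul_comm]
  rw [hu]
  simp only [Units.val_pow_eq_pow_val, Units.val_mul, ha, Matrix.cons_val_one]
  simp only [Matrix.cons_val_zero]
  ring

/-- The counterexample, over every field `k` of characteristic 2. -/
theorem main (h2 : (2 : k) = 0) :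
    ∃ (X : Over (Spec (CommRingCat.of k))) (Z : ZipMap k 2 X), CondI X ∧ Z.CondII ∧
      ∃ w, w ∈ Z.cone ∧ w ∉ (SLE k 2).cone :=
  ⟨XX k, ZZ k, condI k, condII k h2, wt0, wt0_mem k, wt0_not_mem k⟩

end Pool.Agent.Lib.MP_023d06_ag
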