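import Mathlib

/-!
# The graded algebra `⨁ V n ⊆ B[X]` of a multiplicative family of submodules
-/

open Polynomial

namespace Pool.Agent.Lib.MP_023d06_ag

section Generic

variable {k B : Type} [CommRing k] [CommRing B] [Algebra k B] (V : ℕ → Submodule k B)
  [SetLike.GradedMonoid V]

/-- the algebra `⨁ V n`, as the subalgebra of all `P ∈ B[X]` with `coeff n P ∈ V n`. -/
def ReesAlg : Subalgebra k B[X] where
  carrier := {P | ∀ n, P.coeff n ∈ V n}
  mul_mem' := by
    intro P Q hP hQ n
    rw [coeff_mul]
    refine Submodule.sum_mem _ fun ij hij => ?_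
    rw [Finset.HasAntidiagonal.mem_antidiagonal] at hij
    rw [← hij]
    exact SetLike.GradedMul.mul_mem (hP _) (hQ _)
  add_mem' := by
    intro P Q hP hQ n
    rw [coeff_add]
    exact Submodule.add_mem _ (hP n) (hQ n)
  algebraMap_mem' := by
    intro c n
    rw [Polynomial.algebraMap_apply, coeff_C]
    split_ifs with h
    · subst h
      rw [Algebra.algebraMap_eq_smul_one]
      exact Submodule.smul_mem _ _ SetLike.GradedOne.one_mem
    · exact Submodule.zero_mem _

lemma ReesAlg.mem_iff (P : B[X]) : P ∈ ReesAlg V ↔ ∀ n, P.coeff n ∈ V n := Iff.rfl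

/-- the degree `n` part. -/
def ReesGr (n : ℕ) : Submodule k (ReesAlg V) where
  carrier := {P | ∀ m, m ≠ n → P.1.coeff m = 0}
  add_mem' := by
    intro P Q hP hQ m hm
    change (P.1 + Q.1).coeff m = 0
    rw [coeff_add, hP m hm, hQ m hm, add_zero]
  zero_mem' := by intro m _; exact coeff_zero m
  smul_mem' := by
    intro c P hP m hm
    change (c • P.1).coeff m = 0
    rw [coeff_smul, hP m hm, smul_zero]

variable {V}

lemma ReesGr.mem_iff {n : ℕ} {P : ReesAlg V} :
    P ∈ ReesGr V n ↔ ∀ m, m ≠ n → P.1.coeff m = 0 := Iff.rfl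

/-- the homogeneous element `b X ^ n`, for `b ∈ V n`. -/
noncomputable def rmk (n : ℕ) (b : B) (hb : b ∈ V n) : ReesAlg V :=
  ⟨monomial n b, fun m => by
    rw [coeff_monomial]
    split_ifs with h
    · exact h ▸ hb
    · exact Submodule.zero_mem _⟩

lemma rmk_mem (n : ℕ) (b : B) (hb : b ∈ V n) : rmk n b hb ∈ ReesGr V n := by
  intro m hm
  change (monomial n b).coeff m = 0
  rw [coeff_monomial, if_neg (Ne.symm hm)]

lemma eq_rmk {n : ℕ} {P : ReesAlg V} (hP : P ∈ ReesGr V n) :
    P = rmk n (P.1.coeff n) (P.2 n) := by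
  apply Subtype.ext
  ext m
  change _ = (monomial n (P.1.coeff n)).coeff m
  rw [coeff_monomial]
  split_ifs with h
  · rw [h]
  · exact hP m (Ne.symm h)

variable (V)

/-- homogeneous components -/
noncomputable def rcomp (n : ℕ) : ReesAlg V →ₗ[k] ReesGr V n where
  toFun P := ⟨rmk n (P.1.coeff n) (P.2 n), rmk_mem _ _ _⟩
  map_add' P Q := by
    apply Subtype.ext; apply Subtype.ext
    change monomial n ((P.1 + Q.1).coeff n) = monomial n (P.1.coeff n) + monomial n (Q.1.coeff n)
    rw [coeff_add, map_add]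
  map_smul' c P := by
    apply Subtype.ext; apply Subtype.ext
    change monomial n ((c • P.1).coeff n) = c • monomial n (P.1.coeff n)
    rw [coeff_smul, smul_monomial]

noncomputable instance ReesGr.gradedMonoid : SetLike.GradedMonoid (ReesGr V) where
  one_mem := by
    intro m hm
    change (1 : B[X]).coeff m = 0
    rw [coeff_one, if_neg (by exact_mod_cast hm)]
  mul_mem := by
    intro i j P Q hP hQ m hm
    change (P.1 * Q.1).coeff m = 0
    rw [coeff_mul]
    refine Finset.sum_eq_zero fun ab hab => ?_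
    rw [Finset.HasAntidiagonal.mem_antidiagonal] at hab
    by_cases h1 : ab.1 = i
    · have h2 : ab.2 ≠ j := by rintro rfl; exact hm (by rw [← hab, h1])
      rw [hQ _ h2, mul_zero]
    · rw [hP _ h1, zero_mul]

/-- `n`-th coefficient as an additive map -/
noncomputable def rcoeff (n : ℕ) : ReesAlg V →+ B where
  toFun P := P.1.coeff n
  map_zero' := coeff_zero n
  map_add' P Q := coeff_add P.1 Q.1 n

lemma rcoeff_sum (x : DirectSum ℕ fun n => ReesGr V n) (n : ℕ) :
    rcoeff V n (DirectSum.coeAddMonoidHom (ReesGr V) x) = (x n).1.1.coeff n := by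
  classical
  induction x using DirectSum.induction_on with
  | zero => simp
  | of i y =>
    rw [DirectSum.coeAddMonoidHom_of]
    by_cases h : i = n
    · subst h
      rw [DirectSum.of_eq_same]
      rfl
    · rw [DirectSum.of_eq_of_ne _ _ _ (Ne.symm h)]
      have : (y.1.1).coeff n = 0 := y.2 n (Ne.symm h)
      change (y.1.1).coeff n = (0 : B[X]).coeff n
      rw [this, coeff_zero]
  | add x y hx hy =>
    rw [map_add, map_add, hx, hy]
    rfl

lemma ReesGr.isInternal : DirectSum.IsInternal (ReesGr V) := by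
  classical
  constructor
  · intro x y hxy
    refine DFinsupp.ext fun n => ?_
    have h := rcoeff_sum V x n
    rw [hxy, rcoeff_sum V y n] at h
    apply Subtype.ext
    rw [eq_rmk (x n).2, eq_rmk (y n).2]
    apply Subtype.ext
    change monomial n ((x n).1.1.coeff n) = monomial n ((y n).1.1.coeff n)
    rw [h]
  · intro P
    refine ⟨∑ n ∈ P.1.support, DirectSum.of (fun n => ReesGr V n) n (rcomp V n P), ?_⟩
    rw [map_sum]
    simp only [DirectSum.coeAddMonoidHom_of]
    apply Subtype.ext
    rw [AddSubmonoidClass.coe_finsetSum]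
    exact P.1.as_sum_support.symm

noncomputable instance ReesGr.gradedAlgebra : GradedAlgebra (ReesGr V) where
  toDecomposition := (ReesGr.isInternal V).chooseDecomposition

/-- evaluation at `X = 1`. -/
noncomputable def reval : ReesAlg V →ₐ[k] B :=
  ((Polynomial.aeval (1 : B)).restrictScalars k).comp (ReesAlg V).val

lemma reval_rmk (n : ℕ) (b : B) (hb : b ∈ V n) : reval V (rmk n b hb) = b := by
  change Polynomial.aeval (1 : B) (monomial n b) = b
  rw [aeval_monomial, one_pow, mul_one]
  rfl

lemma reval_injOn (n : ℕ) {P : ReesAlg V} (hP : P ∈ ReesGr V n) (h : reval V P = 0) : P = 0 := by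
  rw [eq_rmk hP, reval_rmk] at h
  rw [eq_rmk hP]
  apply Subtype.ext
  change monomial n (P.1.coeff n) = 0
  rw [h, map_zero]

lemma reval_mem (n : ℕ) {P : ReesAlg V} (hP : P ∈ ReesGr V n) : reval V P ∈ V n := by
  rw [eq_rmk hP, reval_rmk]
  exact P.2 n

end Generic

end Pool.Agent.Lib.MP_023d06_ag
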