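import Pool.Agent.Lib.MP_023d06_ag.RingB
import Pool.Agent.Lib.MP_023d06_ag.Rees

/-!
# Coordinates, weights, the graded algebra and the charts
-/

namespace Pool.Agent.Lib.MP_023d06_ag

section Weights

/-- first weights of the eight coordinates `s₁ s₂ s₃ t₁ t₂ t₃ u v`. -/
def wta : Fin 8 → ℤ := ![1, 3, 2, 1, -1, 0, 1, 1]

/-- second weights of the eight coordinates. -/
def wtb : Fin 8 → ℤ := ![0, -1, 1, 2, 3, 1, 1, 1]

variable {R : Type} [CommRing R]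

/-- the eight coordinates `s₁ s₂ s₃ t₁ t₂ t₃ u v` of a point -/
def co (τ : Tup R) : Fin 8 → R :=
  ![sv τ.g 0, sv τ.g 1, sv τ.g 2, tv τ.g 0, tv τ.g 1, tv τ.g 2, τ.u, τ.v]

lemma co_map {R' : Type} [CommRing R'] (f : R →+* R') (τ : Tup R) (z : Fin 8) :
    co (τ.map f) z = f (co τ z) := by
  fin_cases z <;> simp [co, Tup.map, Tup.sv_map, Tup.tv_map]

/-- monomials -/
def mon (c : Fin 8 → R) (e : Fin 8 → ℕ) : R := ∏ z, c z ^ e z

lemma mon_map {R' : Type} [CommRing R'] (f : R →+* R') (c : Fin 8 → R) (e : Fin 8 → ℕ) :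
    f (mon c e) = mon (fun z => f (c z)) e := by
  simp [mon, map_prod]

lemma mon_add (c : Fin 8 → R) (e e' : Fin 8 → ℕ) : mon c (e + e') = mon c e * mon c e' := by
  simp [mon, pow_add, Finset.prod_mul_distrib]

lemma mon_zero (c : Fin 8 → R) : mon c 0 = 1 := by simp [mon]

lemma mon_smul (c : Fin 8 → R) (K : ℕ) (e : Fin 8 → ℕ) : mon c (K • e) = mon c e ^ K := by
  simp [mon, ← Finset.prod_pow, pow_mul, mul_comm K]

/-- `e` has weight `(n, n)`. -/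
def IsDiag (e : Fin 8 → ℕ) (n : ℕ) : Prop :=
  ∑ z, (e z : ℤ) * wta z = n ∧ ∑ z, (e z : ℤ) * wtb z = n

instance (e : Fin 8 → ℕ) (n : ℕ) : Decidable (IsDiag e n) := by unfold IsDiag; infer_instance

lemma IsDiag.add {e e' : Fin 8 → ℕ} {n n' : ℕ} (h : IsDiag e n) (h' : IsDiag e' n') :
    IsDiag (e + e') (n + n') := by
  constructor
  · have : ∀ z, (((e + e') z : ℕ) : ℤ) * wta z = (e z : ℤ) * wta z + (e' z : ℤ) * wta z := by
      intro z; simp [add_mul]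
    simp only [this, Finset.sum_add_distrib, h.1, h'.1, Nat.cast_add]
  · have : ∀ z, (((e + e') z : ℕ) : ℤ) * wtb z = (e z : ℤ) * wtb z + (e' z : ℤ) * wtb z := by
      intro z; simp [add_mul]
    simp only [this, Finset.sum_add_distrib, h.2, h'.2, Nat.cast_add]

lemma IsDiag.zero : IsDiag 0 0 := by constructor <;> simp

lemma prod_zpow_sum {G : Type} [CommGroup G] {ι : Type} (s : Finset ι) (a : G) (f : ι → ℤ) :
    ∏ z ∈ s, a ^ f z = a ^ ∑ z ∈ s, f z := by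
  classical
  induction s using Finset.induction_on with
  | empty => simp
  | insert i s hi ih => rw [Finset.prod_insert hi, Finset.sum_insert hi, ih, zpow_add]

/-- the character `a ^ wta z * b ^ wtb z`. -/
def sc (a b : Rˣ) (z : Fin 8) : Rˣ := a ^ wta z * b ^ wtb z

lemma mon_scale {a b : Rˣ} {c c' : Fin 8 → R} (h : ∀ z, c' z = sc a b z * c z)
    {e : Fin 8 → ℕ} {n : ℕ} (he : IsDiag e n) : mon c' e = ((a * b : Rˣ) : R) ^ n * mon c e := by
  have h1 : ∏ z, ((sc a b z) ^ e z : Rˣ) = (a * b) ^ n := by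
    have h2 : ∀ z, (sc a b z) ^ e z = a ^ ((e z : ℤ) * wta z) * b ^ ((e z : ℤ) * wtb z) := by
      intro z
      rw [sc, mul_pow, ← zpow_natCast, ← zpow_natCast, ← zpow_mul, ← zpow_mul,
        mul_comm (wta z), mul_comm (wtb z)]
    rw [Finset.prod_congr rfl (fun z _ => h2 z), Finset.prod_mul_distrib,
      prod_zpow_sum, prod_zpow_sum, he.1, he.2, zpow_natCast, zpow_natCast, mul_pow]
  simp only [mon, h, mul_pow, Finset.prod_mul_distrib]
  rw [← Units.val_pow_eq_pow_val, ← h1]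
  simp

/-- the action of `e = (x, y)` multiplies the coordinates by the character with
`a = x₂₂ x₃₃ = x₁₁⁻¹`, `b = x₃₃`. -/
def ZipGroup.ua (e : ZipGroup 2 R) : Rˣ where
  val := e.1.1 1 1 * e.1.1 2 2
  inv := e.1.1 0 0
  val_inv := by linear_combination ZipGroup.diag_mul e
  inv_val := by linear_combination ZipGroup.diag_mul e

/-- `b = x₃₃` -/
def ZipGroup.ub (e : ZipGroup 2 R) : Rˣ where
  val := e.1.1 2 2
  inv := e.1.1 0 0 * e.1.1 1 1
  val_inv := by linear_combination ZipGroup.diag_mul e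
  inv_val := by linear_combination ZipGroup.diag_mul e

lemma ZipGroup.coe_ua (e : ZipGroup 2 R) : (ZipGroup.ua e : R) = e.1.1 1 1 * e.1.1 2 2 := rfl
lemma ZipGroup.coe_ua_inv (e : ZipGroup 2 R) : (((ZipGroup.ua e)⁻¹ : Rˣ) : R) = e.1.1 0 0 := rfl
lemma ZipGroup.coe_ub (e : ZipGroup 2 R) : (ZipGroup.ub e : R) = e.1.1 2 2 := rfl
lemma ZipGroup.coe_ub_inv (e : ZipGroup 2 R) :
    (((ZipGroup.ub e)⁻¹ : Rˣ) : R) = e.1.1 0 0 * e.1.1 1 1 := rfl

lemma sc_vals (a b : Rˣ) : (fun z => (sc a b z : R)) = ![(a : R), a ^ 3 * ((b⁻¹ : Rˣ) : R),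
    a ^ 2 * b, a * b ^ 2, ((a⁻¹ : Rˣ) : R) * b ^ 3, b, a * b, a * b] := by
  funext z
  fin_cases z
  · simp [sc, wta, wtb]
  · change ((a ^ (3 : ℤ) * b ^ (-1 : ℤ) : Rˣ) : R) = _
    rw [zpow_neg_one]; norm_cast
  · change ((a ^ (2 : ℤ) * b ^ (1 : ℤ) : Rˣ) : R) = _
    rw [zpow_one]; norm_cast
  · change ((a ^ (1 : ℤ) * b ^ (2 : ℤ) : Rˣ) : R) = _
    rw [zpow_one]; norm_cast
  · change ((a ^ (-1 : ℤ) * b ^ (3 : ℤ) : Rˣ) : R) = _
    rw [zpow_neg_one]; norm_cast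
  · simp [sc, wta, wtb]
  · simp [sc, wta, wtb]
  · simp [sc, wta, wtb]

lemma co_act (e : ZipGroup 2 R) (τ : Tup R) (z : Fin 8) :
    co (τ.act e) z = sc (ZipGroup.ua e) (ZipGroup.ub e) z * co τ z := by
  have h := ZipGroup.diag_mul e
  have hs := sv_tr e τ.g
  have ht := tv_tr e τ.g
  have hc := congrFun (sc_vals (ZipGroup.ua e) (ZipGroup.ub e)) z
  rw [hc]
  simp only [ZipGroup.coe_ua, ZipGroup.coe_ua_inv, ZipGroup.coe_ub, ZipGroup.coe_ub_inv]
  have hg : (τ.act e).g = ZipGroup.dg e * τ.g * e.1.2⁻¹ := rfl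
  simp only [co, hg, hs, ht]
  fin_cases z
  · simp
  · simp
    linear_combination (-(e.1.1 1 1) ^ 3 * (e.1.1 2 2) ^ 2 * sv τ.g 1) * h
  · simp; ring
  · simp; ring
  · simp
  · simp
  · simp [Tup.act]; ring
  · simp [Tup.act]; ring

lemma SL_mul_apply (x y : SL R) (i j : Fin 3) : (x * y) i j = ∑ l, x i l * y l j := by
  rw [Matrix.SpecialLinearGroup.coe_mul, Matrix.mul_apply]

lemma SL_one_apply (i j : Fin 3) : (1 : SL R) i j = (1 : Matrix (Fin 3) (Fin 3) R) i j := rfl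

/-- a point of `SL_3` from a diagonal pair of units -/
def dgm (a b : Rˣ) : SL R :=
  ⟨!![((a⁻¹ : Rˣ) : R), 0, 0; 0, (a : R) * ((b⁻¹ : Rˣ) : R), 0; 0, 0, (b : R)], by
    rw [Matrix.det_fin_three]
    simp⟩

lemma coe_dgm (a b : Rˣ) : (dgm a b : Matrix (Fin 3) (Fin 3) R) =
    !![((a⁻¹ : Rˣ) : R), 0, 0; 0, (a : R) * ((b⁻¹ : Rˣ) : R), 0; 0, 0, (b : R)] := rfl

lemma coe_low (r : Fin 3 → R) : (Tup.low r : Matrix (Fin 3) (Fin 3) R) =
    !![1, 0, 0; r 0, 1, 0; r 1, r 2, 1] := rfl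

lemma coe_low_inv (r : Fin 3 → R) : ((Tup.low r)⁻¹ : SL R).1 =
    !![1, 0, 0; - r 0, 1, 0; r 0 * r 2 - r 1, - r 2, 1] := by
  rw [Matrix.SpecialLinearGroup.coe_inv, coe_low]
  ext i j
  fin_cases i <;> fin_cases j <;> simp [Matrix.adjugate_fin_three]

lemma grad_lt3 {P : Fin 3 → Fin 3 → Prop} (h01 : P 0 1) (h02 : P 0 2) (h12 : P 1 2) :
    ∀ i j, i < j → P i j := by
  intro i j h
  have key : ∀ i j : Fin 3, i < j → (i = 0 ∧ j = 1) ∨ (i = 0 ∧ j = 2) ∨ (i = 1 ∧ j = 2) := by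
    decide
  rcases key i j h with ⟨hi, hj⟩ | ⟨hi, hj⟩ | ⟨hi, hj⟩
  · rw [hi, hj]; exact h01
  · rw [hi, hj]; exact h02
  · rw [hi, hj]; exact h12

/-- the torsor property in terms of coordinates -/
lemma exists_act {τ τ' : Tup R} {a b : Rˣ} (h : ∀ z, co τ' z = sc a b z * co τ z) :
    ∃ e : ZipGroup 2 R, τ.act e = τ' ∧ ZipGroup.ua e = a ∧ ZipGroup.ub e = b := by
  have hc := fun z => congrFun (sc_vals a b) z
  have h' : ∀ z, co τ' z = ![(a : R), a ^ 3 * ((b⁻¹ : Rˣ) : R),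
    a ^ 2 * b, a * b ^ 2, ((a⁻¹ : Rˣ) : R) * b ^ 3, b, a * b, a * b] z * co τ z := fun z => by
      rw [h z, ← hc z]
  have haa : (a : R) * ((a⁻¹ : Rˣ) : R) = 1 := by simp
  have hbb : (b : R) * ((b⁻¹ : Rˣ) : R) = 1 := by simp
  set ai : R := ((a⁻¹ : Rˣ) : R) with hai
  set bi : R := ((b⁻¹ : Rˣ) : R) with hbi
  have s0 : τ'.g 0 0 = a * τ.g 0 0 := by simpa [co, sv] using h' 0
  have s1 : τ'.g 1 0 = a ^ 3 * bi * τ.g 1 0 := by simpa [co, sv] using h' 1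
  have s2 : τ'.g 2 0 = a ^ 2 * b * τ.g 2 0 := by simpa [co, sv] using h' 2
  have t0 : τ'.g⁻¹ 2 0 = a * b ^ 2 * τ.g⁻¹ 2 0 := by
    have := h' 3
    simpa only [co, tv, Matrix.cons_val] using this
  have t1 : τ'.g⁻¹ 2 1 = ai * b ^ 3 * τ.g⁻¹ 2 1 := by
    have := h' 4
    simpa only [co, tv, Matrix.cons_val] using this
  have t2 : τ'.g⁻¹ 2 2 = b * τ.g⁻¹ 2 2 := by
    have := h' 5
    simpa only [co, tv, Matrix.cons_val] using this
  have hu : τ'.u = a * b * τ.u := by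
    have := h' 6
    simpa only [co, Matrix.cons_val] using this
  have hv : τ'.v = a * b * τ.v := by
    have := h' 7
    simpa only [co, Matrix.cons_val] using this
  -- the element
  set D : SL R := dgm a b with hD
  have hDm : (D : Matrix (Fin 3) (Fin 3) R) = !![ai, 0, 0; 0, (a : R) * bi, 0; 0, 0, (b : R)] := rfl
  set y : SL R := τ'.g⁻¹ * (D * τ.g) with hy
  set x : SL R := Tup.low τ'.r * (D * (Tup.low τ.r)⁻¹) with hx
  have hcol : ∀ j, (D * τ.g) j 0 = ai ^ 2 * τ'.g j 0 := by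
    intro j
    rw [Matrix.SpecialLinearGroup.coe_mul, Matrix.mul_apply, Fin.sum_univ_three, hDm]
    fin_cases j
    · simp [s0]; linear_combination (-ai * τ.g 0 0) * haa
    · simp [s1]; linear_combination (-(a : R) * bi * τ.g 1 0 * (a * ai + 1)) * haa
    · simp [s2]; linear_combination (-(b : R) * τ.g 2 0 * (a * ai + 1)) * haa
  have hyc : ∀ i, y i 0 = ai ^ 2 * (1 : Matrix (Fin 3) (Fin 3) R) i 0 := by
    intro i
    rw [← SL_one_apply, ← inv_mul_cancel τ'.g, hy, SL_mul_apply, SL_mul_apply, Finset.mul_sum]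
    refine Finset.sum_congr rfl fun j _ => ?_
    rw [hcol]; ring
  have hrow : ∀ i, (τ'.g⁻¹ * D) 2 i = (b : R) ^ 2 * τ.g⁻¹ 2 i := by
    intro i
    rw [Matrix.SpecialLinearGroup.coe_mul, Matrix.mul_apply, Fin.sum_univ_three, hDm]
    fin_cases i
    · simp only [t0, t1, t2]; simp; linear_combination ((b : R) ^ 2 * τ.g⁻¹ 2 0) * haa
    · simp only [t0, t1, t2]; simp
      linear_combination ((b : R) ^ 3 * bi * τ.g⁻¹ 2 1) * haa + ((b : R) ^ 2 * τ.g⁻¹ 2 1) * hbb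
    · simp only [t0, t1, t2]; simp; ring
  have hyr : ∀ j, y 2 j = (b : R) ^ 2 * (1 : Matrix (Fin 3) (Fin 3) R) 2 j := by
    intro j
    rw [← SL_one_apply, ← inv_mul_cancel τ.g, hy, ← mul_assoc, SL_mul_apply,
      SL_mul_apply τ.g⁻¹, Finset.mul_sum]
    refine Finset.sum_congr rfl fun j _ => ?_
    rw [hrow]; ring
  have y00 : y 0 0 = ai ^ 2 := by simpa using hyc 0
  have y10 : y 1 0 = 0 := by simpa using hyc 1
  have y20 : y 2 0 = 0 := by simpa using hyc 2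
  have y21 : y 2 1 = 0 := by simpa using hyr 1
  have y22 : y 2 2 = (b : R) ^ 2 := by simpa using hyr 2
  have y11 : y 1 1 = ((a : R) * bi) ^ 2 := by
    have hdet := y.2
    rw [Matrix.det_fin_three, y10, y20, y21, y00, y22] at hdet
    have h1 : ai ^ 2 * y 1 1 * (b : R) ^ 2 = 1 := by linear_combination hdet
    have ha2 : (a : R) ^ 2 * ai ^ 2 = 1 := by rw [← mul_pow, haa, one_pow]
    have hb2 : (b : R) ^ 2 * bi ^ 2 = 1 := by rw [← mul_pow, hbb, one_pow]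
    linear_combination ((a : R) ^ 2 * bi ^ 2) * h1 - y 1 1 * ha2 * ((b : R) ^ 2 * bi ^ 2) -
      y 1 1 * hb2
  have hxm : (x : Matrix (Fin 3) (Fin 3) R) = !![1, 0, 0; τ'.r 0, 1, 0; τ'.r 1, τ'.r 2, 1] *
      (!![ai, 0, 0; 0, (a : R) * bi, 0; 0, 0, (b : R)] *
      !![1, 0, 0; - τ.r 0, 1, 0; τ.r 0 * τ.r 2 - τ.r 1, - τ.r 2, 1]) := by
    rw [hx, Matrix.SpecialLinearGroup.coe_mul, Matrix.SpecialLinearGroup.coe_mul,
      ← coe_low_inv]; rfl
  have x01 : x 0 1 = 0 := by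
    rw [hxm]; simp [Matrix.mul_apply, Fin.sum_univ_three]
  have x02 : x 0 2 = 0 := by
    rw [hxm]; simp [Matrix.mul_apply, Fin.sum_univ_three]
  have x12 : x 1 2 = 0 := by
    rw [hxm]; simp [Matrix.mul_apply, Fin.sum_univ_three]
  have x00 : x 0 0 = ai := by
    rw [hxm]; simp [Matrix.mul_apply, Fin.sum_univ_three]
  have x11 : x 1 1 = (a : R) * bi := by
    rw [hxm]; simp [Matrix.mul_apply, Fin.sum_univ_three]
  have x22 : x 2 2 = (b : R) := by
    rw [hxm]; simp [Matrix.mul_apply, Fin.sum_univ_three]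
  let e : ZipGroup 2 R := ⟨(x, y), by
    refine ⟨grad_lt3 (P := fun i j => x i j = 0) x01 x02 x12,
      fun i j hij => grad_lt3 (P := fun i j => y j i = 0) y10 y20 y21 j i hij, fun i => ?_⟩
    change y i i = x i i ^ 2
    have key : i = 0 ∨ i = 1 ∨ i = 2 := by revert i; decide
    rcases key with h | h | h
    · rw [h, y00, x00]
    · rw [h, y11, x11]
    · rw [h, y22, x22]⟩
  have hdg : ZipGroup.dg e = D := by
    ext i j
    rw [hDm, ZipGroup.coe_dg]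
    change !![x 0 0, 0, 0; 0, x 1 1, 0; 0, 0, x 2 2] i j = _
    rw [x00, x11, x22]
  refine ⟨e, Tup.ext ?_ ?_ ?_ ?_, ?_, ?_⟩
  · change ZipGroup.dg e * τ.g * y⁻¹ = τ'.g
    rw [hdg, hy]; group
  · apply Tup.low_injective
    rw [Tup.low_act, hdg]
    change x * Tup.low τ.r * D⁻¹ = _
    rw [hx]; group
  · change x 1 1 * x 2 2 ^ 2 * τ.u = τ'.u
    rw [x11, x22, hu]; linear_combination ((a : R) * b * τ.u) * hbb
  · change x 1 1 * x 2 2 ^ 2 * τ.v = τ'.v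
    rw [x11, x22, hv]; linear_combination ((a : R) * b * τ.v) * hbb
  · ext
    change x 1 1 * x 2 2 = a
    rw [x11, x22]; linear_combination (a : R) * hbb
  · ext
    change x 2 2 = b
    exact x22

lemma act_unique {τ : Tup R} {e e' : ZipGroup 2 R} (h : τ.act e = τ.act e')
    (ha : ZipGroup.ua e = ZipGroup.ua e') (hb : ZipGroup.ub e = ZipGroup.ub e') : e = e' := by
  have h00 : e.1.1 0 0 = e'.1.1 0 0 := by
    rw [← ZipGroup.coe_ua_inv, ← ZipGroup.coe_ua_inv, ha]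
  have h22 : e.1.1 2 2 = e'.1.1 2 2 := by
    rw [← ZipGroup.coe_ub, ← ZipGroup.coe_ub, hb]
  have hab : e.1.1 1 1 * e.1.1 2 2 = e'.1.1 1 1 * e'.1.1 2 2 := by
    rw [← ZipGroup.coe_ua, ← ZipGroup.coe_ua, ha]
  have hbi : e.1.1 0 0 * e.1.1 1 1 = e'.1.1 0 0 * e'.1.1 1 1 := by
    rw [← ZipGroup.coe_ub_inv, ← ZipGroup.coe_ub_inv, hb]
  have h11 : e.1.1 1 1 = e'.1.1 1 1 := by
    have d := ZipGroup.diag_mul e
    have d' := ZipGroup.diag_mul e'
    rw [h00, h22] at d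
    linear_combination (e'.1.1 1 1) * d - (e.1.1 1 1) * d'
  have hdg : ZipGroup.dg e = ZipGroup.dg e' := by
    ext i j
    rw [ZipGroup.coe_dg, ZipGroup.coe_dg, h00, h11, h22]
  have hg : ZipGroup.dg e * τ.g * e.1.2⁻¹ = ZipGroup.dg e' * τ.g * e'.1.2⁻¹ :=
    congrArg Tup.g h
  rw [hdg, mul_right_inj, inv_inj] at hg
  have hl : Tup.low (τ.act e).r = Tup.low (τ.act e').r := by rw [h]
  rw [Tup.low_act, Tup.low_act, hdg, mul_left_inj, mul_left_inj] at hl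
  exact Subtype.ext (Prod.ext hl hg)


end Weights

end Pool.Agent.Lib.MP_023d06_ag
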