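import Pool.Agent.Lib.MP_023d06_ag.Chart

/-!
# Row PA: the morphism `Spec B ⟶ Proj A` on a chart
-/

open CategoryTheory AlgebraicGeometry

namespace Pool.Agent.Lib.MP_023d06_ag

section Generic

variable {A B R : Type} [CommRing A] [CommRing B] [CommRing R] {σ : Type} [SetLike σ A]
  [AddSubgroupClass σ A] (𝒜 : ℕ → σ) [GradedRing 𝒜]

/-- `A → B` as a homomorphism to the global sections of `Spec B`. -/
noncomputable def toSec (φ : A →+* B) : A →+* Γ(Spec (CommRingCat.of B), ⊤) :=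
  (Scheme.ΓSpecIso (CommRingCat.of B)).inv.hom.comp φ

lemma toSec_top (φ : A →+* B) (h : (HomogeneousIdeal.irrelevant 𝒜).toIdeal.map φ = ⊤) :
    (HomogeneousIdeal.irrelevant 𝒜).toIdeal.map (toSec φ) = ⊤ := by
  rw [toSec, ← Ideal.map_map, h, Ideal.map_top]

/-- the morphism `Spec B ⟶ Proj A` of a homomorphism `φ : A → B` (not graded) with
`φ(A₊) B = B`. -/
noncomputable def projMap (φ : A →+* B) (h : (HomogeneousIdeal.irrelevant 𝒜).toIdeal.map φ = ⊤) :
    Spec (CommRingCat.of B) ⟶ Proj 𝒜 :=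
  Proj.fromOfGlobalSections 𝒜 (toSec φ) (toSec_top 𝒜 φ h)

/-- the homomorphism `Γ(Spec B) → R` of a homomorphism `ψ : B → R`. -/
noncomputable def paSec (ψ : B →+* R) : Γ(Spec (CommRingCat.of B), ⊤) →+* R :=
  ψ.comp (Scheme.ΓSpecIso (CommRingCat.of B)).hom.hom

lemma paSec_toSec (φ : A →+* B) (ψ : B →+* R) (a : A) :
    paSec ψ (toSec φ a) = ψ (φ a) := by
  have h := congrArg (fun F => F.hom (φ a)) (Scheme.ΓSpecIso (CommRingCat.of B)).inv_hom_id
  exact congrArg ψ h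

lemma pa_toSpec (ψ : B →+* R) :
    Spec.map (CommRingCat.ofHom ψ) ≫ (Spec (CommRingCat.of B)).toSpecΓ =
      Spec.map (CommRingCat.ofHom (paSec ψ)) := by
  rw [← SpecMap_ΓSpecIso_hom, ← Spec.map_comp]
  rfl

lemma pa_range (ψ : B →+* R) (x : Γ(Spec (CommRingCat.of B), ⊤)) (hx : IsUnit (paSec ψ x)) :
    Set.range (Spec.map (CommRingCat.ofHom ψ)) ⊆
      Set.range ((Spec (CommRingCat.of B)).basicOpen x).ι := by
  rw [Scheme.Opens.range_ι]
  rintro _ ⟨y, rfl⟩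
  change Spec.map (CommRingCat.ofHom ψ) y ∈ (Spec (CommRingCat.of B)).basicOpen x
  rw [← Scheme.toSpecΓ_preimage_basicOpen]
  change ((Spec.map (CommRingCat.ofHom ψ) ≫ (Spec (CommRingCat.of B)).toSpecΓ) y) ∈
    PrimeSpectrum.basicOpen x
  rw [pa_toSpec]
  change x ∉ Ideal.comap (paSec ψ) y.asIdeal
  intro h
  exact y.isPrime.ne_top (Ideal.eq_top_of_isUnit_mem _ h hx)

/-- On points `ψ : B → R` with `ψ (φ f)` a unit, the morphism is given by the homomorphism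
`A_(f) → R`.  (Mathlib: `Proj.fromOfGlobalSections_morphismRestrict`,
`Proj.fromOfGlobalSections_resLE`, `Proj.toBasicOpenOfGlobalSections`.) -/
lemma map_projMap (φ : A →+* B) (h : (HomogeneousIdeal.irrelevant 𝒜).toIdeal.map φ = ⊤)
    (ψ : B →+* R) {f : A} {n : ℕ} (hn : 0 < n) (hf : f ∈ 𝒜 n) (hu : IsUnit ((ψ.comp φ) f)) :
    Spec.map (CommRingCat.ofHom ψ) ≫ projMap 𝒜 φ h =
      Spec.map (CommRingCat.ofHom (theta 𝒜 (ψ.comp φ) hu)) ≫ Proj.awayι 𝒜 f hf hn := by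
  have hux : IsUnit (paSec ψ (toSec φ f)) := by
    rw [paSec_toSec]; exact hu
  have hr := pa_range ψ (toSec φ f) hux
  obtain ⟨g', hg'⟩ : ∃ g' : Spec (CommRingCat.of R) ⟶
      ((Spec (CommRingCat.of B)).basicOpen (toSec φ f)).toScheme,
      g' ≫ ((Spec (CommRingCat.of B)).basicOpen (toSec φ f)).ι =
        Spec.map (CommRingCat.ofHom ψ) :=
    ⟨IsOpenImmersion.lift _ _ hr, IsOpenImmersion.lift_fac _ _ hr⟩
  have h1 := Proj.fromOfGlobalSections_resLE 𝒜 (toSec φ) (toSec_top 𝒜 φ h) hn hf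
  have h2 := Scheme.Hom.resLE_comp_ι (Proj.fromOfGlobalSections 𝒜 (toSec φ) (toSec_top 𝒜 φ h))
    (Proj.fromOfGlobalSections_preimage_basicOpen _ _ _ hn hf).ge
  rw [h1] at h2
  rw [← hg', projMap, Category.assoc, ← h2]
  have key : g' ≫ ((Spec (CommRingCat.of B)).isoOfEq
      ((Spec (CommRingCat.of B)).toSpecΓ_preimage_basicOpen (toSec φ f))).inv ≫
      ((Spec (CommRingCat.of B)).toSpecΓ ∣_ PrimeSpectrum.basicOpen (toSec φ f)) ≫
      (basicOpenIsoSpecAway (R := Γ(Spec (CommRingCat.of B), ⊤)) (toSec φ f)).hom =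
      Spec.map (CommRingCat.ofHom (IsLocalization.Away.lift (S := Localization.Away (toSec φ f))
        (toSec φ f) hux)) := by
    rw [← cancel_mono (Spec.map (CommRingCat.ofHom (algebraMap
      Γ(Spec (CommRingCat.of B), ⊤) (Localization.Away (toSec φ f)))))]
    simp only [Category.assoc, basicOpenIsoSpecAway_hom_SpecMap]
    rw [← Spec.map_comp, ← CommRingCat.ofHom_comp, IsLocalization.Away.lift_comp]
    rw [← pa_toSpec, ← hg']
    simp
  simp only [Proj.toBasicOpenOfGlobalSections, Category.assoc, Proj.basicOpenIsoSpec_inv_ι]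
  rw [reassoc_of% key, ← Spec.map_comp_assoc, ← CommRingCat.ofHom_comp]
  congr 3
  ext a
  simp only [theta, RingHom.comp_apply]
  generalize (algebraMap (HomogeneousLocalization.Away 𝒜 f) (Localization.Away f)) a = b
  rw [← RingHom.comp_apply]
  congr 1
  apply IsLocalization.ringHom_ext (M := Submonoid.powers f)
  ext a
  simp only [RingHom.comp_apply, IsLocalization.map_eq, IsLocalization.Away.lift_eq,
    Localization.awayLift, paSec_toSec]

/-- If the image of a point `ψ' : B → R` in `Proj A` lies in `D₊(f)` then `ψ' (φ f)` is a unit;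
here: if `ψ` and `ψ'` have the same image and `ψ (φ f)` is a unit then so is `ψ' (φ f)`. -/
lemma isUnit_of_map_projMap_eq (φ : A →+* B)
    (h : (HomogeneousIdeal.irrelevant 𝒜).toIdeal.map φ = ⊤) (ψ ψ' : B →+* R)
    (he : Spec.map (CommRingCat.ofHom ψ) ≫ projMap 𝒜 φ h =
      Spec.map (CommRingCat.ofHom ψ') ≫ projMap 𝒜 φ h)
    {f : A} {n : ℕ} (hn : 0 < n) (hf : f ∈ 𝒜 n) (hu : IsUnit ((ψ.comp φ) f)) :
    IsUnit ((ψ'.comp φ) f) := by
  have hpre : ∀ χ : B →+* R, ∀ y : Spec (CommRingCat.of R),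
      (Spec.map (CommRingCat.ofHom χ) ≫ projMap 𝒜 φ h) y ∈ Proj.basicOpen 𝒜 f ↔
        (χ.comp φ) f ∉ y.asIdeal := by
    intro χ y
    have h1 := Proj.fromOfGlobalSections_preimage_basicOpen 𝒜 (toSec φ) (toSec_top 𝒜 φ h) hn hf
    have h2 : (Spec.map (CommRingCat.ofHom χ) ≫ projMap 𝒜 φ h) y ∈ Proj.basicOpen 𝒜 f ↔
        Spec.map (CommRingCat.ofHom χ) y ∈ (Spec (CommRingCat.of B)).basicOpen (toSec φ f) := by
      rw [← h1]
      exact Iff.rfl
    rw [h2, ← Scheme.toSpecΓ_preimage_basicOpen]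
    change ((Spec.map (CommRingCat.ofHom χ) ≫ (Spec (CommRingCat.of B)).toSpecΓ) y) ∈
      PrimeSpectrum.basicOpen (toSec φ f) ↔ _
    rw [pa_toSpec]
    change toSec φ f ∉ Ideal.comap (paSec χ) y.asIdeal ↔ _
    rw [Ideal.mem_comap, paSec_toSec]
    exact Iff.rfl
  by_contra hcon
  obtain ⟨I, hI, hmem⟩ := exists_max_ideal_of_mem_nonunits (a := (ψ'.comp φ) f) hcon
  let y : Spec (CommRingCat.of R) := ⟨I, hI.isPrime⟩
  have h3 := hpre ψ y
  have h4 := hpre ψ' y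
  rw [he, h4] at h3
  have h5 : (ψ.comp φ) f ∉ I := fun h6 => hI.ne_top (Ideal.eq_top_of_isUnit_mem _ h6 hu)
  exact h3.mpr h5 hmem

/-- and then the two homomorphisms `A_(f) → R` agree. -/
lemma theta_eq_of_map_projMap_eq (φ : A →+* B)
    (h : (HomogeneousIdeal.irrelevant 𝒜).toIdeal.map φ = ⊤) (ψ ψ' : B →+* R)
    (he : Spec.map (CommRingCat.ofHom ψ) ≫ projMap 𝒜 φ h =
      Spec.map (CommRingCat.ofHom ψ') ≫ projMap 𝒜 φ h)
    {f : A} {n : ℕ} (hn : 0 < n) (hf : f ∈ 𝒜 n) (hu : IsUnit ((ψ.comp φ) f))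
    (hu' : IsUnit ((ψ'.comp φ) f)) :
    theta 𝒜 (ψ.comp φ) hu = theta 𝒜 (ψ'.comp φ) hu' := by
  rw [map_projMap 𝒜 φ h ψ hn hf hu, map_projMap 𝒜 φ h ψ' hn hf hu', cancel_mono] at he
  have h2 := Spec.map_injective he
  exact congrArg (fun F : CommRingCat.of (HomogeneousLocalization.Away 𝒜 f) ⟶
    CommRingCat.of R => F.hom) h2

end Generic

end Pool.Agent.Lib.MP_023d06_ag
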