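import Pool.Agent.Lib.MP_023d06_ag.ChartPt
import Pool.Agent.Lib.MP_023d06_ag.PiAway
import Pool.Agent.Lib.MP_023d06_ag.Proper

/-!
# The morphism `π : Spec B ⟶ X = Proj A`
-/

open CategoryTheory AlgebraicGeometry

namespace Pool.Agent.Lib.MP_023d06_ag

variable (k : Type) [Field k]

lemma chf_mem_irrelevant (c : Fin 9) :
    chf k c ∈ (HomogeneousIdeal.irrelevant (Gr k)).toIdeal := by
  change chf k c ∈ HomogeneousIdeal.irrelevant (Gr k)
  rw [HomogeneousIdeal.mem_irrelevant_iff]
  exact DirectSum.decompose_of_mem_ne (Gr k) (chf_mem k c) (chn_pos c).ne'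

lemma reval_chf (c : Fin 9) : reval (V k) (chf k c) = mon (co (univTup k)) (chm c) :=
  reval_rmk (V k) _ _ (mon_mem_V k (ch_diag c))

lemma irr_map : (HomogeneousIdeal.irrelevant (Gr k)).toIdeal.map (reval (V k)).toRingHom = ⊤ := by
  rw [eq_top_iff, ← cover_ring (univTup k), Ideal.span_le]
  rintro _ ⟨c, rfl⟩
  have h2 := Ideal.mem_map_of_mem (reval (V k)).toRingHom (chf_mem_irrelevant k c)
  have h3 : (reval (V k)).toRingHom (chf k c) = mon (co (univTup k)) (chm c) := reval_chf k c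
  rw [h3] at h2
  exact h2

/-- the morphism `Spec B ⟶ Proj A`. -/
noncomputable def piS : Spec (CommRingCat.of (B k)) ⟶ Proj (Gr k) :=
  projMap (Gr k) (reval (V k)).toRingHom (irr_map k)

end Pool.Agent.Lib.MP_023d06_ag
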