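import Pool.Agent.Lib.MP_023d06_ag.Tup

/-!
# The coordinate ring `B` of the torsor and its universal point
-/

open Polynomial

namespace Pool.Agent.Lib.MP_023d06_ag

lemma ringB_root {A : Type} [CommRing A] (n : ℕ) (a : A) :
    (AdjoinRoot.root (X ^ n - C a : A[X])) ^ n = AdjoinRoot.of (X ^ n - C a : A[X]) a := by
  have h := AdjoinRoot.eval₂_root (X ^ n - C a : A[X])
  rw [eval₂_sub, eval₂_pow, eval₂_X, eval₂_C, sub_eq_zero] at h
  exact h

lemma ringB_eval {A R : Type} [CommRing A] [CommRing R] (f : A →+* R) (n : ℕ) (a : A) (x : R)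
    (h : x ^ n = f a) : (X ^ n - C a : A[X]).eval₂ f x = 0 := by
  rw [eval₂_sub, eval₂_pow, eval₂_X, eval₂_C, sub_eq_zero, h]

lemma ringB_pow {A R : Type} [CommRing A] [CommRing R] (f : A →+* R) (n : ℕ) (a b : A)
    (h : a ^ n = b) : (f a) ^ n = f b := by
  rw [← RingHom.map_pow, h]

lemma ringB_f3 {A R : Type} [CommRing A] [CommRing R] (f : A →+* R) (n : ℕ) (a : A) (g : SL A)
    (h : a ^ n = f3 (sv g) (tv g)) :
    (f a) ^ n = f3 (sv (Matrix.SpecialLinearGroup.map f g))
      (tv (Matrix.SpecialLinearGroup.map f g)) := by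
  rw [Tup.f3_map, ← h, RingHom.map_pow]

lemma ringB_F7 {A R : Type} [CommRing A] [CommRing R] (f : A →+* R) (n : ℕ) (a u : A) (g : SL A)
    (h : a ^ n = F7 (sv g) (tv g) u) :
    (f a) ^ n = F7 (sv (Matrix.SpecialLinearGroup.map f g))
      (tv (Matrix.SpecialLinearGroup.map f g)) (f u) := by
  rw [Tup.F7_map, ← h, RingHom.map_pow]

variable (k : Type) [Field k]

/-- `k[SL_3][u] / (u ^ 3 - f3)` -/
abbrev W1 : Type := AdjoinRoot (X ^ 3 - C (f3 (sv (univMat k)) (tv (univMat k))) : (CoordSL k)[X])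

/-- the universal matrix over `W1`. -/
noncomputable def matW1 : SL (W1 k) :=
  Matrix.SpecialLinearGroup.map (AdjoinRoot.of _) (univMat k)

/-- the element `u`. -/
noncomputable def uW1 : W1 k := AdjoinRoot.root _

/-- `k[SL_3][u, v] / (u ^ 3 - f3, v ^ 7 - F7)`: the coordinate ring of `W`. -/
abbrev W : Type := AdjoinRoot (X ^ 7 - C (F7 (sv (matW1 k)) (tv (matW1 k)) (uW1 k)) : (W1 k)[X])

/-- The coordinate ring of the torsor `T = U⁻ × W` (transparent version). -/
abbrev B0 : Type := MvPolynomial (Fin 3) (W k)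

lemma uW1_pow : (uW1 k) ^ 3 = f3 (sv (matW1 k)) (tv (matW1 k)) := by
  exact (ringB_root 3 (f3 (sv (univMat k)) (tv (univMat k)))).trans
    (Tup.f3_map (AdjoinRoot.of _) (univMat k)).symm

/-- The universal `W`-point, with `r = 0`. -/
noncomputable def univW : Tup (W k) where
  g := Matrix.SpecialLinearGroup.map (AdjoinRoot.of _) (matW1 k)
  r := 0
  u := AdjoinRoot.of _ (uW1 k)
  v := AdjoinRoot.root _
  eq1 := ringB_f3 (AdjoinRoot.of _) 3 (uW1 k) (matW1 k) (uW1_pow k)
  eq2 := (ringB_root 7 (F7 (sv (matW1 k)) (tv (matW1 k)) (uW1 k))).trans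
    (Tup.F7_map (AdjoinRoot.of _) (matW1 k) (uW1 k)).symm

/-- The universal point of `Tup`. -/
noncomputable def univTup0 : Tup (B0 k) where
  g := Matrix.SpecialLinearGroup.map (MvPolynomial.C) (univW k).g
  r := fun i => MvPolynomial.X i
  u := MvPolynomial.C (univW k).u
  v := MvPolynomial.C (univW k).v
  eq1 := ringB_f3 MvPolynomial.C 3 (univW k).u (univW k).g (univW k).eq1
  eq2 := ringB_F7 MvPolynomial.C 7 (univW k).v (univW k).u (univW k).g (univW k).eq2

variable {R : Type} [CommRing R] [Algebra k R]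

/-- the homomorphism `W1 → R` of a point. -/
noncomputable def homW1 (τ : Tup R) : W1 k →ₐ[k] R :=
  AdjoinRoot.liftAlgHom _ (homOfMat k τ.g) τ.u (by
    have h : τ.g = Matrix.SpecialLinearGroup.map (homOfMat k τ.g).toRingHom (univMat k) :=
      (homOfMat_univMat τ.g).symm
    have h1 : f3 (sv τ.g) (tv τ.g) = (homOfMat k τ.g).toRingHom
        (f3 (sv (univMat k)) (tv (univMat k))) := by
      rw [← Tup.f3_map (homOfMat k τ.g).toRingHom (univMat k), ← h]
    exact ringB_eval (homOfMat k τ.g).toRingHom 3 _ τ.u (τ.eq1.trans h1))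

lemma homW1_mat (τ : Tup R) :
    Matrix.SpecialLinearGroup.map (homW1 k τ).toRingHom (matW1 k) = τ.g := by
  rw [← homOfMat_univMat (k := k) τ.g]
  ext i j
  change homW1 k τ (AdjoinRoot.of _ (univMat k i j)) = homOfMat k τ.g (univMat k i j)
  rw [homW1, AdjoinRoot.liftAlgHom_of]

lemma homW1_u (τ : Tup R) : homW1 k τ (uW1 k) = τ.u := by
  rw [homW1, uW1, AdjoinRoot.liftAlgHom_root]

/-- the homomorphism `W → R` of a point. -/
noncomputable def homW (τ : Tup R) : W k →ₐ[k] R :=
  AdjoinRoot.liftAlgHom _ (homW1 k τ) τ.v (by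
    have h : τ.g = Matrix.SpecialLinearGroup.map (homW1 k τ).toRingHom (matW1 k) :=
      (homW1_mat k τ).symm
    have h2 : τ.u = (homW1 k τ).toRingHom (uW1 k) := (homW1_u k τ).symm
    have h1 : F7 (sv τ.g) (tv τ.g) τ.u = (homW1 k τ).toRingHom
        (F7 (sv (matW1 k)) (tv (matW1 k)) (uW1 k)) := by
      rw [← Tup.F7_map (homW1 k τ).toRingHom (matW1 k), ← h, ← h2]
    exact ringB_eval (homW1 k τ).toRingHom 7 _ τ.v (τ.eq2.trans h1))

/-- the homomorphism `B → R` of a point. -/
noncomputable def homOfTup0 (τ : Tup R) : B0 k →ₐ[k] R :=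
  MvPolynomial.aevalTower (homW k τ) τ.r

lemma homOfTup0_C (τ : Tup R) (w : W k) : homOfTup0 k τ (MvPolynomial.C w) = homW k τ w := by
  rw [homOfTup0, MvPolynomial.aevalTower_C]

lemma homOfTup0_X (τ : Tup R) (i : Fin 3) : homOfTup0 k τ (MvPolynomial.X i) = τ.r i := by
  rw [homOfTup0, MvPolynomial.aevalTower_X]

lemma map_homOfTup0 (τ : Tup R) : (univTup0 k).map (homOfTup0 k τ).toRingHom = τ := by
  apply Tup.ext
  · conv_rhs => rw [← homW1_mat k τ]
    ext i j
    change homOfTup0 k τ (MvPolynomial.C (AdjoinRoot.of _ (matW1 k i j))) =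
      homW1 k τ (matW1 k i j)
    rw [homOfTup0_C, homW, AdjoinRoot.liftAlgHom_of]
  · funext i
    exact homOfTup0_X k τ i
  · change homOfTup0 k τ (MvPolynomial.C (AdjoinRoot.of _ (uW1 k))) = τ.u
    rw [homOfTup0_C, homW, AdjoinRoot.liftAlgHom_of, homW1_u]
  · change homOfTup0 k τ (MvPolynomial.C (AdjoinRoot.root _)) = τ.v
    rw [homOfTup0_C, homW, AdjoinRoot.liftAlgHom_root]

lemma B0.hom_ext {f f' : B0 k →ₐ[k] R}
    (h : (univTup0 k).map f.toRingHom = (univTup0 k).map f'.toRingHom) : f = f' := by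
  have hg : ∀ i j, f ((univTup0 k).g i j) = f' ((univTup0 k).g i j) := fun i j => by
    have := congrArg (fun τ : Tup R => τ.g i j) h
    exact this
  have hr : ∀ i, f (MvPolynomial.X i) = f' (MvPolynomial.X i) := fun i =>
    congrArg (fun τ : Tup R => τ.r i) h
  have hu : f (univTup0 k).u = f' (univTup0 k).u := congrArg (fun τ : Tup R => τ.u) h
  have hv : f (univTup0 k).v = f' (univTup0 k).v := congrArg (fun τ : Tup R => τ.v) h
  apply AlgHom.coe_ringHom_injective
  apply MvPolynomial.ringHom_ext'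
  · apply AdjoinRoot.ringHom_ext
    · apply AdjoinRoot.ringHom_ext
      · have hc : ∀ c : k, MvPolynomial.C (AdjoinRoot.of _ (AdjoinRoot.of _
            (algebraMap k (CoordSL k) c))) = algebraMap k (B0 k) c := fun c => rfl
        let F : CoordSL k →ₐ[k] R :=
          { toRingHom := f.toRingHom.comp (MvPolynomial.C.comp ((AdjoinRoot.of _).comp
              (AdjoinRoot.of _)))
            commutes' := fun c => (congrArg f (hc c)).trans (f.commutes c) }
        let F' : CoordSL k →ₐ[k] R :=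
          { toRingHom := f'.toRingHom.comp (MvPolynomial.C.comp ((AdjoinRoot.of _).comp
              (AdjoinRoot.of _)))
            commutes' := fun c => (congrArg f' (hc c)).trans (f'.commutes c) }
        have hF : F = F' := CoordSL.hom_ext hg
        exact congrArg (fun G : CoordSL k →ₐ[k] R => (G : CoordSL k →+* R)) hF
      · exact hu
    · exact hv
  · exact hr

lemma homOfTup0_map (f : B0 k →ₐ[k] R) : homOfTup0 k ((univTup0 k).map f.toRingHom) = f := by
  apply B0.hom_ext
  rw [map_homOfTup0]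

/-- The coordinate ring of the torsor `T = U⁻ × W`. -/
def B : Type := B0 k

noncomputable instance B.commRing : CommRing (B k) := inferInstanceAs (CommRing (B0 k))

noncomputable instance B.algebra : Algebra k (B k) := inferInstanceAs (Algebra k (B0 k))

/-- The universal point of `Tup`. -/
noncomputable def univTup : Tup (B k) := univTup0 k

/-- the homomorphism `B → R` of a point. -/
noncomputable def homOfTup (τ : Tup R) : B k →ₐ[k] R := homOfTup0 k τ

lemma map_homOfTup (τ : Tup R) : (univTup k).map (homOfTup k τ).toRingHom = τ :=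
  map_homOfTup0 k τ

lemma B.hom_ext {f f' : B k →ₐ[k] R}
    (h : (univTup k).map f.toRingHom = (univTup k).map f'.toRingHom) : f = f' :=
  B0.hom_ext k h

lemma homOfTup_map (f : B k →ₐ[k] R) : homOfTup k ((univTup k).map f.toRingHom) = f :=
  homOfTup0_map k f

lemma homOfTup_comp {R' : Type} [CommRing R'] [Algebra k R'] (f : R →ₐ[k] R') (τ : Tup R) :
    f.comp (homOfTup k τ) = homOfTup k (τ.map f.toRingHom) := by
  rw [← homOfTup_map k (f.comp (homOfTup k τ))]
  congr 1
  conv_rhs => rw [← map_homOfTup k τ, Tup.map_map]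
  rfl

end Pool.Agent.Lib.MP_023d06_ag
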