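import Pool.Agent.Lib.MP_023d06_ag.Obj

/-!
# Row TO: the torsor property of `π`
-/

open CategoryTheory AlgebraicGeometry

namespace Pool.Agent.Lib.MP_023d06_ag

lemma glue_sc_map {R R' : Type} [CommRing R] [CommRing R'] (f : R →+* R') (a b : Rˣ) (z : Fin 8) :
    f (sc a b z : R) = (sc (Units.map f.toMonoidHom a) (Units.map f.toMonoidHom b) z : R') := by
  have h : Units.map f.toMonoidHom (sc a b z) =
      sc (Units.map f.toMonoidHom a) (Units.map f.toMonoidHom b) z := by
    simp only [sc, map_mul, map_zpow]
  rw [← h]
  rfl

/-- gluing of one unit -/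
lemma glue_unit {R : Type} [CommRing R] (s : Set R) (hs : Ideal.span s = ⊤)
    (x : ∀ a : s, (Localization.Away (a : R))ˣ)
    (hx : ∀ a b : s, Units.map (IsLocalization.Away.awayToAwayRight (S := Localization.Away (a : R))
        (P := Localization.Away ((a : R) * b)) (a : R) (b : R)).toMonoidHom (x a) =
      Units.map (IsLocalization.Away.awayToAwayLeft (S := Localization.Away (b : R))
        (P := Localization.Away ((a : R) * b)) (b : R) (a : R)).toMonoidHom (x b)) :
    ∃ A : Rˣ, ∀ a : s, Units.map (algebraMap R (Localization.Away (a : R))).toMonoidHom A = x a := by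
  obtain ⟨r, hr, -⟩ := Localization.existsUnique_algebraMap_eq_of_span_eq_top s hs
    (fun a => (x a : Localization.Away (a : R))) (fun a b => congrArg Units.val (hx a b))
  obtain ⟨r', hr', -⟩ := Localization.existsUnique_algebraMap_eq_of_span_eq_top s hs
    (fun a => ((x a)⁻¹ : (Localization.Away (a : R))ˣ).val) (fun a b => by
      have h := congrArg (fun u => (u⁻¹ : (Localization.Away ((a : R) * b))ˣ).val) (hx a b)
      rw [← map_inv, ← map_inv] at h
      exact h)
  have hmul : r * r' = 1 := by
    apply Localization.algebraMap_injective_of_span_eq_top s hs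
    funext a
    rw [Pi.algebraMap_apply, Pi.algebraMap_apply, map_mul, hr a, hr' a, map_one, Units.mul_inv]
  refine ⟨⟨r, r', hmul, by rw [mul_comm]; exact hmul⟩, fun a => ?_⟩
  exact Units.ext (hr a)

/-- gluing of the pair of units. -/
lemma units_glue {R : Type} [CommRing R] (T T' : Tup R)
    (h : ∀ c : Fin 9, ∃ a b : (Localization.Away (mon (co T) (chm c)))ˣ,
      ∀ z, algebraMap R (Localization.Away (mon (co T) (chm c))) (co T' z) =
        sc a b z * algebraMap R (Localization.Away (mon (co T) (chm c))) (co T z)) :
    ∃ a b : Rˣ, ∀ z, co T' z = sc a b z * co T z := by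
  have hs : Ideal.span (Set.range fun c => mon (co T) (chm c)) = ⊤ := cover_ring T
  obtain ⟨s, hsdef⟩ : ∃ s : Set R, s = Set.range fun c => mon (co T) (chm c) := ⟨_, rfl⟩
  rw [← hsdef] at hs
  have h' : ∀ a : s, ∃ x y : (Localization.Away (a : R))ˣ, ∀ z,
      algebraMap R (Localization.Away (a : R)) (co T' z) =
        sc x y z * algebraMap R (Localization.Away (a : R)) (co T z) := by
    rintro ⟨a, ha⟩
    have ha' := ha
    rw [hsdef] at ha'
    obtain ⟨c, rfl⟩ := ha'
    exact h c
  choose x y hxy using h'
  have hcompat : ∀ a b : s,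
      Units.map (IsLocalization.Away.awayToAwayRight (S := Localization.Away (a : R))
        (P := Localization.Away ((a : R) * b)) (a : R) (b : R)).toMonoidHom (x a) =
      Units.map (IsLocalization.Away.awayToAwayLeft (S := Localization.Away (b : R))
        (P := Localization.Away ((a : R) * b)) (b : R) (a : R)).toMonoidHom (x b) ∧
      Units.map (IsLocalization.Away.awayToAwayRight (S := Localization.Away (a : R))
        (P := Localization.Away ((a : R) * b)) (a : R) (b : R)).toMonoidHom (y a) =
      Units.map (IsLocalization.Away.awayToAwayLeft (S := Localization.Away (b : R))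
        (P := Localization.Away ((a : R) * b)) (b : R) (a : R)).toMonoidHom (y b) := by
    intro a b
    refine units_unique (T := T.map (algebraMap R (Localization.Away ((a : R) * b)))) ?_
    intro z
    have e1 := congrArg (IsLocalization.Away.awayToAwayRight (S := Localization.Away (a : R))
        (P := Localization.Away ((a : R) * b)) (a : R) (b : R)) (hxy a z)
    have e2 := congrArg (IsLocalization.Away.awayToAwayLeft (S := Localization.Away (b : R))
        (P := Localization.Away ((a : R) * b)) (b : R) (a : R)) (hxy b z)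
    rw [map_mul, IsLocalization.Away.awayToAwayRight_eq, IsLocalization.Away.awayToAwayRight_eq,
      glue_sc_map] at e1
    rw [map_mul, IsLocalization.Away.awayToAwayLeft_eq, IsLocalization.Away.awayToAwayLeft_eq,
      glue_sc_map] at e2
    rw [co_map, ← e1, ← e2]
  obtain ⟨A, hA⟩ := glue_unit s hs x (fun a b => (hcompat a b).1)
  obtain ⟨B', hB⟩ := glue_unit s hs y (fun a b => (hcompat a b).2)
  refine ⟨A, B', fun z => ?_⟩
  apply Localization.algebraMap_injective_of_span_eq_top s hs
  funext a
  rw [Pi.algebraMap_apply, Pi.algebraMap_apply, map_mul, hxy a z, glue_sc_map, hA a, hB a]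

variable (k : Type) [Field k] {R : Type} [CommRing R] [Algebra k R]

lemma to2_comp {R' : Type} [CommRing R'] [Algebra k R'] (f : R →ₐ[k] R') (T : Tup R) :
    Spec.map (CommRingCat.ofHom f.toRingHom) ≫
      Spec.map (CommRingCat.ofHom (homOfTup k T).toRingHom) =
    Spec.map (CommRingCat.ofHom (homOfTup k (T.map f.toRingHom)).toRingHom) := by
  rw [← Spec.map_comp, ← CommRingCat.ofHom_comp]
  congr 2
  have h := congrArg (fun g : B k →ₐ[k] R' => g.toRingHom) (homOfTup_comp k f T)
  exact h

lemma to2_isUnit (T : Tup R) (c : Fin 9) (hu : IsUnit (mon (co T) (chm c))) :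
    IsUnit (((homOfTup k T).toRingHom.comp (reval (V k)).toRingHom) (chf k c)) := by
  have h : ((homOfTup k T).toRingHom.comp (reval (V k)).toRingHom) (chf k c) =
      mon (co T) (chm c) := chf_ev T c
  rw [h]
  exact hu

/-- equality of the images of two points over a chart -/
lemma to2_chart (T T' : Tup R) (c : Fin 9) (hu : IsUnit (mon (co T) (chm c))) {a b : Rˣ}
    (h : ∀ z, co T' z = sc a b z * co T z) :
    Spec.map (CommRingCat.ofHom (homOfTup k T).toRingHom) ≫ piS k =
      Spec.map (CommRingCat.ofHom (homOfTup k T').toRingHom) ≫ piS k := by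
  have hu' : IsUnit (mon (co T') (chm c)) := by
    rw [mon_scale h (ch_diag c)]
    exact ((a * b).isUnit.pow _).mul hu
  have e1 := map_projMap (Gr k) (reval (V k)).toRingHom (irr_map k) (homOfTup k T).toRingHom
    (chn_pos c) (chf_mem k c) (to2_isUnit k T c hu)
  have e2 := map_projMap (Gr k) (reval (V k)).toRingHom (irr_map k) (homOfTup k T').toRingHom
    (chn_pos c) (chf_mem k c) (to2_isUnit k T' c hu')
  have e3 := th_eq_of_scale (chf_mem k c) T T' (to2_isUnit k T c hu) (to2_isUnit k T' c hu') h
  rw [piS, e1, e2]
  congr 3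

/-- two points of `Spec B` have the same image in `X = Proj A` iff they differ by a torus
element. -/
lemma same_image_iff (T T' : Tup R) :
    Spec.map (CommRingCat.ofHom (homOfTup k T).toRingHom) ≫ piS k =
      Spec.map (CommRingCat.ofHom (homOfTup k T').toRingHom) ≫ piS k ↔
    ∃ a b : Rˣ, ∀ z, co T' z = sc a b z * co T z := by
  constructor
  · intro he
    apply units_glue
    intro c
    let Rc := Localization.Away (mon (co T) (chm c))
    let f : R →ₐ[k] Rc := IsScalarTower.toAlgHom k R Rc
    have he' : Spec.map (CommRingCat.ofHom (homOfTup k (T.map f.toRingHom)).toRingHom) ≫ piS k =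
      Spec.map (CommRingCat.ofHom (homOfTup k (T'.map f.toRingHom)).toRingHom) ≫ piS k := by
      rw [← to2_comp, ← to2_comp, Category.assoc, Category.assoc, he]
    have hu0 : IsUnit (mon (co (T.map f.toRingHom)) (chm c)) := by
      have h1 : mon (co (T.map f.toRingHom)) (chm c) = f (mon (co T) (chm c)) := by
        have h2 := mon_map f.toRingHom (co T) (chm c)
        have h3 : (fun z => f.toRingHom (co T z)) = co (T.map f.toRingHom) := by
          funext z
          exact (co_map f.toRingHom T z).symm
        rw [h3] at h2
        exact h2.symm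
      rw [h1]
      exact IsLocalization.Away.algebraMap_isUnit (mon (co T) (chm c))
    have hu := to2_isUnit k (T.map f.toRingHom) c hu0
    have hu' := isUnit_of_map_projMap_eq (Gr k) (reval (V k)).toRingHom (irr_map k) _ _ he'
      (chn_pos c) (chf_mem k c) hu
    have ht := theta_eq_of_map_projMap_eq (Gr k) (reval (V k)).toRingHom (irr_map k) _ _ he'
      (chn_pos c) (chf_mem k c) hu hu'
    obtain ⟨a, b, hab⟩ := exists_units c (T.map f.toRingHom) (T'.map f.toRingHom) hu hu' ht
    refine ⟨a, b, fun z => ?_⟩
    have h4 := hab z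
    rw [co_map, co_map] at h4
    exact h4
  · rintro ⟨a, b, h⟩
    have hs : Ideal.span (Set.range fun c => mon (co T) (chm c)) = ⊤ := cover_ring T
    have key : ∀ c : Fin 9,
        Spec.map (CommRingCat.ofHom (algebraMap R (Localization.Away (mon (co T) (chm c))))) ≫
          Spec.map (CommRingCat.ofHom (homOfTup k T).toRingHom) ≫ piS k =
        Spec.map (CommRingCat.ofHom (algebraMap R (Localization.Away (mon (co T) (chm c))))) ≫
          Spec.map (CommRingCat.ofHom (homOfTup k T').toRingHom) ≫ piS k := by
      intro c
      let Rc := Localization.Away (mon (co T) (chm c))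
      let f : R →ₐ[k] Rc := IsScalarTower.toAlgHom k R Rc
      change Spec.map (CommRingCat.ofHom f.toRingHom) ≫
          Spec.map (CommRingCat.ofHom (homOfTup k T).toRingHom) ≫ piS k =
        Spec.map (CommRingCat.ofHom f.toRingHom) ≫
          Spec.map (CommRingCat.ofHom (homOfTup k T').toRingHom) ≫ piS k
      rw [← Category.assoc, ← Category.assoc, to2_comp, to2_comp]
      have hu0 : IsUnit (mon (co (T.map f.toRingHom)) (chm c)) := by
        have h1 : mon (co (T.map f.toRingHom)) (chm c) = f (mon (co T) (chm c)) := by
          have h2 := mon_map f.toRingHom (co T) (chm c)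
          have h3 : (fun z => f.toRingHom (co T z)) = co (T.map f.toRingHom) := by
            funext z
            exact (co_map f.toRingHom T z).symm
          rw [h3] at h2
          exact h2.symm
        rw [h1]
        exact IsLocalization.Away.algebraMap_isUnit (mon (co T) (chm c))
      refine to2_chart k _ _ c hu0 (a := Units.map f.toRingHom.toMonoidHom a)
        (b := Units.map f.toRingHom.toMonoidHom b) fun z => ?_
      rw [co_map, co_map, h z, map_mul]
      congr 1
      rw [sc, sc, ← map_zpow, ← map_zpow, ← map_mul]
      rfl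
    exact Scheme.Cover.hom_ext (Scheme.affineOpenCoverOfSpanRangeEqTop (R := CommRingCat.of R)
      (fun c => mon (co T) (chm c)) hs).openCover _ _ fun c => key c

/-- the torsor property -/
lemma torsor_ring (T T' : Tup R) :
    Spec.map (CommRingCat.ofHom (homOfTup k T).toRingHom) ≫ piS k =
      Spec.map (CommRingCat.ofHom (homOfTup k T').toRingHom) ≫ piS k ↔
    ∃! e : ZipGroup 2 R, T.act e = T' := by
  rw [same_image_iff]
  constructor
  · rintro ⟨a, b, h⟩
    obtain ⟨e, he, ha, hb⟩ := exists_act h
    refine ⟨e, he, ?_⟩
    intro e' he'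
    have h2 : ∀ z, (sc (ZipGroup.ua e') (ZipGroup.ub e') z : R) * co T z =
        sc (ZipGroup.ua e) (ZipGroup.ub e) z * co T z := by
      intro z
      rw [← co_act, ← co_act, he', he]
    obtain ⟨h3, h4⟩ := units_unique h2
    exact act_unique (he'.trans he.symm) h3 h4
  · rintro ⟨e, he, -⟩
    exact ⟨ZipGroup.ua e, ZipGroup.ub e, fun z => by rw [← he]; exact co_act e T z⟩

end Pool.Agent.Lib.MP_023d06_ag
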