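import Pool.Agent.Lib.MP_023d06_ag.Defs

/-!
# The functor `Tup` and the action of the zip group (p = 2)
-/

namespace Pool.Agent.Lib.MP_023d06_ag

section Forms

variable {R : Type} [CommRing R]

/-- the form of weight `(3,3)`; `s = (s 0, s 1, s 2)`, `t = (t 0, t 1, t 2)`. -/
def f3 (s t : Fin 3 → R) : R := s 2 * t 0 + s 1 * t 2 ^ 4 + s 0 ^ 4 * t 1

/-- the form of weight `(7,7)`. -/
def F7 (s t : Fin 3 → R) (u : R) : R :=
  s 1 * t 0 ^ 4 + s 2 ^ 4 * t 1 + u * (s 2 ^ 2 * t 0 ^ 2) + s 1 ^ 2 * t 0 * t 2 ^ 7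
    + s 2 * s 0 ^ 7 * t 1 ^ 2 + u * (s 0 ^ 6 * t 2 ^ 6)

/-- first column of `g` -/
def sv (g : SL R) : Fin 3 → R := fun i => g i 0

/-- third row of `g⁻¹` -/
def tv (g : SL R) : Fin 3 → R := fun j => g⁻¹ 2 j

lemma tv_zero (g : SL R) : tv g 0 = g 1 0 * g 2 1 - g 1 1 * g 2 0 := by
  simp [tv, Matrix.SpecialLinearGroup.coe_inv, Matrix.adjugate_fin_three]

lemma tv_one (g : SL R) : tv g 1 = g 0 1 * g 2 0 - g 0 0 * g 2 1 := by
  simp [tv, Matrix.SpecialLinearGroup.coe_inv, Matrix.adjugate_fin_three]; ring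

lemma tv_two (g : SL R) : tv g 2 = g 0 0 * g 1 1 - g 0 1 * g 1 0 := by
  simp [tv, Matrix.SpecialLinearGroup.coe_inv, Matrix.adjugate_fin_three]

lemma sv_dot_tv (g : SL R) : sv g 0 * tv g 0 + sv g 1 * tv g 1 + sv g 2 * tv g 2 = 0 := by
  simp only [tv_zero, tv_one, tv_two, sv]; ring

end Forms

/-- An `R`-point of the torsor `T`: `g ∈ SL_3(R)`, `r` (a lower unipotent matrix) and two more
coordinates `u, v` with `u ^ 3 = f3`, `v ^ 7 = F7`. -/
@[ext] structure Tup (R : Type) [CommRing R] where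
  g : SL R
  r : Fin 3 → R
  u : R
  v : R
  eq1 : u ^ 3 = f3 (sv g) (tv g)
  eq2 : v ^ 7 = F7 (sv g) (tv g) u

namespace Tup

variable {R : Type} [CommRing R]

lemma sv_map {R R' : Type} [CommRing R] [CommRing R'] (f : R →+* R') (g : SL R) (i : Fin 3) :
    sv (Matrix.SpecialLinearGroup.map f g) i = f (sv g i) := rfl

lemma tv_map {R R' : Type} [CommRing R] [CommRing R'] (f : R →+* R') (g : SL R) (i : Fin 3) :
    tv (Matrix.SpecialLinearGroup.map f g) i = f (tv g i) := by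
  fin_cases i
  · simp [tv_zero]
  · simp [tv_one]
  · simp [tv_two]

lemma f3_map {R R' : Type} [CommRing R] [CommRing R'] (f : R →+* R') (g : SL R) :
    f3 (sv (Matrix.SpecialLinearGroup.map f g)) (tv (Matrix.SpecialLinearGroup.map f g)) =
      f (f3 (sv g) (tv g)) := by
  simp [f3, sv_map, tv_map]

lemma F7_map {R R' : Type} [CommRing R] [CommRing R'] (f : R →+* R') (g : SL R) (u : R) :
    F7 (sv (Matrix.SpecialLinearGroup.map f g)) (tv (Matrix.SpecialLinearGroup.map f g)) (f u) =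
      f (F7 (sv g) (tv g) u) := by
  simp [F7, sv_map, tv_map]

/-- functoriality -/
def map {R R' : Type} [CommRing R] [CommRing R'] (f : R →+* R') (τ : Tup R) : Tup R' where
  g := Matrix.SpecialLinearGroup.map f τ.g
  r := fun i => f (τ.r i)
  u := f τ.u
  v := f τ.v
  eq1 := by rw [← map_pow, τ.eq1, f3_map]
  eq2 := by rw [← map_pow, τ.eq2, F7_map]

lemma map_id (τ : Tup R) : τ.map (RingHom.id R) = τ := by
  ext <;> rfl

lemma map_map {R R' R'' : Type} [CommRing R] [CommRing R'] [CommRing R''] (f : R →+* R')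
    (f' : R' →+* R'') (τ : Tup R) : (τ.map f).map f' = τ.map (f'.comp f) := by
  ext <;> rfl

/-- the lower unipotent matrix with coordinates `r` -/
def low (r : Fin 3 → R) : SL R :=
  ⟨!![1, 0, 0; r 0, 1, 0; r 1, r 2, 1], by simp [Matrix.det_fin_three]⟩

/-- the map `γ : T ⟶ SL_3`. -/
def gam (τ : Tup R) : SL R := low τ.r * τ.g

lemma gam_map {R R' : Type} [CommRing R] [CommRing R'] (f : R →+* R') (τ : Tup R) :
    gam (τ.map f) = Matrix.SpecialLinearGroup.map f (gam τ) := by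
  rw [gam, gam, map_mul]
  congr 1
  ext i j
  change low (fun i => f (τ.r i)) i j = f (low τ.r i j)
  fin_cases i <;> fin_cases j <;> simp [low]

end Tup

section Torus

variable {R : Type} [CommRing R]

/-- facts about `e = (x, y) ∈ E(R)`. -/
lemma ZipGroup.diag_mul (e : ZipGroup 2 R) : e.1.1 0 0 * e.1.1 1 1 * e.1.1 2 2 = 1 := by
  have h := e.1.1.2
  rw [Matrix.det_fin_three] at h
  have a1 := e.2.1 0 1 (by decide)
  have a2 := e.2.1 0 2 (by decide)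
  have a3 := e.2.1 1 2 (by decide)
  rw [a1, a2, a3] at h
  linear_combination h

/-- the diagonal part of `x`. -/
def ZipGroup.dg (e : ZipGroup 2 R) : SL R :=
  ⟨!![e.1.1 0 0, 0, 0; 0, e.1.1 1 1, 0; 0, 0, e.1.1 2 2], by
    rw [Matrix.det_fin_three]
    simpa using ZipGroup.diag_mul e⟩

lemma ZipGroup.y00 (e : ZipGroup 2 R) : e.1.2 0 0 = e.1.1 0 0 ^ 2 := e.2.2.2 0
lemma ZipGroup.y11 (e : ZipGroup 2 R) : e.1.2 1 1 = e.1.1 1 1 ^ 2 := e.2.2.2 1
lemma ZipGroup.y22 (e : ZipGroup 2 R) : e.1.2 2 2 = e.1.1 2 2 ^ 2 := e.2.2.2 2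

lemma ZipGroup.coe_dg (e : ZipGroup 2 R) : (ZipGroup.dg e : Matrix (Fin 3) (Fin 3) R) =
    !![e.1.1 0 0, 0, 0; 0, e.1.1 1 1, 0; 0, 0, e.1.1 2 2] := rfl

lemma ZipGroup.coe_dg_inv (e : ZipGroup 2 R) :
    ((ZipGroup.dg e)⁻¹ : SL R).1 = !![e.1.1 1 1 * e.1.1 2 2, 0, 0;
      0, e.1.1 0 0 * e.1.1 2 2, 0; 0, 0, e.1.1 0 0 * e.1.1 1 1] := by
  rw [Matrix.SpecialLinearGroup.coe_inv]
  ext i j
  fin_cases i <;> fin_cases j <;> simp [ZipGroup.dg, Matrix.adjugate_fin_three]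

/-- first column of `x_T g y⁻¹` -/
lemma sv_tr (e : ZipGroup 2 R) (g : SL R) :
    sv (ZipGroup.dg e * g * e.1.2⁻¹) = ![e.1.1 1 1 * e.1.1 2 2 * sv g 0,
      e.1.1 1 1 ^ 3 * e.1.1 2 2 ^ 2 * sv g 1, e.1.1 1 1 ^ 2 * e.1.1 2 2 ^ 3 * sv g 2] := by
  have h := ZipGroup.diag_mul e
  have b1 := e.2.2.1 1 0 (by decide)
  have b2 := e.2.2.1 2 0 (by decide)
  have b3 := e.2.2.1 2 1 (by decide)
  have y1 := ZipGroup.y11 e
  have y2 := ZipGroup.y22 e
  have key : ((ZipGroup.dg e * g * e.1.2⁻¹ : SL R) : Matrix (Fin 3) (Fin 3) R) =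
      !![e.1.1 0 0, 0, 0; 0, e.1.1 1 1, 0; 0, 0, e.1.1 2 2] * (g : Matrix (Fin 3) (Fin 3) R) *
        (e.1.2 : Matrix (Fin 3) (Fin 3) R).adjugate := by
    rw [Matrix.SpecialLinearGroup.coe_mul, Matrix.SpecialLinearGroup.coe_mul,
      Matrix.SpecialLinearGroup.coe_inv, ZipGroup.coe_dg]
  funext i
  simp only [sv]
  rw [key]
  simp only [Matrix.mul_apply, Fin.sum_univ_three, Matrix.adjugate_fin_three]
  fin_cases i
  · simp [b1, b2, b3, y1, y2]
    linear_combination (e.1.1 1 1 * e.1.1 2 2 * g 0 0) * h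
  · simp [b1, b2, b3, y1, y2]; ring
  · simp [b1, b2, b3, y1, y2]; ring

/-- third row of `(x_T g y⁻¹)⁻¹` -/
lemma tv_tr (e : ZipGroup 2 R) (g : SL R) :
    tv (ZipGroup.dg e * g * e.1.2⁻¹) = ![e.1.1 1 1 * e.1.1 2 2 ^ 3 * tv g 0,
      e.1.1 0 0 * e.1.1 2 2 ^ 3 * tv g 1, e.1.1 2 2 * tv g 2] := by
  have h := ZipGroup.diag_mul e
  have b1 := e.2.2.1 1 0 (by decide)
  have b2 := e.2.2.1 2 0 (by decide)
  have b3 := e.2.2.1 2 1 (by decide)
  have y2 := ZipGroup.y22 e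
  have key : (((ZipGroup.dg e * g * e.1.2⁻¹)⁻¹ : SL R) : Matrix (Fin 3) (Fin 3) R) =
      (e.1.2 : Matrix (Fin 3) (Fin 3) R) * ((g⁻¹ : SL R).1 *
      !![e.1.1 1 1 * e.1.1 2 2, 0, 0; 0, e.1.1 0 0 * e.1.1 2 2, 0;
        0, 0, e.1.1 0 0 * e.1.1 1 1]) := by
    rw [mul_inv_rev, mul_inv_rev, inv_inv, Matrix.SpecialLinearGroup.coe_mul,
      Matrix.SpecialLinearGroup.coe_mul, ZipGroup.coe_dg_inv]
  funext i
  simp only [tv]
  rw [key]
  simp only [Matrix.mul_apply, Fin.sum_univ_three]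
  fin_cases i
  · simp [b2, b3, y2]; ring
  · simp [b2, b3, y2]; ring
  · simp [b2, b3, y2]
    linear_combination (e.1.1 2 2 * (g : Matrix (Fin 3) (Fin 3) R).adjugate 2 2) * h

/-- the action of `E(R)` on `Tup R`: `(x, y) · (g, r, u, v) =
(x_T g y⁻¹, x low(r) x_T⁻¹, x₂₂ x₃₃² u, x₂₂ x₃₃² v)`. -/
def Tup.act (e : ZipGroup 2 R) (τ : Tup R) : Tup R where
  g := ZipGroup.dg e * τ.g * e.1.2⁻¹
  r := ![(e.1.1 1 0 + e.1.1 1 1 * τ.r 0) * (e.1.1 1 1 * e.1.1 2 2),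
    (e.1.1 2 0 + e.1.1 2 1 * τ.r 0 + e.1.1 2 2 * τ.r 1) * (e.1.1 1 1 * e.1.1 2 2),
    (e.1.1 2 1 + e.1.1 2 2 * τ.r 2) * (e.1.1 0 0 * e.1.1 2 2)]
  u := e.1.1 1 1 * e.1.1 2 2 ^ 2 * τ.u
  v := e.1.1 1 1 * e.1.1 2 2 ^ 2 * τ.v
  eq1 := by
    have h := ZipGroup.diag_mul e
    rw [sv_tr, tv_tr, mul_pow, τ.eq1]
    simp only [f3, Matrix.cons_val_zero, Matrix.cons_val_one, Matrix.cons_val]
    linear_combination (- e.1.1 1 1 ^ 3 * e.1.1 2 2 ^ 6 * sv τ.g 0 ^ 4 * tv τ.g 1) * h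
  eq2 := by
    have h := ZipGroup.diag_mul e
    rw [sv_tr, tv_tr, mul_pow, τ.eq2]
    simp only [F7, Matrix.cons_val_zero, Matrix.cons_val_one, Matrix.cons_val]
    linear_combination (- e.1.1 1 1 ^ 7 * e.1.1 2 2 ^ 14 * sv τ.g 2 ^ 4 * tv τ.g 1
      - e.1.1 1 1 ^ 7 * e.1.1 2 2 ^ 14 * sv τ.g 2 * sv τ.g 0 ^ 7 * tv τ.g 1 ^ 2
        * (e.1.1 0 0 * e.1.1 1 1 * e.1.1 2 2 + 1)) * h

lemma Tup.low_act (e : ZipGroup 2 R) (τ : Tup R) :
    Tup.low (τ.act e).r = e.1.1 * Tup.low τ.r * (ZipGroup.dg e)⁻¹ := by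
  have h := ZipGroup.diag_mul e
  have a1 := e.2.1 0 1 (by decide)
  have a2 := e.2.1 0 2 (by decide)
  have a3 := e.2.1 1 2 (by decide)
  have key : ((e.1.1 * Tup.low τ.r * (ZipGroup.dg e)⁻¹ : SL R) : Matrix (Fin 3) (Fin 3) R) =
      (e.1.1 : Matrix (Fin 3) (Fin 3) R) * (!![1, 0, 0; τ.r 0, 1, 0; τ.r 1, τ.r 2, 1] *
      !![e.1.1 1 1 * e.1.1 2 2, 0, 0; 0, e.1.1 0 0 * e.1.1 2 2, 0;
        0, 0, e.1.1 0 0 * e.1.1 1 1]) := by
    rw [mul_assoc, Matrix.SpecialLinearGroup.coe_mul, Matrix.SpecialLinearGroup.coe_mul,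
      ZipGroup.coe_dg_inv]
    rfl
  ext i j
  rw [key]
  simp only [Matrix.mul_apply, Fin.sum_univ_three, Tup.low, Tup.act]
  fin_cases i <;> fin_cases j <;> simp [a1, a2, a3]
  · linear_combination -h
  · ring
  · linear_combination -h
  · ring
  · ring
  · linear_combination -h

lemma Tup.gam_act (e : ZipGroup 2 R) (τ : Tup R) :
    Tup.gam (τ.act e) = e.1.1 * Tup.gam τ * e.1.2⁻¹ := by
  rw [Tup.gam, Tup.low_act, Tup.gam]
  simp only [Tup.act]
  group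

lemma Tup.low_injective : Function.Injective (Tup.low : (Fin 3 → R) → SL R) := by
  intro r r' h
  have h' : ∀ i j, Tup.low r i j = Tup.low r' i j := fun i j => by rw [h]
  funext i
  fin_cases i
  · simpa [Tup.low] using h' 1 0
  · simpa [Tup.low] using h' 2 0
  · simpa [Tup.low] using h' 2 1

lemma ZipGroup.dg_one : ZipGroup.dg (1 : ZipGroup 2 R) = 1 := by
  ext i j
  fin_cases i <;> fin_cases j <;> simp [ZipGroup.dg]

lemma ZipGroup.mul_apply_diag (e e' : ZipGroup 2 R) (i : Fin 3) :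
    (e * e').1.1 i i = e.1.1 i i * e'.1.1 i i := by
  have a1 := e.2.1 0 1 (by decide)
  have a2 := e.2.1 0 2 (by decide)
  have a3 := e.2.1 1 2 (by decide)
  have a1' := e'.2.1 0 1 (by decide)
  have a2' := e'.2.1 0 2 (by decide)
  have a3' := e'.2.1 1 2 (by decide)
  have key : ((e * e').1.1 : Matrix (Fin 3) (Fin 3) R) =
    (e.1.1 : Matrix (Fin 3) (Fin 3) R) * (e'.1.1 : Matrix (Fin 3) (Fin 3) R) := rfl
  rw [key]
  simp only [Matrix.mul_apply, Fin.sum_univ_three]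
  fin_cases i <;> simp [a1, a2, a3, a1', a2', a3']

lemma ZipGroup.dg_mul (e e' : ZipGroup 2 R) :
    ZipGroup.dg (e * e') = ZipGroup.dg e * ZipGroup.dg e' := by
  ext i j
  rw [Matrix.SpecialLinearGroup.coe_mul]
  simp only [ZipGroup.coe_dg, ZipGroup.mul_apply_diag]
  simp only [Matrix.mul_apply, Fin.sum_univ_three]
  fin_cases i <;> fin_cases j <;> simp

lemma Tup.act_one (τ : Tup R) : τ.act 1 = τ := by
  have hr : (τ.act 1).r = τ.r := by
    apply Tup.low_injective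
    rw [Tup.low_act, ZipGroup.dg_one]
    simp
  have hg : (τ.act 1).g = τ.g := by
    change ZipGroup.dg (1 : ZipGroup 2 R) * τ.g * (1 : SL R)⁻¹ = τ.g
    rw [ZipGroup.dg_one]; simp
  have hu : (τ.act 1).u = τ.u := by simp [Tup.act]
  have hv : (τ.act 1).v = τ.v := by simp [Tup.act]
  exact Tup.ext hg hr hu hv

lemma Tup.act_mul (e e' : ZipGroup 2 R) (τ : Tup R) : τ.act (e * e') = (τ.act e').act e := by
  have hr : (τ.act (e * e')).r = ((τ.act e').act e).r := by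
    apply Tup.low_injective
    rw [Tup.low_act, Tup.low_act, Tup.low_act, ZipGroup.dg_mul, mul_inv_rev]
    simp only [Subgroup.coe_mul, Prod.fst_mul, mul_assoc]
  have hg : (τ.act (e * e')).g = ((τ.act e').act e).g := by
    change ZipGroup.dg (e * e') * τ.g * (e.1.2 * e'.1.2)⁻¹ =
      ZipGroup.dg e * (ZipGroup.dg e' * τ.g * e'.1.2⁻¹) * e.1.2⁻¹
    rw [ZipGroup.dg_mul, mul_inv_rev]
    simp only [mul_assoc]
  have hu : (τ.act (e * e')).u = ((τ.act e').act e).u := by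
    simp only [Tup.act, ZipGroup.mul_apply_diag]; ring
  have hv : (τ.act (e * e')).v = ((τ.act e').act e).v := by
    simp only [Tup.act, ZipGroup.mul_apply_diag]; ring
  exact Tup.ext hg hr hu hv

lemma Tup.act_map {R' : Type} [CommRing R'] (f : R →+* R') (e : ZipGroup 2 R) (τ : Tup R) :
    (τ.act e).map f = (τ.map f).act (ZipGroup.map f e) := by
  have hd : ZipGroup.dg (ZipGroup.map f e) = Matrix.SpecialLinearGroup.map f (ZipGroup.dg e) := by
    ext i j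
    change _ = f (ZipGroup.dg e i j)
    fin_cases i <;> fin_cases j <;> simp [ZipGroup.dg, ZipGroup.map]
  have hg : ((τ.act e).map f).g = ((τ.map f).act (ZipGroup.map f e)).g := by
    change Matrix.SpecialLinearGroup.map f (ZipGroup.dg e * τ.g * e.1.2⁻¹) =
      ZipGroup.dg (ZipGroup.map f e) * Matrix.SpecialLinearGroup.map f τ.g *
        (Matrix.SpecialLinearGroup.map f e.1.2)⁻¹
    rw [hd]; simp
  have hr : ((τ.act e).map f).r = ((τ.map f).act (ZipGroup.map f e)).r := by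
    funext i
    fin_cases i <;> simp [Tup.act, Tup.map, ZipGroup.map]
  have hu : ((τ.act e).map f).u = ((τ.map f).act (ZipGroup.map f e)).u := by
    simp [Tup.act, Tup.map, ZipGroup.map]
  have hv : ((τ.act e).map f).v = ((τ.map f).act (ZipGroup.map f e)).v := by
    simp [Tup.act, Tup.map, ZipGroup.map]
  exact Tup.ext hg hr hu hv

end Torus

end Pool.Agent.Lib.MP_023d06_ag
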