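import Mathlib

/-!
# MP_023d06_ag : the zip group of `(SL_3, μ)`, `μ(t) = diag(t, 1, t⁻¹)`

`P = P_-` is the group of lower triangular matrices, `Q = P_+^{(p)}` the group of upper
triangular matrices, `L = M = T` is the diagonal torus and `φ` is the `p`-th power map.
-/

namespace Pool.Agent.Lib.MP_023d06_ag

/-- `SL_3(R)`. -/
abbrev SL (R : Type) [CommRing R] := Matrix.SpecialLinearGroup (Fin 3) R

section ZipGroup

variable {p : ℕ} {R : Type} [CommRing R]

lemma zip_one : (∀ i j : Fin 3, i < j → (1 : SL R × SL R).1 i j = 0) ∧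
    (∀ i j : Fin 3, j < i → (1 : SL R × SL R).2 i j = 0) ∧
    ∀ i : Fin 3, (1 : SL R × SL R).2 i i = (1 : SL R × SL R).1 i i ^ p := by
  refine ⟨fun i j h => ?_, fun i j h => ?_, fun i => ?_⟩
  · simp [h.ne]
  · simp [h.ne']
  · simp

lemma zip_mul {e e' : SL R × SL R} (he : (∀ i j : Fin 3, i < j → e.1 i j = 0) ∧
    (∀ i j : Fin 3, j < i → e.2 i j = 0) ∧ ∀ i : Fin 3, e.2 i i = e.1 i i ^ p)
    (he' : (∀ i j : Fin 3, i < j → e'.1 i j = 0) ∧
    (∀ i j : Fin 3, j < i → e'.2 i j = 0) ∧ ∀ i : Fin 3, e'.2 i i = e'.1 i i ^ p) :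
    (∀ i j : Fin 3, i < j → (e * e').1 i j = 0) ∧
    (∀ i j : Fin 3, j < i → (e * e').2 i j = 0) ∧
    ∀ i : Fin 3, (e * e').2 i i = (e * e').1 i i ^ p := by
  obtain ⟨x, y⟩ := e
  obtain ⟨x', y'⟩ := e'
  obtain ⟨h1, h2, h3⟩ := he
  obtain ⟨h1', h2', h3'⟩ := he'
  have a1 := h1 0 1 (by decide)
  have a2 := h1 0 2 (by decide)
  have a3 := h1 1 2 (by decide)
  have b1 := h2 1 0 (by decide)
  have b2 := h2 2 0 (by decide)
  have b3 := h2 2 1 (by decide)
  have a1' := h1' 0 1 (by decide)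
  have a2' := h1' 0 2 (by decide)
  have a3' := h1' 1 2 (by decide)
  have b1' := h2' 1 0 (by decide)
  have b2' := h2' 2 0 (by decide)
  have b3' := h2' 2 1 (by decide)
  have c0 := h3 0
  have c1 := h3 1
  have c2 := h3 2
  have c0' := h3' 0
  have c1' := h3' 1
  have c2' := h3' 2
  simp only at *
  refine ⟨fun i j h => ?_, fun i j h => ?_, fun i => ?_⟩
  · fin_cases i <;> fin_cases j <;> simp_all [Matrix.mul_apply, Fin.sum_univ_three]
  · fin_cases i <;> fin_cases j <;> simp_all [Matrix.mul_apply, Fin.sum_univ_three]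
  · fin_cases i <;> simp_all [Matrix.mul_apply, Fin.sum_univ_three, mul_pow]

lemma zip_inv {e : SL R × SL R} (he : (∀ i j : Fin 3, i < j → e.1 i j = 0) ∧
    (∀ i j : Fin 3, j < i → e.2 i j = 0) ∧ ∀ i : Fin 3, e.2 i i = e.1 i i ^ p) :
    (∀ i j : Fin 3, i < j → e⁻¹.1 i j = 0) ∧
    (∀ i j : Fin 3, j < i → e⁻¹.2 i j = 0) ∧ ∀ i : Fin 3, e⁻¹.2 i i = e⁻¹.1 i i ^ p := by
  obtain ⟨x, y⟩ := e
  obtain ⟨h1, h2, h3⟩ := he
  have a1 := h1 0 1 (by decide)
  have a2 := h1 0 2 (by decide)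
  have a3 := h1 1 2 (by decide)
  have b1 := h2 1 0 (by decide)
  have b2 := h2 2 0 (by decide)
  have b3 := h2 2 1 (by decide)
  have c0 := h3 0
  have c1 := h3 1
  have c2 := h3 2
  simp only at *
  refine ⟨fun i j h => ?_, fun i j h => ?_, fun i => ?_⟩
  · fin_cases i <;> fin_cases j <;>
      simp_all [Matrix.SpecialLinearGroup.coe_inv, Matrix.adjugate_fin_three]
  · fin_cases i <;> fin_cases j <;>
      simp_all [Matrix.SpecialLinearGroup.coe_inv, Matrix.adjugate_fin_three]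
  · fin_cases i <;>
      simp_all [Matrix.SpecialLinearGroup.coe_inv, Matrix.adjugate_fin_three, mul_pow]

variable (p R)

/-- The zip group of `(SL_3, μ)`, `μ(t) = diag(t, 1, t⁻¹)`: `E(R)` is the group of pairs `(x, y)`
with `x ∈ P(R)` (lower triangular), `y ∈ Q(R)` (upper triangular) and
`φ(θ_L^P(x)) = θ_M^Q(y)`, i.e. `y_ii = x_ii ^ p`. -/
def ZipGroup : Subgroup (SL R × SL R) where
  carrier := {e | (∀ i j : Fin 3, i < j → e.1 i j = 0) ∧ (∀ i j : Fin 3, j < i → e.2 i j = 0) ∧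
    ∀ i : Fin 3, e.2 i i = e.1 i i ^ p}
  one_mem' := zip_one
  mul_mem' := zip_mul
  inv_mem' := zip_inv

variable {p R}

lemma zip_map {R' : Type} [CommRing R'] (f : R →+* R') (e : ZipGroup p R) :
    (Matrix.SpecialLinearGroup.map f e.1.1, Matrix.SpecialLinearGroup.map f e.1.2) ∈
      ZipGroup p R' := by
  obtain ⟨⟨x, y⟩, h1, h2, h3⟩ := e
  refine ⟨fun i j h => ?_, fun i j h => ?_, fun i => ?_⟩
  · have := h1 i j h
    simp only at this
    simp [this]
  · have := h2 i j h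
    simp only at this
    simp [this]
  · have := h3 i
    simp only at this
    simp [this]

/-- `E(R) → E(R')` induced by a ring homomorphism `R → R'`. -/
def ZipGroup.map {R' : Type} [CommRing R'] (f : R →+* R') (e : ZipGroup p R) : ZipGroup p R' :=
  ⟨(Matrix.SpecialLinearGroup.map f e.1.1, Matrix.SpecialLinearGroup.map f e.1.2), zip_map f e⟩

end ZipGroup

end Pool.Agent.Lib.MP_023d06_ag
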